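import Pool.Agent.Run7.h743.Lifts

/-!
# Passage from `K^{H'}` to a subfield `K^H` over which the same places split completely
-/

set_option autoImplicit false
set_option linter.unusedSectionVars false

open NumberField IsDedekindDomain Filter Topology

noncomputable section

namespace Run7.h743

open Pool.Agent.K3h30.RS

variable {k K G : Type} [Field k] [NumberField k] [Field K] [NumberField K] [Algebra k K]
  [CommGroup G] [Finite G] [MulSemiringAction G K] [IsGaloisGroup G k K]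

namespace STData

variable (D : STData k K) {ι δ : Type} [Fintype ι] [DecidableEq ι] [Fintype δ] [DecidableEq δ]

/-- extension by zero -/
def ext0 {H' H : Subgroup G} (ψ : H' → D.GHm H) (h : H) : D.GHm H :=
  open Classical in if hh : (h : G) ∈ H' then ψ ⟨(h : G), hh⟩ else D.zeroG H

theorem ext0_lifts {N H' H : Subgroup G} (hH : H' ≤ H) (ψ : H' → D.GHm H) (a : D.UN H) :
    letI := Fintype.ofFinite H
    letI := Fintype.ofFinite H'
    ∏ h : H, ((h : G) : G ⧸ N) ^ (D.cf1 (D.ext0 ψ h) (Additive.ofMul a)) =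
      ∏ h : H', ((h : G) : G ⧸ N) ^ (D.cf1 (ψ h) (Additive.ofMul a)) := by
  classical
  let _ := Fintype.ofFinite H
  let _ := Fintype.ofFinite H'
  symm
  refine Fintype.prod_of_injective (Subgroup.inclusion hH) (Subgroup.inclusion_injective hH) _ _ ?_ ?_
  · intro h hh
    have h1 : (h : G) ∉ H' := fun h2 => hh ⟨⟨(h : G), h2⟩, rfl⟩
    unfold ext0
    rw [dif_neg h1, cf1_zeroG, AddMonoidHom.zero_apply, zpow_zero]
  · intro h
    unfold ext0
    rw [dif_pos (show ((Subgroup.inclusion hH h : H) : G) ∈ H' from h.2)]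
    rfl

/-- extension of the sum by zero -/
theorem exists_ext_sum {N H' H : Subgroup G} (hNH : N ≤ H) (hH : H' ≤ H) (u' : D.Elt H (δ ⊕ ι))
    (φ' : ι → D.GHm H) (ψ : δ → H' → D.GHm H) (y : (δ → H') → MonoidAlgebra ℤ (G ⧸ N))
    (hy : ∀ h : δ → H', u'.val (Sum.elim (fun j => ψ j (h j)) φ') = toQ (prj hNH (y h))) :
    ∃ y' : (δ → H) → MonoidAlgebra ℤ (G ⧸ N),
      (∀ h : δ → H, u'.val (Sum.elim (fun j => D.ext0 (ψ j) (h j)) φ') = toQ (prj hNH (y' h))) ∧
      letI := Fintype.ofFinite H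
      letI := Fintype.ofFinite H'
      ∑ h : δ → H', y h * ∏ j, (MonoidAlgebra.single ((h j : G) : G ⧸ N) 1 - 1) =
        ∑ h : δ → H, y' h * ∏ j, (MonoidAlgebra.single ((h j : G) : G ⧸ N) 1 - 1) := by
  classical
  let _ := Fintype.ofFinite H
  let _ := Fintype.ofFinite H'
  refine ⟨fun h => if hh : ∀ j, (h j : G) ∈ H' then y (fun j => ⟨(h j : G), hh j⟩) else 0, ?_, ?_⟩
  · intro h
    by_cases hh : ∀ j, (h j : G) ∈ H'
    · beta_reduce
      rw [dif_pos hh, ← hy]
      congr 2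
      ext1 j
      unfold ext0
      rw [dif_pos (hh j)]
    · beta_reduce
      rw [dif_neg hh, map_zero, map_zero]
      push Not at hh
      obtain ⟨j, hj⟩ := hh
      refine D.val_zero u' _ (Sum.inl j) ?_
      change D.ext0 (ψ j) (h j) = _
      unfold ext0
      rw [dif_neg hj]
  · refine Fintype.sum_of_injective (fun (h : δ → H') j => Subgroup.inclusion hH (h j)) ?_ _ _ ?_ ?_
    · intro a b hab
      ext j
      have := congrArg (fun f => ((f j : H) : G)) hab
      exact this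
    · intro h hh
      beta_reduce
      rw [dif_neg, zero_mul]
      intro h2
      exact hh ⟨fun j => ⟨(h j : G), h2 j⟩, rfl⟩
    · intro h
      beta_reduce
      rw [dif_pos (show ∀ j, ((Subgroup.inclusion hH (h j) : H) : G) ∈ H' from fun j => (h j).2)]
      rfl

/-- **Change of the base field.** -/
theorem mrs_base {N H' H : Subgroup G} (hN : N ≤ H') (hH : H' ≤ H) (w : ι → Place K)
    (x : δ → Place K) (hx : D.IsV H' (Sum.elim x w)) (ρ : δ → D.UN H' →* G)
    (hρ : ∀ j a, Fixes (x j) (ρ j a)) (hRS : ∃ u₁ : D.Elt H' (δ ⊕ ι), D.IsRS H' (Sum.elim x w) u₁)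
    (hMRS : D.MRS hN w x ρ) :
    D.MRS (hN.trans hH) w x (fun j => (ρ j).comp (Subgroup.inclusion (D.UN_mono hH))) := by
  classical
  intro u u' hu hu' φ φ' hφ ψ hψ z y hz hy
  let _ := Fintype.ofFinite H
  let _ := Fintype.ofFinite H'
  obtain ⟨u₁, hu₁⟩ := hRS
  choose φ₁ hφ₁ using fun i => D.exists_restr hN (φ i)
  choose ψ₁ hψ₁ using fun j => D.exists_lifts (ρ j) (fun a => hx.splits (Sum.inl j) _ (hρ j a))
  have h1 : ∀ h : δ → H', ∃ y₁ : MonoidAlgebra ℤ (G ⧸ N),
      u₁.val (Sum.elim (fun j => ψ₁ j (h j)) φ₁) = toQ (prj hN y₁) := by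
    intro h
    obtain ⟨z, hz⟩ := hu₁.integral (Sum.elim (fun j => ψ₁ j (h j)) φ₁)
    obtain ⟨y₁, rfl⟩ := prj_surjective hN z
    exact ⟨y₁, hz⟩
  choose y₁ hy₁ using h1
  have h2 := hMRS u u₁ hu hu₁ φ φ₁ hφ₁ ψ₁ (fun j => hψ₁ j N) z y₁ hz hy₁
  -- restriction to `K^H`
  choose ψ₂ hψ₂ using fun j => fun h => D.exists_restr hH (ψ₁ j h)
  have h3 : ∀ h : δ → H', u'.val (Sum.elim (fun j => ψ₂ j (h j)) φ') =
      toQ (prj (hN.trans hH) (y₁ h)) := by
    intro h
    rw [← prj_prj hN hH, toQ_prj, ← hy₁]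
    symm
    refine D.norm_rel hH (Sum.elim x w) u₁ u' hu₁ hu' _ _ ?_
    rintro (j | i)
    · exact hψ₂ j (h j)
    · exact D.restr_trans hN hH (hφ₁ i) (hφ i)
  obtain ⟨y₂, hy₂, h4⟩ := D.exists_ext_sum (hN.trans hH) hH u' φ' ψ₂ y₁ h3
  have h5 := D.indep (hN.trans hH) u' hu'.integral φ' (fun j => D.ext0 (ψ₂ j)) ψ (by
    intro j a
    rw [D.ext0_lifts hH (ψ₂ j) a]
    have h6 := hψ₁ j N (Subgroup.inclusion (D.UN_mono hH) a)
    have h7 := hψ j a
    have h8 : ∀ h : H', D.cf1 (ψ₂ j h) (Additive.ofMul a) =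
        ((ψ₁ j h).f (Additive.ofMul (Subgroup.inclusion (D.UN_mono hH) a))).coeff 1 := by
      intro h
      exact (hψ₂ j h (Subgroup.inclusion (D.UN_mono hH) a) a rfl 1).symm
    simp only [h8]
    refine h6.symm.trans ?_
    exact h7) y₂ y hy₂ hy
  have h6 : z - ∑ h : δ → H, y h * ∏ j, (MonoidAlgebra.single ((h j : G) : G ⧸ N) 1 - 1) =
      (z - ∑ h : δ → H', y₁ h * ∏ j, (MonoidAlgebra.single ((h j : G) : G ⧸ N) 1 - 1)) +
      (∑ h : δ → H, y₂ h * ∏ j, (MonoidAlgebra.single ((h j : G) : G ⧸ N) 1 - 1) -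
        ∑ h : δ → H, y h * ∏ j, (MonoidAlgebra.single ((h j : G) : G ⧸ N) 1 - 1)) := by
    rw [h4]; ring
  rw [h6]
  refine Ideal.add_mem _ ?_ h5
  have h7 : IH (H'.map (QuotientGroup.mk' N)) ≤ IH (H.map (QuotientGroup.mk' N)) := by
    refine Ideal.span_mono ?_
    rintro _ ⟨h, hh, rfl⟩
    exact ⟨h, Subgroup.map_mono hH hh, rfl⟩
  exact Ideal.pow_right_mono h7 _ h2

/-- the case `V = V'` -/
theorem mrs_empty [IsEmpty δ] {N H : Subgroup G} (hNH : N ≤ H) (w : ι → Place K) (x : δ → Place K)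
    (ρ : δ → D.UN H →* G) : D.MRS hNH w x ρ := by
  classical
  intro u u' hu hu' φ φ' hφ ψ hψ z y hz hy
  let _ := Fintype.ofFinite H
  have h1 : z - ∑ h : δ → H, y h * ∏ j, (MonoidAlgebra.single ((h j : G) : G ⧸ N) 1 - 1) =
      z - y isEmptyElim := by
    rw [Fintype.sum_unique]
    congr 1
    rw [Finset.univ_eq_empty, Finset.prod_empty, mul_one]
    congr 1
  have h2 : z - y isEmptyElim ∈ (IH (H.map (QuotientGroup.mk' N))) ^ (Fintype.card δ + 1) := by
    rw [Fintype.card_eq_zero, zero_add, pow_one]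
    refine mem_of_prj hNH ?_
    apply toQ_injective
    let e : δ ⊕ ι ≃ ι := Equiv.emptySum δ ι
    have h3 : D.IsRS H w (D.reix e u') := by
      refine D.reix_isRS e u' w ?_
      have h4 : (fun i => w (e i)) = Sum.elim x w := by
        ext1 i
        rcases i with j | i
        · exact isEmptyElim j
        · rfl
      rw [h4]
      exact hu'
    have h4 := D.norm_rel hNH w u (D.reix e u') hu h3 φ φ' hφ
    rw [hz, D.reix_val, ← toQ_prj] at h4
    rw [map_sub, map_sub, map_zero, h4, ← hy, sub_eq_zero]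
    congr 1
    ext1 i
    rcases i with j | i
    · exact isEmptyElim j
    · rfl
  exact h1 ▸ h2

/-- **Reduction to prime degree**, general form. -/
theorem mrs_main {H' H : Subgroup G} (hH : H' ≤ H) (hexp : Squarefree (Monoid.exponent H'))
    (w : ι → Place K) (x : δ → Place K) (hx : D.IsV H' (Sum.elim x w)) (ρ : δ → D.UN H' →* G)
    (hρ : ∀ j a, Fixes (x j) (ρ j a)) (hRS : ∃ u₁ : D.Elt H' (δ ⊕ ι), D.IsRS H' (Sum.elim x w) u₁)
    (hMRS : ∀ (N : Subgroup G) (hN : N ≤ H'), (N.relIndex H').Prime →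
      (∀ j, ∃ γ : G, Fixes (x j) γ ∧ γ ∉ N) → D.MRS hN w x ρ) :
    D.MRS (bot_le : ⊥ ≤ H) w x (fun j => (ρ j).comp (Subgroup.inclusion (D.UN_mono hH))) := by
  rcases isEmpty_or_nonempty δ with hδ | hδ
  · exact D.mrs_empty _ w x _
  · exact D.mrs_base (bot_le : ⊥ ≤ H') hH w x hx ρ hρ hRS (D.mrs_sqf H' hexp w x hx ρ hρ hMRS)

end STData

end Run7.h743
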