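import Pool.Agent.K3h30.RS.Defs

/-!
# The conjecture of Mazur–Rubin and Sano: definitions

`K / k` is a finite abelian extension of number fields with group `G`. For a subgroup `N` of `G`
the fixed field `K^N` is described inside `K`.
-/

set_option autoImplicit false

open NumberField IsDedekindDomain Filter Topology

noncomputable section

namespace Run7.h743

open Pool.Agent.K3h30.RS

section groupring

variable {Γ : Type} [CommGroup Γ]

/-- The ideal of `ℤ[Γ]` generated by the `h - 1`, `h ∈ H`. -/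
def IH (H : Subgroup Γ) : Ideal (MonoidAlgebra ℤ Γ) :=
  Ideal.span {y | ∃ h ∈ H, y = MonoidAlgebra.single h 1 - 1}

/-- The projection `ℤ[Γ/N] → ℤ[Γ/H]` for `N ≤ H`. -/
def prj {N H : Subgroup Γ} (h : N ≤ H) : MonoidAlgebra ℤ (Γ ⧸ N) →+* MonoidAlgebra ℤ (Γ ⧸ H) :=
  MonoidAlgebra.mapDomainRingHom ℤ (QuotientGroup.map N H (MonoidHom.id Γ) h)

end groupring

variable {k K G : Type} [Field k] [NumberField k] [Field K] [NumberField K] [Algebra k K]
  [CommGroup G] [Finite G] [MulSemiringAction G K]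

variable (k K) in
/-- An admissible pair `(S, T)` for `K / k`: `S` consists of the archimedean places and of a finite
set of prime ideals, it contains the ramified ones; `T` is a finite set of prime ideals, disjoint
from `S`, and `O_{K,S,T}^×` is torsion-free. -/
structure STData where
  /-- the prime ideals in `S` -/
  S : Finset (HeightOneSpectrum (𝓞 k))
  /-- the set `T` -/
  T : Finset (HeightOneSpectrum (𝓞 k))
  unramified : ∀ v : HeightOneSpectrum (𝓞 k), v ∉ S →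
    Squarefree (v.asIdeal.map (algebraMap (𝓞 k) (𝓞 K)))
  disjoint : Disjoint S T
  torsionFree : ∀ x ∈ unitGroup (H := K) (S : Set (HeightOneSpectrum (𝓞 k)))
    (T : Set (HeightOneSpectrum (𝓞 k))), ∀ n : ℕ, 0 < n → x ^ n = 1 → x = 1

namespace STData

variable (D : STData k K)

/-- The group `O_{E,S,T}^×` of the fixed field `E = K^N`. -/
def UN (N : Subgroup G) : Subgroup Kˣ where
  carrier := {x | x ∈ unitGroup (H := K) (D.S : Set (HeightOneSpectrum (𝓞 k)))
    (D.T : Set (HeightOneSpectrum (𝓞 k))) ∧ ∀ γ ∈ N, act γ x = x}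
  mul_mem' := fun {x y} hx hy => ⟨Subgroup.mul_mem _ hx.1 hy.1, fun γ hγ => by
    rw [show act γ (x * y) = act γ x * act γ y from map_mul _ _ _, hx.2 γ hγ, hy.2 γ hγ]⟩
  one_mem' := ⟨Subgroup.one_mem _, fun γ _ => map_one _⟩
  inv_mem' := fun {x} hx => ⟨Subgroup.inv_mem _ hx.1, fun γ hγ => by
    rw [show act γ x⁻¹ = (act γ x)⁻¹ from map_inv _ _, hx.2 γ hγ]⟩

theorem UN_mono {M N : Subgroup G} (h : M ≤ N) : D.UN N ≤ D.UN M :=
  fun _ hx => ⟨hx.1, fun γ hγ => hx.2 γ (h hγ)⟩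

/-- An element of `Hom_{ℤ[G/N]}(O_{E,S,T}^×, ℤ[G/N])`, `E = K^N`. -/
structure GHm (N : Subgroup G) where
  /-- the homomorphism -/
  f : Additive (D.UN N) →+ MonoidAlgebra ℤ (G ⧸ N)
  equiv : ∀ (γ : G) (x y : D.UN N), (y : Kˣ) = act γ (x : Kˣ) →
    f (Additive.ofMul y) = MonoidAlgebra.single (γ : G ⧸ N) 1 * f (Additive.ofMul x)

/-- An element `∑ c_j x_j` of `ℚ ⊗ ⋀^r O_{E,S,T}^×`, `E = K^N`, where the `x_j` are exterior products
of families of elements indexed by `ι`, `r = #ι`. -/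
structure Elt (N : Subgroup G) (ι : Type) where
  /-- the number of the summands -/
  n : ℕ
  /-- the coefficients -/
  c : Fin n → MonoidAlgebra ℚ (G ⧸ N)
  /-- the elements -/
  x : Fin n → ι → D.UN N

/-- The Frobenius automorphism at `v`. -/
def frob (K G : Type) [Field K] [NumberField K] [Algebra k K] [CommGroup G] [MulSemiringAction G K]
    (v : HeightOneSpectrum (𝓞 k)) : G :=
  open Classical in if h : ∃ γ : G, IsFrob (H := K) v γ then h.choose else 1

/-- `Λ` is the continuation to `s ≠ 1` of the Euler product of `L_S(s, χ)`. -/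
def IsLFun (χ : G →* ℂˣ) (Λ : ℂ → ℂ) : Prop :=
  DifferentiableOn ℂ Λ {1}ᶜ ∧ ∀ s : ℂ, 1 < s.re →
    HasProd (fun v : {v : HeightOneSpectrum (𝓞 k) // v ∉ D.S} =>
      (1 - (χ (frob K G (v : HeightOneSpectrum (𝓞 k))) : ℂ) *
        (Ideal.absNorm (v : HeightOneSpectrum (𝓞 k)).asIdeal : ℂ) ^ (-s))⁻¹) (Λ s)

/-- The function `L_S(s, χ)`. -/
def LS (χ : G →* ℂˣ) : ℂ → ℂ :=
  open Classical in if h : ∃ Λ : ℂ → ℂ, D.IsLFun χ Λ then h.choose else 0

/-- The function `L_{S,T}(s, χ)`. -/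
def LST (χ : G →* ℂˣ) (s : ℂ) : ℂ :=
  (∏ v ∈ D.T, (1 - (χ (frob K G v) : ℂ) * (Ideal.absNorm v.asIdeal : ℂ) ^ (1 - s))) * D.LS χ s

section places

variable {ι : Type}

/-- The `w i` are places of `K` over distinct places of `k`, which belong to `S` and split completely
in `K^N`; `S` has further elements. -/
structure IsV (N : Subgroup G) (w : ι → Place K) : Prop where
  inS : ∀ i, InS (D.S : Set (HeightOneSpectrum (𝓞 k))) (w i)
  splits : ∀ i, ∀ γ : G, Fixes (w i) γ → γ ∈ N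
  distinct : ∀ i j, Conj G (w i) (w j) → i = j
  more : ∃ u : Place K, InS (D.S : Set (HeightOneSpectrum (𝓞 k))) u ∧ ∀ i, ¬ Conj G u (w i)

/-- The order of vanishing of `L_S(s, χ)` at `s = 0` is the number of the `w i`: `χ` is not trivial on
the decomposition group of any further place of `S`, or `χ = 1` and `S` has exactly one further
element. -/
def Active (w : ι → Place K) (χ : G →* ℂˣ) : Prop :=
  (∀ u : Place K, InS (D.S : Set (HeightOneSpectrum (𝓞 k))) u → (∀ i, ¬ Conj G u (w i)) →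
    ∃ γ : G, Fixes u γ ∧ χ γ ≠ 1) ∨
  (χ = 1 ∧ ∀ u u' : Place K, InS (D.S : Set (HeightOneSpectrum (𝓞 k))) u →
    InS (D.S : Set (HeightOneSpectrum (𝓞 k))) u' → (∀ i, ¬ Conj G u (w i)) →
    (∀ i, ¬ Conj G u' (w i)) → Conj G u u')

end places

/-- `- log |x|_w` for the absolute value of the completion of `k` at the place below `w`, for `x` in
the fixed field of the decomposition group of `w`. -/
def lg (G : Type) [CommGroup G] [MulSemiringAction G K] (w : Place K) (x : Kˣ) : ℝ :=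
  - Real.log (av w (x : K)) / Nat.card {γ : G // Fixes w γ}

/-- The element `∑_c (- log |c⁻¹ x|_w) c` of `ℝ[G/N]`. -/
def rg (N : Subgroup G) (w : Place K) (x : Kˣ) : MonoidAlgebra ℝ (G ⧸ N) :=
  letI := Fintype.ofFinite (G ⧸ N)
  ∑ c : G ⧸ N, MonoidAlgebra.single c (lg G w (act (c.out)⁻¹ x))

namespace Elt

variable {D} {N : Subgroup G} {ι : Type} [Fintype ι] [DecidableEq ι]

/-- The value of `⋀ φ_i` at an element of `ℚ ⊗ ⋀^r O_{E,S,T}^×`. -/
def val (u : D.Elt N ι) (φ : ι → D.GHm N) : MonoidAlgebra ℚ (G ⧸ N) :=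
  ∑ j, u.c j * toQ (Matrix.det (Matrix.of fun a b => (φ a).f (Additive.ofMul (u.x j b))))

/-- The element `(⋀ w_i^*) (λ (u))` of `ℝ[G/N]`. -/
def reg (u : D.Elt N ι) (w : ι → Place K) : MonoidAlgebra ℝ (G ⧸ N) :=
  ∑ j, toR (u.c j) * Matrix.det (Matrix.of fun a b => rg N (w a) (u.x j b : Kˣ))

end Elt

/-- `u` is the Rubin–Stark element `ε_{E,S,T,V}` of `E = K^N`, `V` the set of the places below the
`w i`: it belongs to `⋂^r O_{E,S,T}^×`, its `χ`-components with `L_S(s, χ)` of order different from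
`r` are zero, and the others have the regulator `lim s^{-r} L_{S,T}(s, χ⁻¹)`. -/
structure IsRS (N : Subgroup G) {ι : Type} [Fintype ι] [DecidableEq ι] (w : ι → Place K)
    (u : D.Elt N ι) : Prop where
  integral : ∀ φ : ι → D.GHm N, ∃ z : MonoidAlgebra ℤ (G ⧸ N), u.val φ = toQ z
  support : ∀ χ : G ⧸ N →* ℂˣ, ¬ D.Active w (χ.comp (QuotientGroup.mk' N)) →
    ∀ φ : ι → D.GHm N, charValue χ (toR (u.val φ)) = 0
  leading : ∀ χ : G ⧸ N →* ℂˣ, Tendsto (fun s : ℂ => (s ^ Fintype.card ι)⁻¹ *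
    D.LST (χ⁻¹.comp (QuotientGroup.mk' N)) s) (𝓝[≠] 0) (𝓝 (charValue χ (u.reg w)))

/-- For `N ≤ H`: the restriction of `φ : O_{K^N,S,T}^× → ℤ[G/N]` to `O_{K^H,S,T}^×` is
`κ ∘ φ'`, `κ : ℤ[G/H] → ℤ[G/N]` the map `1 ↦ ∑_{σ ∈ H/N} σ`. -/
def Restr {N H : Subgroup G} (φ : D.GHm N) (φ' : D.GHm H) : Prop :=
  ∀ (a : D.UN N) (b : D.UN H), (a : Kˣ) = (b : Kˣ) → ∀ g : G,
    (φ.f (Additive.ofMul a)).coeff (g : G ⧸ N) = (φ'.f (Additive.ofMul b)).coeff (g : G ⧸ H)

/-- The homomorphisms `ψ_h`, `h ∈ H`, lift the homomorphism `ρ` from `O_{L,S,T}^×`, `L = K^H`, to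
`H/N`: `ρ(a)` is the product of the `h ^ (ψ_h(a))_1`. So `∑_h ψ_h(a) (h - 1)` is the element
`∑_σ (ρ(σ a) - 1) σ⁻¹` modulo the square of the augmentation ideal. -/
def Lifts {H : Subgroup G} (N : Subgroup G) (ρ : D.UN H →* G) (ψ : H → D.GHm H) : Prop :=
  letI := Fintype.ofFinite H
  ∀ a : D.UN H, (ρ a : G ⧸ N) =
    ∏ h : H, ((h : G) : G ⧸ N) ^ ((ψ h).f (Additive.ofMul a)).coeff 1

section

variable {ι δ : Type} [Fintype ι] [DecidableEq ι] [Fintype δ] [DecidableEq δ]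

/-- The conjecture of Mazur–Rubin and Sano for `(K^N, K^H, V, V')`, `N ≤ H`. The places of `V` are
below the `w i`, those of `V' \ V` below the `x j`; `ρ j` is the local reciprocity map at `x j`. For
all `φ_i ∈ Hom(O_{K^N,S,T}^×, ℤ[G/N])` the value of `⋀ φ_i` at `ε_{K^N,S,T,V}` is congruent to
`(⋀_j φ_{x_j} ∧ ⋀_i φ_i^H) (ε_{K^H,S,T,V'})` modulo the `(#δ + 1)`-st power of the ideal
generated by the augmentation ideal of `H/N`. -/
def MRS {N H : Subgroup G} (hNH : N ≤ H) (w : ι → Place K) (x : δ → Place K)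
    (ρ : δ → D.UN H →* G) : Prop :=
  letI := Fintype.ofFinite H
  ∀ (u : D.Elt N ι) (u' : D.Elt H (δ ⊕ ι)), D.IsRS N w u → D.IsRS H (Sum.elim x w) u' →
  ∀ (φ : ι → D.GHm N) (φ' : ι → D.GHm H), (∀ i, D.Restr (φ i) (φ' i)) →
  ∀ ψ : δ → H → D.GHm H, (∀ j, D.Lifts N (ρ j) (ψ j)) →
  ∀ (z : MonoidAlgebra ℤ (G ⧸ N)) (y : (δ → H) → MonoidAlgebra ℤ (G ⧸ N)),
    u.val φ = toQ z →
    (∀ h : δ → H, u'.val (Sum.elim (fun j => ψ j (h j)) φ') = toQ (prj hNH (y h))) →
    z - ∑ h : δ → H, y h * ∏ j, (MonoidAlgebra.single ((h j : G) : G ⧸ N) 1 - 1) ∈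
      (IH (H.map (QuotientGroup.mk' N))) ^ (Fintype.card δ + 1)

end

end STData

end Run7.h743
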