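import Pool.Agent.Run7.h743.Hom

/-!
# The Rubin–Stark element of `K^N` from the one of `K`
-/

set_option autoImplicit false
set_option linter.unusedSectionVars false

open NumberField IsDedekindDomain Filter Topology

noncomputable section

namespace Run7.h743

open Pool.Agent.K3h30.RS

section coeffs

variable {G : Type} [CommGroup G] [Finite G]

theorem map_coeff {R : Type} [CommRing R] {N : Subgroup G} (h : (⊥ : Subgroup G) ≤ N)
    (z : MonoidAlgebra R (G ⧸ (⊥ : Subgroup G))) (g : G) :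
    letI := Fintype.ofFinite N
    (MonoidAlgebra.mapDomainRingHom R (QuotientGroup.map ⊥ N (MonoidHom.id G) h) z).coeff
      (g : G ⧸ N) = ∑ n : N, z.coeff (((n : G)⁻¹ * g : G) : G ⧸ (⊥ : Subgroup G)) := by
  classical
  let _ := Fintype.ofFinite N
  change (MonoidAlgebra.mapDomainRingHom R (QuotientGroup.map ⊥ N (MonoidHom.id G) h) z).coeff
      (g : G ⧸ N) = ∑ n : N, z.coeff (((n : G)⁻¹ * g : G) : G ⧸ (⊥ : Subgroup G))
  induction z using MonoidAlgebra.induction_linear with
  | zero => simp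
  | add a b ha hb =>
    rw [map_add, MonoidAlgebra.coeff_add, Finsupp.add_apply, ha, hb, ← Finset.sum_add_distrib]
    refine Finset.sum_congr rfl fun n _ => ?_
    rw [MonoidAlgebra.coeff_add, Finsupp.add_apply]
  | single w r =>
    obtain ⟨g0, rfl⟩ := QuotientGroup.mk_surjective w
    have h1 : MonoidAlgebra.mapDomainRingHom R (QuotientGroup.map ⊥ N (MonoidHom.id G) h)
        (MonoidAlgebra.single (g0 : G ⧸ (⊥ : Subgroup G)) r) =
        MonoidAlgebra.single (g0 : G ⧸ N) r := by simp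
    rw [h1, MonoidAlgebra.coeff_single, MonoidAlgebra.coeff_single, Finsupp.single_apply]
    simp only [Finsupp.single_apply]
    have h2 : ∀ n : N, ((g0 : G ⧸ (⊥ : Subgroup G)) = (((n : G)⁻¹ * g : G) : G ⧸ (⊥ : Subgroup G))) ↔
        (n : G) = g * g0⁻¹ := by
      intro n
      rw [QuotientGroup.eq, Subgroup.mem_bot]
      constructor
      · intro h3
        have h4 : (n : G)⁻¹ * g = g0 := (inv_mul_eq_one.1 h3).symm
        rw [← h4, mul_inv_rev, inv_inv, mul_comm g⁻¹, mul_inv_cancel_comm_assoc]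
      · intro h3
        rw [h3, mul_inv_rev, inv_inv, mul_assoc, inv_mul_cancel, mul_one, inv_mul_cancel]
    by_cases h5 : (g0 : G ⧸ N) = (g : G ⧸ N)
    · rw [if_pos h5]
      have h6 : g * g0⁻¹ ∈ N := by
        rw [mul_comm]; exact QuotientGroup.eq.1 h5
      rw [Finset.sum_eq_single (⟨g * g0⁻¹, h6⟩ : N)]
      · rw [if_pos ((h2 _).2 rfl)]
      · intro n _ hn
        rw [if_neg]
        intro h7
        exact hn (Subtype.ext ((h2 n).1 h7))
      · intro h7
        exact absurd (Finset.mem_univ _) h7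
    · rw [if_neg h5]
      symm
      refine Finset.sum_eq_zero fun n _ => ?_
      rw [if_neg]
      intro h7
      apply h5
      rw [QuotientGroup.eq, mul_comm, ← (h2 n).1 h7]
      exact n.2

end coeffs

variable {k K G : Type} [Field k] [NumberField k] [Field K] [NumberField K] [Algebra k K]
  [CommGroup G] [Finite G] [MulSemiringAction G K] [IsGaloisGroup G k K]

namespace STData

omit [NumberField k] [NumberField K] [Algebra k K] [Finite G] [IsGaloisGroup G k K] in
theorem act_prod {α : Type} (γ : G) (s : Finset α) (x : α → Kˣ) :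
    act γ (∏ a ∈ s, x a) = ∏ a ∈ s, act γ (x a) := by
  let f : Kˣ →* Kˣ := { toFun := act γ, map_one' := act_map_one γ, map_mul' := act_map_mul γ }
  exact map_prod f x s

variable (D : STData k K)

/-- the norm -/
def nm (N : Subgroup G) : D.UN (⊥ : Subgroup G) →* D.UN N :=
  letI := Fintype.ofFinite N
  { toFun := fun x => ⟨∏ n : N, act (n : G) (x : Kˣ),
      Subgroup.prod_mem _ fun n _ => (D.UN_stable ⊥ (n : G) _ x.2).1,
      fun γ hγ => by
        rw [act_prod]
        refine Fintype.prod_equiv (Equiv.mulLeft (⟨γ, hγ⟩ : N)) _ _ fun n => ?_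
        rw [act_act']
        rfl⟩
    map_one' := by
      apply Subtype.ext
      change ∏ n : N, act (n : G) (1 : Kˣ) = 1
      refine Finset.prod_eq_one fun n _ => act_map_one _
    map_mul' := fun x y => by
      apply Subtype.ext
      change ∏ n : N, act (n : G) ((x : Kˣ) * (y : Kˣ)) = (∏ n : N, act (n : G) (x : Kˣ)) *
        ∏ n : N, act (n : G) (y : Kˣ)
      rw [← Finset.prod_mul_distrib]
      refine Finset.prod_congr rfl fun n _ => act_map_mul _ _ _ }

theorem nm_val (N : Subgroup G) (x : D.UN (⊥ : Subgroup G)) :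
    letI := Fintype.ofFinite N
    ((D.nm N x : D.UN N) : Kˣ) = ∏ n : N, act (n : G) (x : Kˣ) := rfl

theorem nm_val' (N : Subgroup G) (x : D.UN (⊥ : Subgroup G)) :
    letI := Fintype.ofFinite N
    Subgroup.inclusion (D.UN_mono (bot_le : ⊥ ≤ N)) (D.nm N x) = ∏ n : N, D.actU ⊥ (n : G) x := by
  apply Subtype.ext
  rw [Subgroup.val_finsetProd]
  rfl

/-- the value of a homomorphism at a norm -/
theorem prj_val {N : Subgroup G} {φ : D.GHm (⊥ : Subgroup G)} {φ' : D.GHm N} (hφ : D.Restr φ φ')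
    (x : D.UN (⊥ : Subgroup G)) : prj (bot_le : ⊥ ≤ N) (φ.f (Additive.ofMul x)) =
      φ'.f (Additive.ofMul (D.nm N x)) := by
  classical
  let _ := Fintype.ofFinite N
  ext c
  obtain ⟨g, rfl⟩ := QuotientGroup.mk_surjective c
  have h1 : (prj (bot_le : ⊥ ≤ N) (φ.f (Additive.ofMul x))).coeff (g : G ⧸ N) =
      ∑ n : N, (φ.f (Additive.ofMul x)).coeff (((n : G)⁻¹ * g : G) : G ⧸ (⊥ : Subgroup G)) :=
    map_coeff (bot_le : ⊥ ≤ N) _ g
  have h2 := hφ (Subgroup.inclusion (D.UN_mono (bot_le : ⊥ ≤ N)) (D.nm N x)) (D.nm N x) rfl g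
  change _ = (φ'.f (Additive.ofMul (D.nm N x))).coeff (g : G ⧸ N)
  rw [← h2]
  rw [D.nm_val', ofMul_prod, map_sum, MonoidAlgebra.coeff_sum, Finset.sum_apply']
  refine h1.trans (Finset.sum_congr rfl fun n _ => ?_)
  rw [φ.equiv (n : G) x (D.actU ⊥ (n : G) x) rfl, MonoidAlgebra.coeff_single_mul_apply, one_mul]
  rfl

theorem lg_prod (w : Place K) {α : Type} (s : Finset α) (x : α → Kˣ) :
    lg G w (∏ a ∈ s, x a) = ∑ a ∈ s, lg G w (x a) := by
  classical
  have h1 : ∀ x y : Kˣ, lg G w (x * y) = lg G w x + lg G w y := by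
    intro x y
    unfold lg
    have hx : av w (x : K) ≠ 0 := (Pool.Agent.K3h40.RS.av_pos w x).ne'
    have hy : av w (y : K) ≠ 0 := (Pool.Agent.K3h40.RS.av_pos w y).ne'
    have h2 : av w ((x * y : Kˣ) : K) = av w (x : K) * av w (y : K) := by
      rw [Units.val_mul]
      cases w with
      | inl w => simp only [av, map_mul, mul_pow]
      | inr w => simp only [av, map_mul]
    rw [h2, Real.log_mul hx hy]
    ring
  induction s using Finset.induction_on with
  | empty =>
    have h2 := h1 1 1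
    rw [mul_one] at h2
    rw [Finset.prod_empty, Finset.sum_empty]
    linarith
  | insert a s ha ih => rw [Finset.prod_insert ha, Finset.sum_insert ha, h1, ih]

/-- the regulator of a norm -/
theorem prj_rg (N : Subgroup G) (w : Place K) (x : D.UN (⊥ : Subgroup G)) :
    prjR (bot_le : ⊥ ≤ N) (rg ⊥ w (x : Kˣ)) = rg N w (D.nm N x : Kˣ) := by
  classical
  let _ := Fintype.ofFinite N
  ext c
  obtain ⟨g, rfl⟩ := QuotientGroup.mk_surjective c
  have h1 : (prjR (bot_le : ⊥ ≤ N) (rg ⊥ w (x : Kˣ))).coeff (g : G ⧸ N) =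
      ∑ n : N, (rg ⊥ w (x : Kˣ)).coeff (((n : G)⁻¹ * g : G) : G ⧸ (⊥ : Subgroup G)) :=
    map_coeff (bot_le : ⊥ ≤ N) _ g
  change _ = (rg N w (D.nm N x : Kˣ)).coeff (g : G ⧸ N)
  rw [D.rg_coeff w (D.nm N x).2, D.nm_val, act_prod, lg_prod]
  refine h1.trans (Finset.sum_congr rfl fun n _ => ?_)
  rw [D.rg_coeff w x.2, act_act']
  congr 2
  rw [mul_inv_rev, inv_inv]

variable {ι : Type} [Fintype ι] [DecidableEq ι]

/-- the descent of elements -/
def down (N : Subgroup G) (u : D.Elt (⊥ : Subgroup G) ι) : D.Elt N ι where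
  n := u.n
  c j := prjQ (bot_le : ⊥ ≤ N) (u.c j)
  x j i := D.nm N (u.x j i)

theorem down_val (N : Subgroup G) (u : D.Elt (⊥ : Subgroup G) ι) (φ : ι → D.GHm (⊥ : Subgroup G))
    (φ' : ι → D.GHm N) (hφ : ∀ i, D.Restr (φ i) (φ' i)) :
    (D.down N u).val φ' = prjQ (bot_le : ⊥ ≤ N) (u.val φ) := by
  unfold Elt.val
  rw [map_sum]
  refine Finset.sum_congr rfl fun j _ => ?_
  rw [map_mul, ← toQ_prj, RingHom.map_det (prj (bot_le : ⊥ ≤ N))]
  change prjQ (bot_le : ⊥ ≤ N) (u.c j) * _ = _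
  congr 3
  refine Matrix.ext fun a b => ?_
  exact (D.prj_val (hφ a) (u.x j b)).symm

theorem down_reg (N : Subgroup G) (u : D.Elt (⊥ : Subgroup G) ι) (w : ι → Place K) :
    (D.down N u).reg w = prjR (bot_le : ⊥ ≤ N) (u.reg w) := by
  unfold Elt.reg
  rw [map_sum]
  refine Finset.sum_congr rfl fun j _ => ?_
  rw [map_mul, ← toR_prjQ, RingHom.map_det]
  change toR (prjQ (bot_le : ⊥ ≤ N) (u.c j)) * _ = _
  congr 2
  refine Matrix.ext fun a b => ?_
  exact (D.prj_rg N (w a) (u.x j b)).symm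

/-- **The Rubin–Stark element of `K^N`.** -/
theorem down_isRS (N : Subgroup G) (u : D.Elt (⊥ : Subgroup G) ι) (w : ι → Place K)
    (hu : D.IsRS ⊥ w u) : D.IsRS N w (D.down N u) where
  integral φ' := by
    choose φ hφ using fun i => D.exists_ext (bot_le : ⊥ ≤ N) (φ' i)
    obtain ⟨z, hz⟩ := hu.integral φ
    refine ⟨prj (bot_le : ⊥ ≤ N) z, ?_⟩
    rw [D.down_val N u φ φ' hφ, hz, toQ_prj]
  support χ hχ φ' := by
    choose φ hφ using fun i => D.exists_ext (bot_le : ⊥ ≤ N) (φ' i)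
    rw [D.down_val N u φ φ' hφ, ← cvQ_apply, cvQ_prjQ, cvQ_apply]
    refine hu.support _ ?_ φ
    rw [infl_comp]
    exact hχ
  leading χ := by
    have h1 := hu.leading (infl (bot_le : ⊥ ≤ N) χ)
    rw [infl_inv_comp, ← cvR_apply, ← cvR_prjR, ← D.down_reg, cvR_apply] at h1
    exact h1

end STData

end Run7.h743
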