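import Pool.Agent.Run7.h743.Elem2

/-!
# Powers of the augmentation ideal of a finite abelian group of squarefree exponent
-/

set_option autoImplicit false
set_option linter.unusedSectionVars false

noncomputable section

namespace Run7.h743

open Polynomial

/-- The ring `ℤ[ζ]` has the properties used in `detect`. -/
theorem exists_ring (p : ℕ) [hp : Fact p.Prime] : ∃ (O : Type) (_ : CommRing O) (_ : IsDomain O)
    (ζ : O), IsPrimitiveRoot ζ p ∧ (∀ o : O, ∃ f : ℤ[X], aeval ζ f = o) ∧
      (∀ n : ZMod p → ℤ, ∑ c, (n c : O) * zp ζ c = 0 → ∀ c c', n c = n c') := by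
  classical
  have hprim := Complex.isPrimitiveRoot_exp p hp.out.ne_zero
  set z : ℂ := Complex.exp (2 * Real.pi * Complex.I / p) with hz
  let A : Subalgebra ℤ ℂ := Algebra.adjoin ℤ {z}
  let ζ : A := ⟨z, Algebra.subset_adjoin rfl⟩
  have hζ : IsPrimitiveRoot ζ p := by
    refine IsPrimitiveRoot.of_map_of_injective (f := A.val) ?_ Subtype.val_injective
    exact hprim
  refine ⟨A, inferInstance, inferInstance, ζ, hζ, ?_, ?_⟩
  · intro o
    have h1 := o.2
    change (o : ℂ) ∈ Algebra.adjoin ℤ {z} at h1
    rw [Algebra.adjoin_singleton_eq_range_aeval] at h1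
    obtain ⟨f, hf⟩ := h1
    refine ⟨f, ?_⟩
    apply Subtype.ext
    rw [← hf]
    change A.val (aeval ζ f) = _
    rw [← aeval_algHom_apply]
    rfl
  · intro n hn
    -- the polynomial
    have hn' : ∑ c : ZMod p, (n c : ℂ) * z ^ c.val = 0 := by
      have := congrArg A.val hn
      rw [map_sum, map_zero] at this
      rw [← this]
      refine Finset.sum_congr rfl fun c _ => ?_
      rw [map_mul, map_intCast]
      rfl
    let c₀ : ZMod p := ((p - 1 : ℕ) : ZMod p)
    have hc₀ : c₀.val = p - 1 := by
      rw [ZMod.val_natCast, Nat.mod_eq_of_lt]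
      have := hp.out.pos
      omega
    let F : ℤ[X] := ∑ c : ZMod p, C (n c - n c₀) * X ^ c.val
    have hF : aeval z F = 0 := by
      have h1 : aeval z F = ∑ c : ZMod p, (n c : ℂ) * z ^ c.val -
          (n c₀ : ℂ) * ∑ c : ZMod p, z ^ c.val := by
        simp only [F]
        rw [map_sum, Finset.mul_sum, ← Finset.sum_sub_distrib]
        refine Finset.sum_congr rfl fun c _ => ?_
        rw [map_mul, aeval_C, map_pow, aeval_X, eq_intCast, Int.cast_sub]
        ring
      have h2 : ∑ c : ZMod p, z ^ c.val = 0 := by
        have h3 : ∑ c : ZMod p, z ^ c.val = ∑ i ∈ Finset.range p, z ^ i := by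
          obtain ⟨q, rfl⟩ : ∃ q, p = q + 1 := ⟨p - 1, by have := hp.out.pos; omega⟩
          rw [← Fin.sum_univ_eq_sum_range (fun i => z ^ i) (q + 1)]
          rfl
        rw [h3]
        exact hprim.geom_sum_eq_zero hp.out.one_lt
      rw [h1, hn', h2, mul_zero, sub_zero]
    have hdeg : F.natDegree < p - 1 ∨ F = 0 := by
      by_cases hp1 : F = 0
      · exact Or.inr hp1
      left
      rw [natDegree_lt_iff_degree_lt hp1]
      refine lt_of_le_of_lt (degree_sum_le _ _) ?_
      rw [Finset.sup_lt_iff (WithBot.bot_lt_coe _)]
      intro c _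
      by_cases hc : c = c₀
      · rw [hc, sub_self, C_0, zero_mul, degree_zero]
        exact WithBot.bot_lt_coe _
      · refine lt_of_le_of_lt (degree_C_mul_X_pow_le _ _) ?_
        have h1 : c.val < p := ZMod.val_lt c
        have h2 : c.val ≠ p - 1 := by
          intro h
          apply hc
          apply ZMod.val_injective p
          rw [h, hc₀]
        exact_mod_cast (by omega : c.val < p - 1)
    have hF0 : F = 0 := by
      rcases hdeg with h | h
      · by_contra hne
        have h1 : minpoly ℤ z ∣ F := minpoly.isIntegrallyClosed_dvd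
          (hprim.isIntegral hp.out.pos) hF
        rw [← cyclotomic_eq_minpoly hprim hp.out.pos] at h1
        have h2 := natDegree_le_of_dvd h1 hne
        rw [natDegree_cyclotomic, Nat.totient_prime hp.out] at h2
        omega
      · exact h
    have hcoef : ∀ c : ZMod p, n c = n c₀ := by
      intro c
      have h1 := congrArg (fun P => P.coeff c.val) hF0
      simp only [F, finsetSum_coeff, coeff_C_mul, coeff_X_pow, coeff_zero] at h1
      rw [Finset.sum_eq_single c] at h1
      · simp only [if_pos, mul_one] at h1
        linarith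
      · intro d _ hd
        rw [if_neg, mul_zero]
        intro h
        exact hd (ZMod.val_injective p h).symm
      · intro h
        exact absurd (Finset.mem_univ _) h
    intro c c'
    rw [hcoef c, hcoef c']

end Run7.h743
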