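import Pool.Agent.Run7.h743.Detect
import Pool.Agent.Run7.h743.Defs

/-!
# Powers of the augmentation ideal: finite abelian groups of squarefree exponent
-/

set_option autoImplicit false
set_option linter.unusedSectionVars false

noncomputable section

namespace Run7.h743

open Polynomial

theorem sub_one_mem {Γ : Type} [CommGroup Γ] {H : Subgroup Γ} {h : Γ} (hh : h ∈ H) :
    MonoidAlgebra.single h 1 - 1 ∈ IH H := Ideal.subset_span ⟨h, hh, rfl⟩

section map

variable {Γ Δ : Type} [CommGroup Γ] [CommGroup Δ]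

/-- The homomorphism of group rings defined by a homomorphism of groups. -/
abbrev mp (f : Γ →* Δ) : MonoidAlgebra ℤ Γ →+* MonoidAlgebra ℤ Δ := MonoidAlgebra.mapDomainRingHom ℤ f

theorem mp_single (f : Γ →* Δ) (g : Γ) (c : ℤ) :
    mp f (MonoidAlgebra.single g c) = MonoidAlgebra.single (f g) c := by
  simp [mp]

theorem mp_mem {H : Subgroup Γ} {K : Subgroup Δ} (f : Γ →* Δ) (hf : ∀ h ∈ H, f h ∈ K) (n : ℕ)
    (x : MonoidAlgebra ℤ Γ) (hx : x ∈ (IH H) ^ n) : mp f x ∈ (IH K) ^ n := by
  have h1 : (IH H).map (mp f) ≤ IH K := by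
    unfold IH
    rw [Ideal.map_span, Ideal.span_le]
    rintro _ ⟨y, ⟨h, hh, rfl⟩, rfl⟩
    rw [map_sub, mp_single, map_one]
    exact sub_one_mem (hf h hh)
  have h2 := Ideal.mem_map_of_mem (mp f) hx
  rw [Ideal.map_pow] at h2
  exact Ideal.pow_right_mono h1 n h2

theorem mp_comp {E : Type} [CommGroup E] (f : Γ →* Δ) (g : Δ →* E) (x : MonoidAlgebra ℤ Γ) :
    mp g (mp f x) = mp (g.comp f) x := by
  induction x using MonoidAlgebra.induction_linear with
  | zero => simp
  | add a b ha hb => rw [map_add, map_add, map_add, ha, hb]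
  | single w r => rw [mp_single, mp_single, mp_single]; rfl

/-- The degree. -/
def aug : MonoidAlgebra ℤ Γ →+* ℤ := (MonoidAlgebra.lift ℤ ℤ Γ (1 : Γ →* ℤ) : _ →ₐ[ℤ] ℤ)

theorem aug_single (g : Γ) (c : ℤ) : aug (MonoidAlgebra.single g c) = c := by
  unfold aug
  rw [RingHom.coe_coe, MonoidAlgebra.lift_single]
  simp

theorem aug_mp (f : Γ →* Δ) (x : MonoidAlgebra ℤ Γ) : aug (mp f x) = aug x := by
  induction x using MonoidAlgebra.induction_linear with
  | zero => simp
  | add a b ha hb => rw [map_add, map_add, map_add, ha, hb]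
  | single w r => rw [mp_single, aug_single, aug_single]

theorem sub_aug_mem (x : MonoidAlgebra ℤ Γ) : x - (aug x : MonoidAlgebra ℤ Γ) ∈ IH (⊤ : Subgroup Γ) := by
  induction x using MonoidAlgebra.induction_linear with
  | zero => simp
  | add a b ha hb =>
    rw [map_add, Int.cast_add]
    have : a + b - ((aug a : MonoidAlgebra ℤ Γ) + (aug b : MonoidAlgebra ℤ Γ)) =
      (a - (aug a : MonoidAlgebra ℤ Γ)) + (b - (aug b : MonoidAlgebra ℤ Γ)) := by ring
    rw [this]
    exact Ideal.add_mem _ ha hb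
  | single w r =>
    rw [aug_single]
    have h1 : MonoidAlgebra.single w r - (r : MonoidAlgebra ℤ Γ) =
        (r : MonoidAlgebra ℤ Γ) * (MonoidAlgebra.single w 1 - 1) := by
      have h2 : (r : MonoidAlgebra ℤ Γ) = MonoidAlgebra.single 1 r := rfl
      rw [mul_sub, mul_one, h2, MonoidAlgebra.single_mul_single, one_mul, mul_one]
    rw [h1]
    exact Ideal.mul_mem_left _ _ (sub_one_mem (Subgroup.mem_top w))

theorem mem_of_aug {x : MonoidAlgebra ℤ Γ} (h : aug x = 0) : x ∈ IH (⊤ : Subgroup Γ) := by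
  have := sub_aug_mem x
  rwa [h, Int.cast_zero, sub_zero] at this

theorem aug_of_mem {H : Subgroup Γ} {x : MonoidAlgebra ℤ Γ} (h : x ∈ IH H) : aug x = 0 := by
  have h1 : IH H ≤ RingHom.ker (aug (Γ := Γ)) := by
    unfold IH
    rw [Ideal.span_le]
    rintro _ ⟨g, _, rfl⟩
    rw [SetLike.mem_coe, RingHom.mem_ker, map_sub, aug_single, map_one, sub_self]
  exact RingHom.mem_ker.1 (h1 h)

end map

/-- The cyclic group of order `p`. -/
abbrev CC (p : ℕ) : Type := Multiplicative (ZMod p)

/-- **Detection for elementary abelian groups.** -/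
theorem detect_elem (p : ℕ) [hp : Fact p.Prime] {m : ℕ} (n : ℕ) (x : MonoidAlgebra ℤ (WW p m))
    (h0 : aug x = 0)
    (h : ∀ χ : WW p m →* CC p, mp χ x ∈ (IH (⊤ : Subgroup (CC p))) ^ n) :
    x ∈ (IH (⊤ : Subgroup (WW p m))) ^ n := by
  obtain ⟨O, _, _, ζ, hζ, hO, hker⟩ := exists_ring p
  have hI : IW p m = IH (⊤ : Subgroup (WW p m)) := by
    unfold IW IH
    congr 1
    ext y
    constructor
    · rintro ⟨w, rfl⟩
      exact ⟨w, Subgroup.mem_top _, rfl⟩
    · rintro ⟨w, _, rfl⟩
      exact ⟨w, rfl⟩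
  rw [← hI]
  -- the character `C_p → O`
  let ev : MonoidAlgebra ℤ (CC p) →+* O :=
    (MonoidAlgebra.lift ℤ O (CC p)
      { toFun := fun c => zp ζ (Multiplicative.toAdd c)
        map_one' := zp_zero ζ
        map_mul' := fun a b => zp_add hζ.pow_eq_one _ _ } : MonoidAlgebra ℤ (CC p) →ₐ[ℤ] O)
  have hev : ∀ (c : CC p) (r : ℤ), ev (MonoidAlgebra.single c r) =
      (r : O) * zp ζ (Multiplicative.toAdd c) := by
    intro c r
    simp only [ev]
    rw [RingHom.coe_coe, MonoidAlgebra.lift_single, zsmul_eq_mul]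
    rfl
  have hdvd : ∀ y ∈ (IH (⊤ : Subgroup (CC p))) ^ n, (ζ - 1) ^ n ∣ ev y := by
    intro y hy
    have h1 : (IH (⊤ : Subgroup (CC p))).map ev ≤ Ideal.span {ζ - 1} := by
      unfold IH
      rw [Ideal.map_span, Ideal.span_le]
      rintro _ ⟨_, ⟨c, _, rfl⟩, rfl⟩
      rw [map_sub, map_one, hev, Int.cast_one, one_mul, SetLike.mem_coe,
        Ideal.mem_span_singleton]
      exact sub_one_dvd_pow_sub_one ζ _
    have h2 := Ideal.mem_map_of_mem ev hy
    rw [Ideal.map_pow] at h2
    have h3 := Ideal.pow_right_mono h1 n h2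
    rwa [Ideal.span_singleton_pow, Ideal.mem_span_singleton] at h3
  -- the character with exponents `a`
  let χ : (Fin m → ZMod p) → (WW p m →* CC p) := fun a =>
    { toFun := fun w => Multiplicative.ofAdd (∑ i, a i * Multiplicative.toAdd w i)
      map_one' := by simp
      map_mul' := fun x y => by
        rw [← ofAdd_add, ← Finset.sum_add_distrib]
        congr 1
        refine Finset.sum_congr rfl fun i _ => ?_
        rw [toAdd_mul, Pi.add_apply, mul_add] }
  have hχ : ∀ (a : Fin m → ZMod p) (y : MonoidAlgebra ℤ (WW p m)),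
      psz hζ.pow_eq_one a y = ev (mp (χ a) y) := by
    intro a y
    induction y using MonoidAlgebra.induction_linear with
    | zero => simp
    | add a b ha hb => rw [map_add, map_add, map_add, ha, hb]
    | single w r => rw [mp_single, hev, psz_single]; rfl
  refine detect hζ hO hker n x ?_ ?_
  · have h1 : ∀ y : MonoidAlgebra ℤ (WW p m), psz hζ.pow_eq_one 0 y = ((aug y : ℤ) : O) := by
      intro y
      induction y using MonoidAlgebra.induction_linear with
      | zero => simp
      | add a b ha hb => rw [map_add, map_add, Int.cast_add, ha, hb]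
      | single w r =>
        rw [psz_single, aug_single, chr_apply]
        simp [zp]
    rw [h1, h0, Int.cast_zero]
  · intro a
    rw [hχ]
    exact hdvd _ (h (χ a))

/-- Chinese remainders for the exponents. -/
theorem exists_exponents (P : Finset ℕ) (hP : ∀ p ∈ P, p.Prime) : ∃ f : ℕ → ℕ,
    (∀ q ∈ P, (∑ p ∈ P, f p) ≡ 1 [MOD q]) ∧ ∀ p ∈ P, ∀ q ∈ P, p * f p ≡ 0 [MOD q] := by
  classical
  have hco : (P : Set ℕ).Pairwise (Function.onFun Nat.Coprime id) := by
    intro a ha b hb hab
    exact (Nat.coprime_primes (hP a ha) (hP b hb)).2 hab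
  have h1 : ∀ p : ℕ, ∃ k : ℕ, ∀ q ∈ P, k ≡ (if q = p then 1 else 0) [MOD q] := by
    intro p
    obtain ⟨k, hk⟩ := Nat.chineseRemainderOfFinset (fun q => if q = p then 1 else 0) id P
      (fun q hq => (hP q hq).ne_zero) hco
    exact ⟨k, hk⟩
  choose f hf using h1
  refine ⟨f, ?_, ?_⟩
  · intro q hq
    have h2 : (∑ p ∈ P, f p) ≡ (∑ p ∈ P, if q = p then 1 else 0) [MOD q] := by
      have : ∀ s : Finset ℕ, (∑ p ∈ s, f p) ≡ (∑ p ∈ s, if q = p then 1 else 0) [MOD q] := by
        intro s
        induction s using Finset.induction_on with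
        | empty => rfl
        | insert a s ha ih =>
          rw [Finset.sum_insert ha, Finset.sum_insert ha]
          exact (hf a q hq).add ih
      exact this P
    rw [Finset.sum_ite_eq, if_pos hq] at h2
    exact h2
  · intro p hp q hq
    by_cases h : q = p
    · subst h
      exact (Nat.modEq_zero_iff_dvd.2 (dvd_mul_right _ _))
    · have h2 := (hf p q hq).mul_left p
      rwa [if_neg h, mul_zero] at h2

end Run7.h743
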