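import Pool.Agent.Run7.h743.Detect2

/-!
# Powers of the augmentation ideal: finite abelian groups of squarefree exponent
-/

set_option autoImplicit false
set_option linter.unusedSectionVars false

noncomputable section

namespace Run7.h743

open Polynomial

section

variable {H : Type} [CommGroup H]

/-- `y ^ m - 1` is `m (y - 1)` modulo the square of the augmentation ideal. -/
theorem pow_sub (y : H) (m : ℕ) : (MonoidAlgebra.single (y ^ m) (1 : ℤ) - 1) -
    (m : MonoidAlgebra ℤ H) * (MonoidAlgebra.single y 1 - 1) ∈ (IH (⊤ : Subgroup H)) ^ 2 := by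
  induction m with
  | zero =>
    rw [pow_zero, Nat.cast_zero, zero_mul, sub_zero]
    have : MonoidAlgebra.single (1 : H) (1 : ℤ) - 1 = 0 := sub_self _
    rw [this]
    exact Ideal.zero_mem _
  | succ m ih =>
    have h1 : (MonoidAlgebra.single (y ^ (m + 1)) (1 : ℤ) - 1) -
        ((m + 1 : ℕ) : MonoidAlgebra ℤ H) * (MonoidAlgebra.single y 1 - 1) =
        ((MonoidAlgebra.single (y ^ m) (1 : ℤ) - 1) -
          (m : MonoidAlgebra ℤ H) * (MonoidAlgebra.single y 1 - 1)) +
        (MonoidAlgebra.single (y ^ m) (1 : ℤ) - 1) * (MonoidAlgebra.single y 1 - 1) := by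
      have h2 : MonoidAlgebra.single (y ^ (m + 1)) (1 : ℤ) =
          MonoidAlgebra.single (y ^ m) 1 * MonoidAlgebra.single y 1 := by
        rw [MonoidAlgebra.single_mul_single, pow_succ, one_mul]
      rw [h2]
      push_cast
      ring
    rw [h1]
    refine Ideal.add_mem _ ih ?_
    rw [pow_two]
    exact Ideal.mul_mem_mul (sub_one_mem (Subgroup.mem_top _)) (sub_one_mem (Subgroup.mem_top _))

/-- a product minus one is the sum of the factors minus one, modulo the square -/
theorem prod_sub (P : Finset ℕ) (y : ℕ → H) : (MonoidAlgebra.single (∏ p ∈ P, y p) (1 : ℤ) - 1) -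
    ∑ p ∈ P, (MonoidAlgebra.single (y p) 1 - 1) ∈ (IH (⊤ : Subgroup H)) ^ 2 := by
  classical
  induction P using Finset.induction_on with
  | empty =>
    rw [Finset.prod_empty, Finset.sum_empty, sub_zero]
    have : MonoidAlgebra.single (1 : H) (1 : ℤ) - 1 = 0 := sub_self _
    rw [this]
    exact Ideal.zero_mem _
  | insert a P ha ih =>
    rw [Finset.prod_insert ha, Finset.sum_insert ha]
    have h1 : MonoidAlgebra.single (y a * ∏ p ∈ P, y p) (1 : ℤ) - 1 -
        (MonoidAlgebra.single (y a) 1 - 1 + ∑ p ∈ P, (MonoidAlgebra.single (y p) 1 - 1)) =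
        (MonoidAlgebra.single (∏ p ∈ P, y p) (1 : ℤ) - 1 -
          ∑ p ∈ P, (MonoidAlgebra.single (y p) 1 - 1)) +
        (MonoidAlgebra.single (y a) 1 - 1) * (MonoidAlgebra.single (∏ p ∈ P, y p) (1 : ℤ) - 1) := by
      have h2 : MonoidAlgebra.single (y a * ∏ p ∈ P, y p) (1 : ℤ) =
          MonoidAlgebra.single (y a) 1 * MonoidAlgebra.single (∏ p ∈ P, y p) 1 := by
        rw [MonoidAlgebra.single_mul_single, one_mul]
      rw [h2]
      ring
    rw [h1]
    refine Ideal.add_mem _ ih ?_
    rw [pow_two]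
    exact Ideal.mul_mem_mul (sub_one_mem (Subgroup.mem_top _)) (sub_one_mem (Subgroup.mem_top _))

/-- The homomorphism `h ↦ h ^ e` on the group ring. -/
abbrev sp (e : ℕ) : MonoidAlgebra ℤ H →+* MonoidAlgebra ℤ H := mp (powMonoidHom e)

theorem sp_mem (e n : ℕ) (x : MonoidAlgebra ℤ H) (hx : x ∈ (IH (⊤ : Subgroup H)) ^ n) :
    sp e x ∈ (IH (⊤ : Subgroup H)) ^ n :=
  mp_mem _ (fun _ _ => Subgroup.mem_top _) n x hx

/-- (B) `p s_p(u) ∈ I ^ (j + 1)` for `u ∈ I ^ j`, `j ≥ 1`. -/
theorem smul_sp (p e : ℕ) (hpe : ∀ h : H, (h ^ e) ^ p = 1) (j : ℕ) (u : MonoidAlgebra ℤ H)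
    (hu : u ∈ (IH (⊤ : Subgroup H)) ^ (j + 1)) :
    (p : MonoidAlgebra ℤ H) * sp e u ∈ (IH (⊤ : Subgroup H)) ^ (j + 2) := by
  have base : ∀ b ∈ IH (⊤ : Subgroup H), (p : MonoidAlgebra ℤ H) * sp e b ∈
      (IH (⊤ : Subgroup H)) ^ 2 := by
    intro b hb
    refine Submodule.span_induction ?_ ?_ ?_ ?_ hb
    · rintro _ ⟨h, _, rfl⟩
      rw [map_sub, map_one, mp_single, powMonoidHom_apply]
      have h1 := pow_sub (h ^ e) p
      rw [hpe] at h1
      have : MonoidAlgebra.single (1 : H) (1 : ℤ) - 1 = 0 := sub_self _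
      rw [this, zero_sub] at h1
      exact neg_mem_iff.1 h1
    · rw [map_zero, mul_zero]; exact Ideal.zero_mem _
    · intro a b _ _ ha hb
      rw [map_add, mul_add]
      exact Ideal.add_mem _ ha hb
    · intro c b _ hb
      rw [smul_eq_mul, map_mul]
      have : (p : MonoidAlgebra ℤ H) * (sp e c * sp e b) = sp e c * ((p : MonoidAlgebra ℤ H) * sp e b) := by
        ring
      rw [this]
      exact Ideal.mul_mem_left _ _ hb
  rw [pow_succ] at hu
  refine Submodule.mul_induction_on hu ?_ ?_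
  · intro a ha b hb
    have : (p : MonoidAlgebra ℤ H) * sp e (a * b) = sp e a * ((p : MonoidAlgebra ℤ H) * sp e b) := by
      rw [map_mul]; ring
    rw [this, pow_add]
    exact Ideal.mul_mem_mul (sp_mem e j a ha) (base b hb)
  · intro a b ha hb
    rw [map_add, mul_add]
    exact Ideal.add_mem _ ha hb

/-- (C), (D) `u` is congruent to the sum of its primary components. -/
theorem sub_sum_sp (P : Finset ℕ) (hP : ∀ p ∈ P, p.Prime) (f : ℕ → ℕ)
    (h1 : ∀ h : H, ∏ p ∈ P, h ^ f p = h) (h2 : ∀ p ∈ P, ∀ h : H, (h ^ f p) ^ p = 1)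
    (j : ℕ) (u : MonoidAlgebra ℤ H) (hu : u ∈ (IH (⊤ : Subgroup H)) ^ (j + 1)) :
    u - ∑ p ∈ P, sp (f p) u ∈ (IH (⊤ : Subgroup H)) ^ (j + 2) := by
  classical
  have hcong : ∀ (e : ℕ) (c : MonoidAlgebra ℤ H), c - sp e c ∈ IH (⊤ : Subgroup H) := by
    intro e c
    apply mem_of_aug
    rw [map_sub, aug_mp, sub_self]
  have base : ∀ b ∈ IH (⊤ : Subgroup H), b - ∑ p ∈ P, sp (f p) b ∈ (IH (⊤ : Subgroup H)) ^ 2 := by
    intro b hb
    refine Submodule.span_induction ?_ ?_ ?_ ?_ hb
    · rintro _ ⟨h, _, rfl⟩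
      have h3 := prod_sub P (fun p => h ^ f p)
      rw [h1] at h3
      have h4 : ∑ p ∈ P, sp (f p) (MonoidAlgebra.single h (1 : ℤ) - 1) =
          ∑ p ∈ P, (MonoidAlgebra.single (h ^ f p) (1 : ℤ) - 1) := by
        refine Finset.sum_congr rfl fun p _ => ?_
        rw [map_sub, map_one, mp_single, powMonoidHom_apply]
      rw [h4]
      exact h3
    · simp
    · intro a b _ _ ha hb
      have : a + b - ∑ p ∈ P, sp (f p) (a + b) = (a - ∑ p ∈ P, sp (f p) a) +
          (b - ∑ p ∈ P, sp (f p) b) := by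
        simp only [map_add, Finset.sum_add_distrib]
        ring
      rw [this]
      exact Ideal.add_mem _ ha hb
    · intro c b hb0 hb
      have hb1 : b ∈ IH (⊤ : Subgroup H) := hb0
      have : c • b - ∑ p ∈ P, sp (f p) (c • b) = c * (b - ∑ p ∈ P, sp (f p) b) +
          ∑ p ∈ P, (c - sp (f p) c) * sp (f p) b := by
        simp only [smul_eq_mul, map_mul, mul_sub, sub_mul, Finset.sum_sub_distrib, Finset.mul_sum]
        ring
      rw [this]
      refine Ideal.add_mem _ (Ideal.mul_mem_left _ _ hb) (Ideal.sum_mem _ fun p _ => ?_)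
      rw [pow_two]
      refine Ideal.mul_mem_mul (hcong _ _) ?_
      have := sp_mem (f p) 1 b (by rwa [pow_one])
      rwa [pow_one] at this
  induction j generalizing u with
  | zero =>
    rw [zero_add, pow_one] at hu
    exact base u hu
  | succ j ih =>
    rw [pow_succ] at hu
    refine Submodule.mul_induction_on hu ?_ ?_
    · intro a ha b hb
      -- `a` in `I ^ (j+1)`, `b ∈ I`
      have e1 := ih a ha
      have e2 := base b hb
      have hb1 : b ∈ (IH (⊤ : Subgroup H)) ^ (0 + 1) := by rwa [zero_add, pow_one]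
      have cross : ∀ p ∈ P, ∀ q ∈ P, p ≠ q → sp (f p) a * sp (f q) b ∈
          (IH (⊤ : Subgroup H)) ^ (j + 3) := by
        intro p hp q hq hpq
        have c1 : (p : MonoidAlgebra ℤ H) * (sp (f p) a * sp (f q) b) ∈
            (IH (⊤ : Subgroup H)) ^ (j + 3) := by
          have := Ideal.mul_mem_mul (smul_sp p (f p) (h2 p hp) j a ha)
            (sp_mem (f q) 1 b (by rwa [pow_one]))
          rw [← pow_add, mul_assoc] at this
          exact this
        have c2 : (q : MonoidAlgebra ℤ H) * (sp (f p) a * sp (f q) b) ∈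
            (IH (⊤ : Subgroup H)) ^ (j + 3) := by
          have := Ideal.mul_mem_mul (sp_mem (f p) (j + 1) a ha)
            (smul_sp q (f q) (h2 q hq) 0 b hb1)
          rw [← pow_add] at this
          have e : (q : MonoidAlgebra ℤ H) * (sp (f p) a * sp (f q) b) =
            sp (f p) a * ((q : MonoidAlgebra ℤ H) * sp (f q) b) := by ring
          rw [e]
          exact this
        have hco : IsCoprime (p : ℤ) (q : ℤ) :=
          Nat.isCoprime_iff_coprime.2 ((Nat.coprime_primes (hP p hp) (hP q hq)).2 hpq)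
        obtain ⟨r, s, hrs⟩ := hco
        have hrs' : ((r : ℤ) : MonoidAlgebra ℤ H) * (p : MonoidAlgebra ℤ H) +
            ((s : ℤ) : MonoidAlgebra ℤ H) * (q : MonoidAlgebra ℤ H) = 1 := by
          have := congrArg (Int.cast : ℤ → MonoidAlgebra ℤ H) hrs
          push_cast at this
          exact this
        have e : sp (f p) a * sp (f q) b =
            ((r : ℤ) : MonoidAlgebra ℤ H) * ((p : MonoidAlgebra ℤ H) * (sp (f p) a * sp (f q) b)) +
            ((s : ℤ) : MonoidAlgebra ℤ H) * ((q : MonoidAlgebra ℤ H) * (sp (f p) a * sp (f q) b)) := by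
          linear_combination (-(sp (f p) a * sp (f q) b)) * hrs'
        rw [e]
        exact Ideal.add_mem _ (Ideal.mul_mem_left _ _ c1) (Ideal.mul_mem_left _ _ c2)
      -- the product of the sums
      have e3 : a * b - (∑ p ∈ P, sp (f p) a) * (∑ q ∈ P, sp (f q) b) ∈
          (IH (⊤ : Subgroup H)) ^ (j + 3) := by
        have : a * b - (∑ p ∈ P, sp (f p) a) * (∑ q ∈ P, sp (f q) b) =
            (a - ∑ p ∈ P, sp (f p) a) * b + (∑ p ∈ P, sp (f p) a) * (b - ∑ q ∈ P, sp (f q) b) := by
          ring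
        rw [this]
        refine Ideal.add_mem _ ?_ ?_
        · have := Ideal.mul_mem_mul e1 hb
          rw [← pow_succ] at this
          exact this
        · have h3 : (∑ p ∈ P, sp (f p) a) ∈ (IH (⊤ : Subgroup H)) ^ (j + 1) :=
            Ideal.sum_mem _ fun p _ => sp_mem _ _ _ ha
          have := Ideal.mul_mem_mul h3 e2
          rw [← pow_add] at this
          exact this
      have e4 : (∑ p ∈ P, sp (f p) a) * (∑ q ∈ P, sp (f q) b) - ∑ p ∈ P, sp (f p) (a * b) ∈
          (IH (⊤ : Subgroup H)) ^ (j + 3) := by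
        rw [Finset.sum_mul, ← Finset.sum_sub_distrib]
        refine Ideal.sum_mem _ fun p hp => ?_
        rw [map_mul, ← mul_sub, ← Finset.sum_erase_eq_sub hp, Finset.mul_sum]
        refine Ideal.sum_mem _ fun q hq => ?_
        exact cross p hp q (Finset.mem_of_mem_erase hq) (Finset.ne_of_mem_erase hq).symm
      have := Ideal.add_mem _ e3 e4
      have e : a * b - (∑ p ∈ P, sp (f p) a) * (∑ q ∈ P, sp (f q) b) +
          ((∑ p ∈ P, sp (f p) a) * (∑ q ∈ P, sp (f q) b) - ∑ p ∈ P, sp (f p) (a * b)) =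
          a * b - ∑ p ∈ P, sp (f p) (a * b) := by ring
      rw [e] at this
      exact this
    · intro a b ha hb
      have : a + b - ∑ p ∈ P, sp (f p) (a + b) = (a - ∑ p ∈ P, sp (f p) a) +
          (b - ∑ p ∈ P, sp (f p) b) := by
        simp only [map_add, Finset.sum_add_distrib]
        ring
      rw [this]
      exact Ideal.add_mem _ ha hb

end

end Run7.h743
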