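import Pool.Agent.Run7.h743.Detect3

/-!
# Powers of the augmentation ideal: finite abelian groups of squarefree exponent
-/

set_option autoImplicit false
set_option linter.unusedSectionVars false

noncomputable section

namespace Run7.h743

open Polynomial

/-- A finite abelian group killed by `p` is isomorphic to `(ℤ/p)^m`. -/
theorem exists_equiv {K : Type} [CommGroup K] [Finite K] (p : ℕ) [hp : Fact p.Prime]
    (hK : ∀ k : K, k ^ p = 1) : ∃ m : ℕ, Nonempty (K ≃* WW p m) := by
  have key : ∀ (A : Type) [AddCommGroup A] [Finite A] (_ : ∀ a : A, p • a = 0),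
      ∃ m : ℕ, Nonempty (A ≃+ (Fin m → ZMod p)) := by
    intro A _ _ hA
    let _ : Module (ZMod p) A := AddCommGroup.zmodModule (n := p) hA
    have : Module.Finite (ZMod p) A := Module.Finite.of_finite
    exact ⟨_, ⟨(Module.finBasis (ZMod p) A).equivFun.toAddEquiv⟩⟩
  obtain ⟨m, ⟨e⟩⟩ := key (Additive K) (fun x => hK (Additive.toMul x))
  exact ⟨m, ⟨AddEquiv.toMultiplicativeRight e⟩⟩

theorem pow_congr {K : Type} [CommGroup K] (P : Finset ℕ) (hP : ∀ p ∈ P, p.Prime) (k : K)
    (hk : k ^ (∏ p ∈ P, p) = 1) {a b : ℕ} (hab : ∀ q ∈ P, a ≡ b [MOD q]) : k ^ a = k ^ b := by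
  have h1 : ((∏ q ∈ P, q : ℕ) : ℤ) ∣ (b : ℤ) - a := by
    push_cast
    refine Finset.prod_dvd_of_coprime ?_ fun q hq => (Nat.modEq_iff_dvd.1 (hab q hq))
    intro i hi j hj hij
    exact Nat.isCoprime_iff_coprime.2 ((Nat.coprime_primes (hP i hi) (hP j hj)).2 hij)
  have h2 : a ≡ b [MOD (∏ q ∈ P, q)] := Nat.modEq_iff_dvd.2 h1
  have h3 : orderOf k ∣ ∏ q ∈ P, q := orderOf_dvd_of_pow_eq_one hk
  exact pow_eq_pow_iff_modEq.2 (h2.of_dvd h3)

/-- **Detection for groups of squarefree exponent.** -/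
theorem detect_sqf {H : Type} [CommGroup H] [Finite H] (P : Finset ℕ) (hP : ∀ p ∈ P, p.Prime)
    (hexp : ∀ h : H, h ^ (∏ p ∈ P, p) = 1) (n : ℕ) (x : MonoidAlgebra ℤ H) (h0 : aug x = 0)
    (h : ∀ p ∈ P, ∀ χ : H →* CC p, mp χ x ∈ (IH (⊤ : Subgroup (CC p))) ^ n) :
    x ∈ (IH (⊤ : Subgroup H)) ^ n := by
  obtain ⟨f, hf1, hf2⟩ := exists_exponents P hP
  have e1 : ∀ h : H, ∏ p ∈ P, h ^ f p = h := by
    intro h
    rw [Finset.prod_pow_eq_pow_sum]
    conv_rhs => rw [← pow_one h]
    exact pow_congr P hP h (hexp h) hf1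
  have e2 : ∀ p ∈ P, ∀ h : H, (h ^ f p) ^ p = 1 := by
    intro p hp h
    rw [← pow_mul, mul_comm]
    conv_rhs => rw [← pow_zero h]
    exact pow_congr P hP h (hexp h) (hf2 p hp)
  -- the components
  have comp : ∀ p ∈ P, sp (f p) x ∈ (IH (⊤ : Subgroup H)) ^ n := by
    intro p hp
    have hpp : Fact p.Prime := ⟨hP p hp⟩
    let R : Subgroup H := (powMonoidHom (f p) : H →* H).range
    obtain ⟨m, ⟨e⟩⟩ := exists_equiv (K := R) p (by
      rintro ⟨_, h, rfl⟩
      apply Subtype.ext
      exact e2 p hp h)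
    let θ : H →* WW p m := e.toMonoidHom.comp (powMonoidHom (f p) : H →* H).rangeRestrict
    let ι : WW p m →* H := R.subtype.comp e.symm.toMonoidHom
    have hι : ι.comp θ = powMonoidHom (f p) := by
      ext h
      simp only [ι, θ, MonoidHom.comp_apply, MulEquiv.coe_toMonoidHom, MulEquiv.symm_apply_apply]
      rfl
    have h1 := detect_elem p n (mp θ x) (by rw [aug_mp, h0]) (by
      intro χ
      rw [mp_comp]
      exact h p hp _)
    have h2 := mp_mem (K := (⊤ : Subgroup H)) ι (fun _ _ => Subgroup.mem_top _) n _ h1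
    rw [mp_comp, hι] at h2
    exact h2
  have key : ∀ j ≤ n, x ∈ (IH (⊤ : Subgroup H)) ^ j := by
    intro j
    induction j with
    | zero => intro _; rw [pow_zero, Ideal.one_eq_top]; trivial
    | succ j ih =>
      intro hj
      rcases j with _ | j
      · rw [zero_add, pow_one]
        exact mem_of_aug h0
      · have h1 := sub_sum_sp P hP f e1 e2 j x (ih (by omega))
        have h2 : ∑ p ∈ P, sp (f p) x ∈ (IH (⊤ : Subgroup H)) ^ (j + 2) :=
          Ideal.sum_mem _ fun p hp => Ideal.pow_le_pow_right hj (comp p hp)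
        have := Ideal.add_mem _ h1 h2
        rwa [sub_add_cancel] at this
  exact key n le_rfl

section components

variable {Γ : Type} [CommGroup Γ] [Finite Γ] (H : Subgroup Γ)

/-- The component of `x` at the coset `g H`. -/
def cmp (g : Γ) (x : MonoidAlgebra ℤ Γ) : MonoidAlgebra ℤ H :=
  letI := Fintype.ofFinite H
  ∑ h : H, MonoidAlgebra.single h (x.coeff (g * h))

theorem cmp_add (g : Γ) (x y : MonoidAlgebra ℤ Γ) : cmp H g (x + y) = cmp H g x + cmp H g y := by
  unfold cmp
  simp only [MonoidAlgebra.coeff_add, Finsupp.add_apply, MonoidAlgebra.single_add,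
    Finset.sum_add_distrib]

theorem cmp_zero (g : Γ) : cmp H g 0 = 0 := by
  unfold cmp
  simp

theorem cmp_coeff (g : Γ) (x : MonoidAlgebra ℤ Γ) (h : H) : (cmp H g x).coeff h = x.coeff (g * h) := by
  classical
  let _ := Fintype.ofFinite H
  unfold cmp
  rw [MonoidAlgebra.coeff_sum, Finset.sum_apply']
  simp only [MonoidAlgebra.coeff_single, Finsupp.single_apply]
  rw [Finset.sum_ite_eq', if_pos (Finset.mem_univ _)]

theorem cmp_sub (g : Γ) (x y : MonoidAlgebra ℤ Γ) : cmp H g (x - y) = cmp H g x - cmp H g y := by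
  ext h
  rw [MonoidAlgebra.coeff_sub, Finsupp.sub_apply, cmp_coeff, cmp_coeff, cmp_coeff,
    MonoidAlgebra.coeff_sub, Finsupp.sub_apply]

/-- linearity over `ℤ[H]` -/
theorem cmp_mul (g : Γ) (x : MonoidAlgebra ℤ Γ) (y : MonoidAlgebra ℤ H) :
    cmp H g (x * mp H.subtype y) = cmp H g x * y := by
  induction y using MonoidAlgebra.induction_linear with
  | zero => rw [map_zero, mul_zero, mul_zero, cmp_zero]
  | add a b ha hb => rw [map_add, mul_add, cmp_add, ha, hb, mul_add]
  | single w r =>
    rw [mp_single]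
    ext h
    rw [cmp_coeff, MonoidAlgebra.coeff_mul_single_apply, MonoidAlgebra.coeff_mul_single_apply,
      cmp_coeff]
    congr 2
    rw [Subgroup.coe_mul, Subgroup.coe_inv, mul_assoc]
    rfl

theorem eq_sum_cmp (x : MonoidAlgebra ℤ Γ) :
    letI := Fintype.ofFinite (Γ ⧸ H)
    x = ∑ c : Γ ⧸ H, MonoidAlgebra.single c.out 1 * mp H.subtype (cmp H c.out x) := by
  classical
  let _ := Fintype.ofFinite (Γ ⧸ H)
  change x = ∑ c : Γ ⧸ H, MonoidAlgebra.single c.out 1 * mp H.subtype (cmp H c.out x)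
  ext g
  rw [MonoidAlgebra.coeff_sum, Finset.sum_apply']
  have h1 : ∀ c : Γ ⧸ H, (MonoidAlgebra.single c.out (1 : ℤ) *
      mp H.subtype (cmp H c.out x)).coeff g = if c = (g : Γ ⧸ H) then x.coeff g else 0 := by
    intro c
    rw [MonoidAlgebra.coeff_single_mul_apply, one_mul]
    have h2 : ∀ (y : MonoidAlgebra ℤ H) (u : Γ), (mp H.subtype y).coeff u =
        if hu : u ∈ H then y.coeff ⟨u, hu⟩ else 0 := by
      intro y u
      induction y using MonoidAlgebra.induction_linear with
      | zero => simp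
      | add a b ha hb =>
        rw [map_add, MonoidAlgebra.coeff_add, Finsupp.add_apply, ha, hb]
        split_ifs
        · rfl
        · simp
      | single w r =>
        rw [mp_single, MonoidAlgebra.coeff_single, Finsupp.single_apply]
        by_cases hu : u ∈ H
        · rw [dif_pos hu, MonoidAlgebra.coeff_single, Finsupp.single_apply]
          congr 1
          rw [Subtype.ext_iff]
          rfl
        · rw [dif_neg hu, if_neg]
          rintro rfl
          exact hu w.2
    rw [h2]
    have h3 : (c.out)⁻¹ * g ∈ H ↔ c = (g : Γ ⧸ H) := by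
      rw [← QuotientGroup.eq, QuotientGroup.out_eq']
    by_cases hc : c = (g : Γ ⧸ H)
    · rw [dif_pos (h3.2 hc), if_pos hc, cmp_coeff]
      congr 1
      rw [mul_inv_cancel_left]
    · rw [dif_neg (fun h => hc (h3.1 h)), if_neg hc]
  rw [Finset.sum_congr rfl (fun c _ => h1 c), Finset.sum_ite_eq']
  simp

theorem mem_of_cmp (n : ℕ) (x : MonoidAlgebra ℤ Γ)
    (h : ∀ g, cmp H g x ∈ (IH (⊤ : Subgroup H)) ^ n) : x ∈ (IH H) ^ n := by
  rw [eq_sum_cmp H x]
  refine Ideal.sum_mem _ fun c _ => Ideal.mul_mem_left _ _ ?_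
  exact mp_mem _ (fun h _ => h.2) n _ (h _)

theorem cmp_mem (n : ℕ) (x : MonoidAlgebra ℤ Γ) (hx : x ∈ (IH H) ^ n) (g : Γ) :
    cmp H g x ∈ (IH (⊤ : Subgroup H)) ^ n := by
  induction n generalizing x with
  | zero => rw [pow_zero, Ideal.one_eq_top]; trivial
  | succ n ih =>
    rw [pow_succ] at hx
    refine Submodule.mul_induction_on hx ?_ ?_
    · intro a ha b hb
      -- `b` in `IH H`
      have : ∀ b ∈ IH H, ∀ a ∈ (IH H) ^ n, cmp H g (a * b) ∈ (IH (⊤ : Subgroup H)) ^ (n + 1) := by
        intro b hb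
        refine Submodule.span_induction ?_ ?_ ?_ ?_ hb
        · rintro _ ⟨h, hh, rfl⟩ a ha
          have h1 : MonoidAlgebra.single h (1 : ℤ) - 1 =
              mp H.subtype (MonoidAlgebra.single (⟨h, hh⟩ : H) 1 - 1) := by
            rw [map_sub, map_one, mp_single]; rfl
          rw [h1, cmp_mul, pow_succ]
          exact Ideal.mul_mem_mul (ih a ha) (sub_one_mem (Subgroup.mem_top _))
        · intro a _
          rw [mul_zero, cmp_zero]
          exact Ideal.zero_mem _
        · intro b c _ _ hb hc a ha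
          rw [mul_add, cmp_add]
          exact Ideal.add_mem _ (hb a ha) (hc a ha)
        · intro c b _ hb a ha
          rw [smul_eq_mul, ← mul_assoc]
          exact hb _ (Ideal.mul_mem_right _ _ ha)
      exact this b hb a ha
    · intro a b ha hb
      rw [cmp_add]
      exact Ideal.add_mem _ ha hb

end components

/-- The kernel of the homomorphism of group rings. -/
theorem mem_of_mp_eq_zero {Γ Δ : Type} [CommGroup Γ] [CommGroup Δ] (f : Γ →* Δ)
    (x : MonoidAlgebra ℤ Γ) (hx : mp f x = 0) : x ∈ IH f.ker := by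
  let s : Δ → Γ := Function.invFun f
  have hs : ∀ u, f (s (f u)) = f u := fun u => Function.invFun_eq ⟨u, rfl⟩
  have h1 : ∀ x : MonoidAlgebra ℤ Γ, x - MonoidAlgebra.mapDomain s (mp f x) ∈ IH f.ker := by
    intro x
    induction x using MonoidAlgebra.induction_linear with
    | zero => simp
    | add a b ha hb =>
      rw [map_add, MonoidAlgebra.mapDomain_add]
      have : a + b - (MonoidAlgebra.mapDomain s (mp f a) + MonoidAlgebra.mapDomain s (mp f b)) =
        (a - MonoidAlgebra.mapDomain s (mp f a)) + (b - MonoidAlgebra.mapDomain s (mp f b)) := by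
        ring
      rw [this]
      exact Ideal.add_mem _ ha hb
    | single w r =>
      rw [mp_single, MonoidAlgebra.mapDomain_single]
      have h2 : MonoidAlgebra.single w r - MonoidAlgebra.single (s (f w)) r =
          MonoidAlgebra.single (s (f w)) r * (MonoidAlgebra.single ((s (f w))⁻¹ * w) 1 - 1) := by
        rw [mul_sub, mul_one, MonoidAlgebra.single_mul_single, mul_one, mul_inv_cancel_left]
      rw [h2]
      refine Ideal.mul_mem_left _ _ (sub_one_mem ?_)
      rw [MonoidHom.mem_ker, map_mul, map_inv, hs, inv_mul_cancel]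
  have h2 := h1 x
  rw [hx] at h2
  simpa using h2

end Run7.h743
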