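import Pool.Agent.Run7.h743.Detect4
import Pool.Agent.X252.MTD

/-!
# Powers of the augmentation ideal of a finite abelian group: detection on cyclic quotients
-/

set_option autoImplicit false
set_option linter.unusedSectionVars false

noncomputable section

namespace Run7.h743

section

variable {H : Type} [CommGroup H]

/-- (C), (D) `u` is congruent to the sum of its primary components. -/
theorem sub_sum_sp' (P : Finset ℕ) (q : ℕ → ℕ)
    (hq : ∀ p ∈ P, ∀ p' ∈ P, p ≠ p' → Nat.Coprime (q p) (q p')) (f : ℕ → ℕ)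
    (h1 : ∀ h : H, ∏ p ∈ P, h ^ f p = h) (h2 : ∀ p ∈ P, ∀ h : H, (h ^ f p) ^ q p = 1)
    (j : ℕ) (u : MonoidAlgebra ℤ H) (hu : u ∈ (IH (⊤ : Subgroup H)) ^ (j + 1)) :
    u - ∑ p ∈ P, sp (f p) u ∈ (IH (⊤ : Subgroup H)) ^ (j + 2) := by
  classical
  have hcong : ∀ (e : ℕ) (c : MonoidAlgebra ℤ H), c - sp e c ∈ IH (⊤ : Subgroup H) := by
    intro e c
    apply mem_of_aug
    rw [map_sub, aug_mp, sub_self]
  have base : ∀ b ∈ IH (⊤ : Subgroup H), b - ∑ p ∈ P, sp (f p) b ∈ (IH (⊤ : Subgroup H)) ^ 2 := by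
    intro b hb
    refine Submodule.span_induction ?_ ?_ ?_ ?_ hb
    · rintro _ ⟨h, _, rfl⟩
      have h3 := prod_sub P (fun p => h ^ f p)
      rw [h1] at h3
      have h4 : ∑ p ∈ P, sp (f p) (MonoidAlgebra.single h (1 : ℤ) - 1) =
          ∑ p ∈ P, (MonoidAlgebra.single (h ^ f p) (1 : ℤ) - 1) := by
        refine Finset.sum_congr rfl fun p _ => ?_
        rw [map_sub, map_one, mp_single, powMonoidHom_apply]
      rw [h4]
      exact h3
    · simp
    · intro a b _ _ ha hb
      have : a + b - ∑ p ∈ P, sp (f p) (a + b) = (a - ∑ p ∈ P, sp (f p) a) +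
          (b - ∑ p ∈ P, sp (f p) b) := by
        simp only [map_add, Finset.sum_add_distrib]
        ring
      rw [this]
      exact Ideal.add_mem _ ha hb
    · intro c b hb0 hb
      have hb1 : b ∈ IH (⊤ : Subgroup H) := hb0
      have : c • b - ∑ p ∈ P, sp (f p) (c • b) = c * (b - ∑ p ∈ P, sp (f p) b) +
          ∑ p ∈ P, (c - sp (f p) c) * sp (f p) b := by
        simp only [smul_eq_mul, map_mul, mul_sub, sub_mul, Finset.sum_sub_distrib, Finset.mul_sum]
        ring
      rw [this]
      refine Ideal.add_mem _ (Ideal.mul_mem_left _ _ hb) (Ideal.sum_mem _ fun p _ => ?_)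
      rw [pow_two]
      refine Ideal.mul_mem_mul (hcong _ _) ?_
      have := sp_mem (f p) 1 b (by rwa [pow_one])
      rwa [pow_one] at this
  induction j generalizing u with
  | zero =>
    rw [zero_add, pow_one] at hu
    exact base u hu
  | succ j ih =>
    rw [pow_succ] at hu
    refine Submodule.mul_induction_on hu ?_ ?_
    · intro a ha b hb
      -- `a` in `I ^ (j+1)`, `b ∈ I`
      have e1 := ih a ha
      have e2 := base b hb
      have hb1 : b ∈ (IH (⊤ : Subgroup H)) ^ (0 + 1) := by rwa [zero_add, pow_one]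
      have cross : ∀ p ∈ P, ∀ p' ∈ P, p ≠ p' → sp (f p) a * sp (f p') b ∈
          (IH (⊤ : Subgroup H)) ^ (j + 3) := by
        intro p hp p' hp' hpp
        have c1 : (q p : MonoidAlgebra ℤ H) * (sp (f p) a * sp (f p') b) ∈
            (IH (⊤ : Subgroup H)) ^ (j + 3) := by
          have := Ideal.mul_mem_mul (smul_sp (q p) (f p) (h2 p hp) j a ha)
            (sp_mem (f p') 1 b (by rwa [pow_one]))
          rw [← pow_add, mul_assoc] at this
          exact this
        have c2 : (q p' : MonoidAlgebra ℤ H) * (sp (f p) a * sp (f p') b) ∈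
            (IH (⊤ : Subgroup H)) ^ (j + 3) := by
          have := Ideal.mul_mem_mul (sp_mem (f p) (j + 1) a ha)
            (smul_sp (q p') (f p') (h2 p' hp') 0 b hb1)
          rw [← pow_add] at this
          have e : (q p' : MonoidAlgebra ℤ H) * (sp (f p) a * sp (f p') b) =
            sp (f p) a * ((q p' : MonoidAlgebra ℤ H) * sp (f p') b) := by ring
          rw [e]
          exact this
        have hco : IsCoprime (q p : ℤ) (q p' : ℤ) := Nat.isCoprime_iff_coprime.2 (hq p hp p' hp' hpp)
        obtain ⟨r, s, hrs⟩ := hco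
        have hrs' : ((r : ℤ) : MonoidAlgebra ℤ H) * (q p : MonoidAlgebra ℤ H) +
            ((s : ℤ) : MonoidAlgebra ℤ H) * (q p' : MonoidAlgebra ℤ H) = 1 := by
          have := congrArg (Int.cast : ℤ → MonoidAlgebra ℤ H) hrs
          push_cast at this
          exact this
        have e : sp (f p) a * sp (f p') b =
            ((r : ℤ) : MonoidAlgebra ℤ H) * ((q p : MonoidAlgebra ℤ H) * (sp (f p) a * sp (f p') b)) +
            ((s : ℤ) : MonoidAlgebra ℤ H) * ((q p' : MonoidAlgebra ℤ H) * (sp (f p) a * sp (f p') b)) := by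
          linear_combination (-(sp (f p) a * sp (f p') b)) * hrs'
        rw [e]
        exact Ideal.add_mem _ (Ideal.mul_mem_left _ _ c1) (Ideal.mul_mem_left _ _ c2)
      -- the product of the sums
      have e3 : a * b - (∑ p ∈ P, sp (f p) a) * (∑ q ∈ P, sp (f q) b) ∈
          (IH (⊤ : Subgroup H)) ^ (j + 3) := by
        have : a * b - (∑ p ∈ P, sp (f p) a) * (∑ q ∈ P, sp (f q) b) =
            (a - ∑ p ∈ P, sp (f p) a) * b + (∑ p ∈ P, sp (f p) a) * (b - ∑ q ∈ P, sp (f q) b) := by
          ring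
        rw [this]
        refine Ideal.add_mem _ ?_ ?_
        · have := Ideal.mul_mem_mul e1 hb
          rw [← pow_succ] at this
          exact this
        · have h3 : (∑ p ∈ P, sp (f p) a) ∈ (IH (⊤ : Subgroup H)) ^ (j + 1) :=
            Ideal.sum_mem _ fun p _ => sp_mem _ _ _ ha
          have := Ideal.mul_mem_mul h3 e2
          rw [← pow_add] at this
          exact this
      have e4 : (∑ p ∈ P, sp (f p) a) * (∑ q ∈ P, sp (f q) b) - ∑ p ∈ P, sp (f p) (a * b) ∈
          (IH (⊤ : Subgroup H)) ^ (j + 3) := by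
        rw [Finset.sum_mul, ← Finset.sum_sub_distrib]
        refine Ideal.sum_mem _ fun p hp => ?_
        rw [map_mul, ← mul_sub, ← Finset.sum_erase_eq_sub hp, Finset.mul_sum]
        refine Ideal.sum_mem _ fun q hq => ?_
        exact cross p hp q (Finset.mem_of_mem_erase hq) (Finset.ne_of_mem_erase hq).symm
      have := Ideal.add_mem _ e3 e4
      have e : a * b - (∑ p ∈ P, sp (f p) a) * (∑ q ∈ P, sp (f q) b) +
          ((∑ p ∈ P, sp (f p) a) * (∑ q ∈ P, sp (f q) b) - ∑ p ∈ P, sp (f p) (a * b)) =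
          a * b - ∑ p ∈ P, sp (f p) (a * b) := by ring
      rw [e] at this
      exact this
    · intro a b ha hb
      have : a + b - ∑ p ∈ P, sp (f p) (a + b) = (a - ∑ p ∈ P, sp (f p) a) +
          (b - ∑ p ∈ P, sp (f p) b) := by
        simp only [map_add, Finset.sum_add_distrib]
        ring
      rw [this]
      exact Ideal.add_mem _ ha hb

end

/-- Chinese remainders for the exponents. -/
theorem exists_exponents' (P : Finset ℕ) (q : ℕ → ℕ) (hq0 : ∀ p ∈ P, q p ≠ 0)
    (hq : ∀ p ∈ P, ∀ p' ∈ P, p ≠ p' → Nat.Coprime (q p) (q p')) : ∃ f : ℕ → ℕ,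
    (∀ p ∈ P, (∑ p' ∈ P, f p') ≡ 1 [MOD q p]) ∧ ∀ p ∈ P, ∀ p' ∈ P, q p * f p ≡ 0 [MOD q p'] := by
  classical
  have hco : (P : Set ℕ).Pairwise (Function.onFun Nat.Coprime q) := by
    intro a ha b hb hab
    exact hq a ha b hb hab
  have h1 : ∀ p : ℕ, ∃ k : ℕ, ∀ p' ∈ P, k ≡ (if p' = p then 1 else 0) [MOD q p'] := by
    intro p
    obtain ⟨k, hk⟩ := Nat.chineseRemainderOfFinset (fun q => if q = p then 1 else 0) q P hq0 hco
    exact ⟨k, hk⟩
  choose f hf using h1
  refine ⟨f, ?_, ?_⟩
  · intro p hp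
    have h2 : (∑ p' ∈ P, f p') ≡ (∑ p' ∈ P, if p = p' then 1 else 0) [MOD q p] := by
      have : ∀ s : Finset ℕ, (∑ p' ∈ s, f p') ≡ (∑ p' ∈ s, if p = p' then 1 else 0) [MOD q p] := by
        intro s
        induction s using Finset.induction_on with
        | empty => rfl
        | insert a s ha ih =>
          rw [Finset.sum_insert ha, Finset.sum_insert ha]
          exact (hf a p hp).add ih
      exact this P
    rw [Finset.sum_ite_eq, if_pos hp] at h2
    exact h2
  · intro p hp p' hp'
    by_cases h : p' = p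
    · subst h
      exact (Nat.modEq_zero_iff_dvd.2 (dvd_mul_right _ _))
    · have h2 := (hf p p' hp').mul_left (q p)
      rwa [if_neg h, mul_zero] at h2

theorem pow_congr' {K : Type} [CommGroup K] (P : Finset ℕ) (q : ℕ → ℕ)
    (hq : ∀ p ∈ P, ∀ p' ∈ P, p ≠ p' → Nat.Coprime (q p) (q p')) (k : K)
    (hk : k ^ (∏ p ∈ P, q p) = 1) {a b : ℕ} (hab : ∀ p ∈ P, a ≡ b [MOD q p]) : k ^ a = k ^ b := by
  have h1 : ((∏ p ∈ P, q p : ℕ) : ℤ) ∣ (b : ℤ) - a := by
    push_cast
    refine Finset.prod_dvd_of_coprime ?_ fun p hp => (Nat.modEq_iff_dvd.1 (hab p hp))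
    intro i hi j hj hij
    exact Nat.isCoprime_iff_coprime.2 (hq i hi j hj hij)
  have h2 : a ≡ b [MOD (∏ p ∈ P, q p)] := Nat.modEq_iff_dvd.2 h1
  have h3 : orderOf k ∣ ∏ p ∈ P, q p := orderOf_dvd_of_pow_eq_one hk
  exact pow_eq_pow_iff_modEq.2 (h2.of_dvd h3)

theorem aug_eq_IH {G : Type} [CommGroup G] : Pool.Agent.X252.MT.Aug ℤ G = IH (⊤ : Subgroup G) := by
  unfold Pool.Agent.X252.MT.Aug IH
  congr 1
  ext y
  constructor
  · rintro ⟨g, rfl⟩
    exact ⟨g, Subgroup.mem_top _, rfl⟩
  · rintro ⟨g, _, rfl⟩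
    exact ⟨g, rfl⟩

theorem mp_eq_mp {G C : Type} [CommGroup G] [CommGroup C] (φ : G →* C) (z : MonoidAlgebra ℤ G) :
    Pool.Agent.X252.MT.mp ℤ φ z = mp φ z := by
  induction z using MonoidAlgebra.induction_linear with
  | zero => simp
  | add a b ha hb => rw [map_add, map_add, ha, hb]
  | single w r =>
    rw [mp_single]
    unfold Pool.Agent.X252.MT.mp
    simp

theorem good_int (p : ℕ) : Pool.Agent.X252.MT.Good ℤ p where
  app e a := ⟨a, 0, by simp⟩
  dvd f n h := by
    obtain ⟨b, hb⟩ := h
    exact ⟨b, by simpa using hb⟩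

/-- **Detection for `p`-groups, `n ≤ p`.** -/
theorem detect_pgroup {K : Type} [CommGroup K] [Finite K] {p : ℕ} (hp : p.Prime) (E : ℕ)
    (hK : ∀ g : K, g ^ p ^ E = 1) {n : ℕ} (hn : n ≤ p) (z : MonoidAlgebra ℤ K)
    (h : ∀ f ≤ E, ∀ χ : K →* CC (p ^ f), mp χ z ∈ (IH (⊤ : Subgroup (CC (p ^ f)))) ^ n) :
    z ∈ (IH (⊤ : Subgroup K)) ^ n := by
  rw [← aug_eq_IH]
  refine Pool.Agent.X252.MT.detect hp (good_int p) E hK hn z fun f hf φ => ?_
  rw [aug_eq_IH, mp_eq_mp]
  exact h f hf φ

/-- **Detection on the cyclic quotients of prime power order.** -/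
theorem detect_gen {H : Type} [CommGroup H] [Finite H] (n : ℕ)
    (hn : ∀ p : ℕ, p.Prime → p ^ 2 ∣ Monoid.exponent H → n ≤ p)
    (x : MonoidAlgebra ℤ H) (h0 : aug x = 0)
    (h : ∀ (p f : ℕ), p.Prime → 0 < f → ∀ χ : H →* CC (p ^ f),
      mp χ x ∈ (IH (⊤ : Subgroup (CC (p ^ f)))) ^ n) :
    x ∈ (IH (⊤ : Subgroup H)) ^ n := by
  classical
  let E : ℕ := Monoid.exponent H
  have hE : E ≠ 0 := Monoid.exponent_ne_zero_of_finite
  let P : Finset ℕ := E.primeFactors
  let q : ℕ → ℕ := fun p => p ^ E.factorization p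
  have hprime : ∀ p ∈ P, p.Prime := fun p hp => Nat.prime_of_mem_primeFactors hp
  have hprod : ∏ p ∈ P, q p = E := Nat.prod_factorization_pow_eq_self hE
  have hq : ∀ p ∈ P, ∀ p' ∈ P, p ≠ p' → Nat.Coprime (q p) (q p') := by
    intro p hp p' hp' hpp
    exact Nat.coprime_pow_primes _ _ (hprime p hp) (hprime p' hp') hpp
  have hexp : ∀ k : H, k ^ (∏ p ∈ P, q p) = 1 := by
    intro k
    rw [hprod]
    exact Monoid.pow_exponent_eq_one k
  obtain ⟨f, hf1, hf2⟩ := exists_exponents' P q (fun p hp => pow_ne_zero _ (hprime p hp).ne_zero) hq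
  have e1 : ∀ h : H, ∏ p ∈ P, h ^ f p = h := by
    intro h
    rw [Finset.prod_pow_eq_pow_sum]
    conv_rhs => rw [← pow_one h]
    exact pow_congr' P q hq h (hexp h) hf1
  have e2 : ∀ p ∈ P, ∀ h : H, (h ^ f p) ^ q p = 1 := by
    intro p hp h
    rw [← pow_mul, mul_comm]
    conv_rhs => rw [← pow_zero h]
    exact pow_congr' P q hq h (hexp h) (hf2 p hp)
  -- the components
  have comp : ∀ p ∈ P, sp (f p) x ∈ (IH (⊤ : Subgroup H)) ^ n := by
    intro p hp
    have hpp : Fact p.Prime := ⟨hprime p hp⟩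
    let R : Subgroup H := (powMonoidHom (f p) : H →* H).range
    let θ : H →* R := (powMonoidHom (f p) : H →* H).rangeRestrict
    have hR : ∀ k : R, k ^ q p = 1 := by
      rintro ⟨_, h, rfl⟩
      apply Subtype.ext
      exact e2 p hp h
    have hθ : mp θ x ∈ (IH (⊤ : Subgroup R)) ^ n := by
      by_cases hf : n ≤ p
      · refine detect_pgroup hpp.out (E.factorization p) hR hf _ fun a ha χ => ?_
        rcases Nat.eq_zero_or_pos a with ha0 | ha0
        · subst ha0
          have h1 : mp χ (mp θ x) = 0 := by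
            have h2 : ∀ y : MonoidAlgebra ℤ R, mp χ y = (aug y : MonoidAlgebra ℤ (CC (p ^ 0))) := by
              intro y
              induction y using MonoidAlgebra.induction_linear with
              | zero => rw [map_zero, map_zero, Int.cast_zero]
              | add a b ha hb => rw [map_add, map_add, Int.cast_add, ha, hb]
              | single w r =>
                rw [mp_single, aug_single]
                have h3 : χ w = 1 := by
                  have : Subsingleton (CC (p ^ 0)) := by
                    rw [pow_zero]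
                    exact inferInstanceAs (Subsingleton (Multiplicative (Fin 1)))
                  exact Subsingleton.elim _ _
                rw [h3]
                rfl
            rw [h2, aug_mp, h0, Int.cast_zero]
          rw [h1]
          exact Ideal.zero_mem _
        · rw [mp_comp]
          exact h p a hpp.out ha0 _
      · have h1 : E.factorization p = 1 := by
          have h2 : ¬ p ^ 2 ∣ E := fun h2 => hf (hn p hpp.out h2)
          have h3 : 0 < E.factorization p := hpp.out.factorization_pos_of_dvd hE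
            (Nat.dvd_of_mem_primeFactors hp)
          by_contra h4
          apply h2
          exact (hpp.out.pow_dvd_iff_le_factorization hE).2 (by omega)
        have hR' : ∀ k : R, k ^ p = 1 := by
          intro k
          have h2 := hR k
          simp only [q] at h2
          rwa [h1, pow_one] at h2
        obtain ⟨m, ⟨e⟩⟩ := exists_equiv (K := R) p hR'
        have h2 := detect_elem p n (mp e.toMonoidHom (mp θ x)) (by rw [aug_mp, aug_mp, h0]) (by
          intro χ
          rw [mp_comp, mp_comp]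
          have h3 := h p 1 hpp.out Nat.one_pos
          rw [pow_one] at h3
          exact h3 _)
        have h3 := mp_mem (K := (⊤ : Subgroup R)) e.symm.toMonoidHom
          (fun _ _ => Subgroup.mem_top _) n _ h2
        rw [mp_comp] at h3
        have h4 : e.symm.toMonoidHom.comp e.toMonoidHom = MonoidHom.id R := by
          ext k : 1
          simp
        rw [h4, mp_comp] at h3
        exact h3
    have h2 := mp_mem (K := (⊤ : Subgroup H)) R.subtype (fun _ _ => Subgroup.mem_top _) n _ hθ
    rw [mp_comp] at h2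
    have h3 : R.subtype.comp θ = powMonoidHom (f p) := by
      ext h
      rfl
    rw [h3] at h2
    exact h2
  have key : ∀ j ≤ n, x ∈ (IH (⊤ : Subgroup H)) ^ j := by
    intro j
    induction j with
    | zero => intro _; rw [pow_zero, Ideal.one_eq_top]; trivial
    | succ j ih =>
      intro hj
      rcases j with _ | j
      · rw [zero_add, pow_one]
        exact mem_of_aug h0
      · have h1 := sub_sum_sp' P q hq f e1 e2 j x (ih (by omega))
        have h2 : ∑ p ∈ P, sp (f p) x ∈ (IH (⊤ : Subgroup H)) ^ (j + 2) :=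
          Ideal.sum_mem _ fun p hp => Ideal.pow_le_pow_right hj (comp p hp)
        have := Ideal.add_mem _ h1 h2
        rwa [sub_add_cancel] at this
  exact key n le_rfl

end Run7.h743
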