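import Pool.Agent.Run7.h743.Newton

/-!
# Powers of the augmentation ideal of an elementary abelian group

Let `W = (ℤ/p)^m`, `O = ℤ[ζ]`, `ζ` a primitive `p`-th root of unity, `π = ζ - 1`. An element `x` of
`ℤ[W]` of degree zero all whose character values are divisible by `π ^ n` belongs to `I ^ n`, `I` the
augmentation ideal.
-/

set_option autoImplicit false
set_option linter.unusedSectionVars false

noncomputable section

namespace Run7.h743

open Polynomial

/-- The elementary abelian group of rank `m`. -/
abbrev WW (p m : ℕ) : Type := Multiplicative (Fin m → ZMod p)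

section

variable {O : Type*} [CommRing O] {p : ℕ} [hp : Fact p.Prime] {ζ : O}
  (hζ : ζ ^ p = 1) {m : ℕ}

theorem pow_mod' (hζ : ζ ^ p = 1) (n : ℕ) : ζ ^ n = ζ ^ (n % p) := by
  conv_lhs => rw [← Nat.mod_add_div n p, pow_add, pow_mul, hζ, one_pow, mul_one]

/-- `ζ ^ c` for `c` modulo `p`. -/
def zp (ζ : O) (c : ZMod p) : O := ζ ^ c.val

theorem zp_add (hζ : ζ ^ p = 1) (a b : ZMod p) : zp ζ (a + b) = zp ζ a * zp ζ b := by
  unfold zp
  rw [← pow_add, ZMod.val_add, ← pow_mod' hζ]

theorem zp_zero (ζ : O) : zp ζ (0 : ZMod p) = 1 := by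
  simp [zp]

theorem zp_one (ζ : O) : zp ζ (1 : ZMod p) = ζ := by
  simp [zp, ZMod.val_one]

/-- The character with exponents `a`. -/
def chr (a : Fin m → ZMod p) : WW p m →* O where
  toFun w := zp ζ (∑ i, a i * Multiplicative.toAdd w i)
  map_one' := by
    simp [zp]
  map_mul' x y := by
    rw [← zp_add hζ, ← Finset.sum_add_distrib]
    congr 1
    refine Finset.sum_congr rfl fun i _ => ?_
    rw [toAdd_mul, Pi.add_apply, mul_add]

theorem chr_apply (a : Fin m → ZMod p) (w : WW p m) :
    chr hζ a w = zp ζ (∑ i, a i * Multiplicative.toAdd w i) := rfl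

/-- The character on the group ring. -/
def psi (a : Fin m → ZMod p) : MonoidAlgebra O (WW p m) →ₐ[O] O :=
  MonoidAlgebra.lift O O (WW p m) (chr hζ a)

theorem psi_single (a : Fin m → ZMod p) (w : WW p m) (c : O) :
    psi hζ a (MonoidAlgebra.single w c) = c * chr hζ a w := by
  unfold psi
  rw [MonoidAlgebra.lift_single, smul_eq_mul]

/-- The character on the integral group ring. -/
def psz (a : Fin m → ZMod p) : MonoidAlgebra ℤ (WW p m) →+* O :=
  (MonoidAlgebra.lift ℤ O (WW p m) (chr hζ a) : MonoidAlgebra ℤ (WW p m) →ₐ[ℤ] O)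

theorem psz_single (a : Fin m → ZMod p) (w : WW p m) (c : ℤ) :
    psz hζ a (MonoidAlgebra.single w c) = c * chr hζ a w := by
  unfold psz
  rw [RingHom.coe_coe, MonoidAlgebra.lift_single, zsmul_eq_mul]

/-- The generators of the group. -/
def tt (i : Fin m) : WW p m := Multiplicative.ofAdd (Pi.single i 1)

theorem tt_pow (i : Fin m) : (tt i : WW p m) ^ p = 1 := by
  unfold tt
  rw [← ofAdd_nsmul]
  have : p • (Pi.single i (1 : ZMod p) : Fin m → ZMod p) = 0 := by
    ext j
    rw [Pi.smul_apply, nsmul_eq_mul, CharP.cast_eq_zero, zero_mul, Pi.zero_apply]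
  rw [this, ofAdd_zero]

theorem chr_tt (a : Fin m → ZMod p) (i : Fin m) : chr hζ a (tt i) = zp ζ (a i) := by
  rw [chr_apply]
  congr 1
  rw [Finset.sum_eq_single i]
  · simp [tt]
  · intro j _ hj
    simp [tt, hj]
  · intro h
    exact absurd (Finset.mem_univ i) h

/-- every element of the group is a product of powers of the generators -/
theorem eq_prod (w : WW p m) : w = ∏ i, (tt i) ^ (Multiplicative.toAdd w i).val := by
  apply Multiplicative.toAdd.injective
  rw [toAdd_prod]
  ext j
  rw [Finset.sum_apply, Finset.sum_eq_single j]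
  · rw [toAdd_pow]
    simp [tt]
  · intro i _ hi
    rw [toAdd_pow]
    simp [tt, Ne.symm hi]
  · intro h
    exact absurd (Finset.mem_univ j) h

/-- The generators generate the group ring, over any coefficient ring. -/
theorem adjoin_univ (R : Type*) [CommRing R] : Algebra.adjoin R
    ((fun i : Fin m => MonoidAlgebra.single (tt i : WW p m) (1 : R)) '' Set.univ) = ⊤ := by
  rw [eq_top_iff]
  intro x _
  induction x using MonoidAlgebra.induction_linear with
  | zero => exact Subalgebra.zero_mem _
  | add a b ha hb => exact Subalgebra.add_mem _ (ha trivial) (hb trivial)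
  | single w r =>
    have h1 : MonoidAlgebra.single w r = r • ∏ i, (MonoidAlgebra.single (tt i : WW p m) (1 : R)) ^
        (Multiplicative.toAdd w i).val := by
      have h2 : ∏ i, (MonoidAlgebra.single (tt i : WW p m) (1 : R)) ^
          (Multiplicative.toAdd w i).val = MonoidAlgebra.single w 1 := by
        conv_rhs => rw [eq_prod w]
        have := map_prod (MonoidAlgebra.of R (WW p m)) (fun i => (tt i) ^
          (Multiplicative.toAdd w i).val) Finset.univ
        rw [MonoidAlgebra.of_apply] at this
        rw [this]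
        refine Finset.prod_congr rfl fun i _ => ?_
        rw [map_pow, MonoidAlgebra.of_apply]
      rw [h2, MonoidAlgebra.smul_single, smul_eq_mul, mul_one]
    rw [h1]
    refine Subalgebra.smul_mem _ (Subalgebra.prod_mem _ fun i _ => Subalgebra.pow_mem _ ?_ _) _
    exact Algebra.subset_adjoin ⟨i, trivial, rfl⟩

end

section good

variable {O : Type*} [CommRing O] [IsDomain O] {p : ℕ} [hp : Fact p.Prime] {ζ : O}
  (hζ : IsPrimitiveRoot ζ p) {m : ℕ}

/-- The ideal of `O[W]` generated by `π` and the `w - 1`. -/
def MM (ζ : O) (p m : ℕ) : Ideal (MonoidAlgebra O (WW p m)) :=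
  Ideal.span ({algebraMap O _ (ζ - 1)} ∪
    Set.range (fun w : WW p m => MonoidAlgebra.single w 1 - 1))

include hζ in
/-- Elements of `O[W]` all of whose character values are divisible by `π ^ s` are in `MM ^ s`. -/
theorem good (s : ℕ) (y : MonoidAlgebra O (WW p m))
    (h : ∀ a : Fin m → ZMod p, (ζ - 1) ^ s ∣ psi hζ.pow_eq_one a y) : y ∈ (MM ζ p m) ^ s := by
  have key : ∀ (J : Finset (Fin m)) (s : ℕ) (y : MonoidAlgebra O (WW p m)),
      y ∈ Algebra.adjoin O ((fun i : Fin m => MonoidAlgebra.single (tt i : WW p m) (1 : O)) ''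
        (J : Set (Fin m))) →
      (∀ ψ ∈ Set.range (psi (m := m) hζ.pow_eq_one), (ζ - 1) ^ s ∣ ψ y) →
      y ∈ (MM ζ p m) ^ s := by
    intro J
    induction J using Finset.induction_on with
    | empty =>
      intro s y hy hψ
      rw [Finset.coe_empty, Set.image_empty, Algebra.adjoin_empty] at hy
      obtain ⟨c, rfl⟩ := Algebra.mem_bot.1 hy
      have h1 := hψ (psi hζ.pow_eq_one 0) ⟨0, rfl⟩
      rw [AlgHom.commutes, Algebra.algebraMap_self, RingHom.id_apply] at h1
      obtain ⟨c', rfl⟩ := h1
      rw [map_mul, map_pow]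
      refine Ideal.mul_mem_right _ _ (Ideal.pow_mem_pow ?_ s)
      exact Ideal.subset_span (Or.inl rfl)
    | insert i J hi ih =>
      intro s y hy
      have h2 := step hζ (Algebra.adjoin O
        ((fun i : Fin m => MonoidAlgebra.single (tt i : WW p m) (1 : O)) '' (J : Set (Fin m))))
        (MonoidAlgebra.single (tt i : WW p m) (1 : O))
        (by rw [MonoidAlgebra.single_pow, tt_pow, one_pow]; rfl)
        (MM ζ p m) (Ideal.subset_span (Or.inl rfl)) (Ideal.subset_span (Or.inr ⟨tt i, rfl⟩))
        (Set.range (psi (m := m) hζ.pow_eq_one)) ?_ ih s y ?_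
      · exact h2
      · rintro _ ⟨a, rfl⟩ b hb
        refine ⟨_, ⟨Function.update a i (b : ZMod p), rfl⟩, ?_, ?_⟩
        · intro x hx
          induction hx using Algebra.adjoin_induction with
          | mem x hx =>
            obtain ⟨j, hj, rfl⟩ := hx
            rw [psi_single, psi_single, chr_tt, chr_tt, Function.update_of_ne]
            rintro rfl
            exact hi hj
          | algebraMap r => rw [AlgHom.commutes, AlgHom.commutes]
          | add x y _ _ hx hy => rw [map_add, map_add, hx, hy]
          | mul x y _ _ hx hy => rw [map_mul, map_mul, hx, hy]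
        · rw [psi_single, chr_tt, Function.update_self, one_mul, zp, ZMod.val_natCast,
            Nat.mod_eq_of_lt hb]
      · rw [← Algebra.adjoin_union]
        rw [Finset.coe_insert, Set.image_insert_eq, Set.insert_eq] at hy
        rwa [Set.union_comm] at hy
  refine key Finset.univ s y ?_ ?_
  · rw [Finset.coe_univ, adjoin_univ]
    exact Algebra.mem_top
  · rintro _ ⟨a, rfl⟩
    exact h a

end good

end Run7.h743
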