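import Pool.Agent.Run7.h743.Elem

/-!
# Powers of the augmentation ideal of an elementary abelian group: integral coefficients
-/

set_option autoImplicit false
set_option linter.unusedSectionVars false

noncomputable section

namespace Run7.h743

open Polynomial

section

variable {O : Type*} [CommRing O] {p : ℕ} [hp : Fact p.Prime] {ζ : O}
  (hζ : ζ ^ p = 1) {m : ℕ}

/-- The group element without its `i`-th coordinate. -/
def kill (i : Fin m) : WW p m →* WW p m where
  toFun w := Multiplicative.ofAdd (Function.update (Multiplicative.toAdd w) i 0)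
  map_one' := by
    apply Multiplicative.toAdd.injective
    ext j
    by_cases h : j = i
    · subst h; simp
    · simp
  map_mul' x y := by
    apply Multiplicative.toAdd.injective
    ext j
    by_cases h : j = i
    · subst h; simp
    · simp [h]

theorem kill_apply (i : Fin m) (w : WW p m) (j : Fin m) :
    Multiplicative.toAdd (kill i w) j = if j = i then 0 else Multiplicative.toAdd w j := by
  change Function.update (Multiplicative.toAdd w) i 0 j = _
  by_cases h : j = i
  · subst h; simp
  · simp [h]

/-- The `i`-th coordinate as a power of `ζ`. -/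
def coo (i : Fin m) : WW p m →* O where
  toFun w := zp ζ (Multiplicative.toAdd w i)
  map_one' := by simp [zp]
  map_mul' x y := by rw [← zp_add hζ]; rfl

/-- The homomorphism `ℤ[W] → O[W]` which sends the `i`-th generator to `ζ` and keeps the others. -/
def qq (i : Fin m) : MonoidAlgebra ℤ (WW p m) →+* MonoidAlgebra O (WW p m) :=
  (MonoidAlgebra.lift ℤ (MonoidAlgebra O (WW p m)) (WW p m)
    { toFun := fun w => MonoidAlgebra.single (kill i w) (coo hζ i w)
      map_one' := by rw [map_one, map_one]; rfl
      map_mul' := fun x y => by rw [map_mul, map_mul, MonoidAlgebra.single_mul_single] } :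
    MonoidAlgebra ℤ (WW p m) →ₐ[ℤ] MonoidAlgebra O (WW p m))

theorem qq_single (i : Fin m) (w : WW p m) (c : ℤ) :
    qq hζ i (MonoidAlgebra.single w c) = MonoidAlgebra.single (kill i w) ((c : O) * coo hζ i w) := by
  unfold qq
  rw [RingHom.coe_coe, MonoidAlgebra.lift_single, MonoidHom.coe_mk, OneHom.coe_mk,
    MonoidAlgebra.smul_single, zsmul_eq_mul]

/-- The homomorphism `O[W] → O[W]` which kills the `i`-th generator. -/
def rr (O : Type*) [CommRing O] (i : Fin m) : MonoidAlgebra O (WW p m) →+* MonoidAlgebra O (WW p m) :=
  MonoidAlgebra.mapDomainRingHom O (kill i)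

theorem rr_single (i : Fin m) (w : WW p m) (c : O) :
    rr O i (MonoidAlgebra.single w c) = MonoidAlgebra.single (kill i w) c := by
  unfold rr
  simp

theorem kill_kill (i : Fin m) (w : WW p m) : kill i (kill i w) = kill i w := by
  apply Multiplicative.toAdd.injective
  ext j
  rw [kill_apply]
  by_cases h : j = i
  · rw [if_pos h, kill_apply, if_pos h]
  · rw [if_neg h]

theorem rr_qq (i : Fin m) (y : MonoidAlgebra ℤ (WW p m)) : rr O i (qq hζ i y) = qq hζ i y := by
  induction y using MonoidAlgebra.induction_linear with
  | zero => simp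
  | add a b ha hb => rw [map_add, map_add, ha, hb]
  | single w r => rw [qq_single, rr_single, kill_kill]

theorem psi_qq (a : Fin m → ZMod p) (i : Fin m) (y : MonoidAlgebra ℤ (WW p m)) :
    psi hζ a (qq hζ i y) = psz hζ (Function.update a i 1) y := by
  induction y using MonoidAlgebra.induction_linear with
  | zero => simp
  | add a b ha hb => rw [map_add, map_add, map_add, ha, hb]
  | single w r =>
    rw [qq_single, psi_single, psz_single, mul_assoc]
    congr 1
    change zp ζ (Multiplicative.toAdd w i) * _ = _
    rw [chr_apply, chr_apply, ← zp_add hζ]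
    congr 1
    rw [← Finset.add_sum_erase _ _ (Finset.mem_univ i),
      ← Finset.add_sum_erase _ _ (Finset.mem_univ i), kill_apply, if_pos rfl, mul_zero, zero_add,
      Function.update_self, one_mul]
    congr 1
    refine Finset.sum_congr rfl fun j hj => ?_
    have hji : j ≠ i := Finset.ne_of_mem_erase hj
    rw [kill_apply, if_neg hji, Function.update_of_ne hji]

/-- The augmentation ideal of `ℤ[W]`. -/
def IW (p m : ℕ) : Ideal (MonoidAlgebra ℤ (WW p m)) :=
  Ideal.span (Set.range (fun w : WW p m => MonoidAlgebra.single w 1 - 1))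

theorem coo_tt (i : Fin m) : coo hζ i (tt i) = ζ := by
  change zp ζ _ = ζ
  simp [tt, zp_one]

theorem kill_tt (i : Fin m) : kill i (tt i : WW p m) = 1 := by
  apply Multiplicative.toAdd.injective
  ext j
  rw [kill_apply]
  by_cases h : j = i
  · rw [if_pos h]; rfl
  · rw [if_neg h]; simp [tt, h]

theorem coo_kill (i : Fin m) (w : WW p m) : coo hζ i (kill i w) = 1 := by
  change zp ζ _ = 1
  rw [kill_apply, if_pos rfl, zp_zero]

/-- `rr` has its values in the image of `qq`, if `O = ℤ[ζ]`. -/
theorem rr_mem (hO : ∀ o : O, ∃ f : ℤ[X], aeval ζ f = o) (i : Fin m)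
    (c : MonoidAlgebra O (WW p m)) : ∃ c', qq hζ i c' = rr O i c := by
  induction c using MonoidAlgebra.induction_linear with
  | zero => exact ⟨0, by simp⟩
  | add a b ha hb =>
    obtain ⟨a', ha⟩ := ha
    obtain ⟨b', hb⟩ := hb
    exact ⟨a' + b', by rw [map_add, map_add, ha, hb]⟩
  | single w o =>
    obtain ⟨f, rfl⟩ := hO o
    refine ⟨aeval (MonoidAlgebra.single (tt i : WW p m) (1 : ℤ)) f *
      MonoidAlgebra.single (kill i w) 1, ?_⟩
    rw [map_mul, rr_single, qq_single, coo_kill, kill_kill, Int.cast_one, mul_one]
    have h1 : qq hζ i (aeval (MonoidAlgebra.single (tt i : WW p m) (1 : ℤ)) f) =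
        MonoidAlgebra.single 1 (aeval ζ f) := by
      induction f using Polynomial.induction_on' with
      | add f g hf hg => rw [map_add, map_add, map_add, hf, hg, MonoidAlgebra.single_add]
      | monomial n a =>
        rw [aeval_monomial, aeval_monomial, map_mul, map_pow, qq_single, coo_tt, kill_tt,
          MonoidAlgebra.single_pow, one_pow, Int.cast_one, one_mul]
        have h2 : qq hζ i ((algebraMap ℤ (MonoidAlgebra ℤ (WW p m))) a) =
            MonoidAlgebra.single 1 ((algebraMap ℤ O) a) := by
          have h3 : (algebraMap ℤ (MonoidAlgebra ℤ (WW p m))) a = MonoidAlgebra.single 1 a := rfl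
          rw [h3, qq_single, map_one, map_one, mul_one]
          rfl
        rw [h2, MonoidAlgebra.single_mul_single, one_mul]
    rw [h1, MonoidAlgebra.single_mul_single, one_mul, mul_one]

/-- `rr` maps `MM ^ k` to the image of `IW ^ k`. -/
theorem rr_pow (hO : ∀ o : O, ∃ f : ℤ[X], aeval ζ f = o) (i : Fin m) (k : ℕ)
    (b : MonoidAlgebra O (WW p m)) (hb : b ∈ (MM ζ p m) ^ k) :
    ∃ z ∈ (IW p m) ^ k, qq hζ i z = rr O i b := by
  induction k generalizing b with
  | zero =>
    obtain ⟨c', h⟩ := rr_mem hζ hO i b
    exact ⟨c', by rw [pow_zero, Ideal.one_eq_top]; trivial, h⟩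
  | succ k ih =>
    rw [pow_succ] at hb
    refine Submodule.mul_induction_on hb ?_ ?_
    · intro x hx y hy
      obtain ⟨x', hx', hx''⟩ := ih x hx
      have : ∃ y' ∈ IW p m, qq hζ i y' = rr O i y := by
        refine Submodule.span_induction ?_ ?_ ?_ ?_ hy
        · rintro z (hz | ⟨w, rfl⟩)
          · rw [Set.mem_singleton_iff] at hz
            refine ⟨MonoidAlgebra.single (tt i) 1 - 1, Ideal.subset_span ⟨_, rfl⟩, ?_⟩
            rw [hz, map_sub, qq_single, coo_tt, kill_tt, map_one, Int.cast_one, one_mul]
            have h3 : (algebraMap O (MonoidAlgebra O (WW p m))) (ζ - 1) =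
              MonoidAlgebra.single 1 (ζ - 1) := rfl
            rw [h3, rr_single, map_one, MonoidAlgebra.single_sub]
            rfl
          · refine ⟨MonoidAlgebra.single (kill i w) 1 - 1, Ideal.subset_span ⟨_, rfl⟩, ?_⟩
            rw [map_sub, qq_single, coo_kill, kill_kill, map_one, Int.cast_one, one_mul, map_sub,
              rr_single, map_one]
        · exact ⟨0, Ideal.zero_mem _, by simp⟩
        · rintro a b _ _ ⟨a', ha1, ha2⟩ ⟨b', hb1, hb2⟩
          exact ⟨a' + b', Ideal.add_mem _ ha1 hb1, by rw [map_add, map_add, ha2, hb2]⟩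
        · rintro c b _ ⟨b', hb1, hb2⟩
          obtain ⟨c', hc⟩ := rr_mem hζ hO i c
          exact ⟨c' * b', Ideal.mul_mem_left _ _ hb1, by
            rw [smul_eq_mul, map_mul, map_mul, hb2, hc]⟩
      obtain ⟨y', hy1, hy2⟩ := this
      exact ⟨x' * y', by rw [pow_succ]; exact Ideal.mul_mem_mul hx' hy1, by
        rw [map_mul, map_mul, hx'', hy2]⟩
    · rintro a b ⟨a', ha1, ha2⟩ ⟨b', hb1, hb2⟩
      exact ⟨a' + b', Ideal.add_mem _ ha1 hb1, by rw [map_add, map_add, ha2, hb2]⟩

/-- The kernel of `qq` is killed by `t_i - 1`. -/
theorem ker_qq (hker : ∀ n : ZMod p → ℤ, ∑ c, (n c : O) * zp ζ c = 0 → ∀ c c', n c = n c')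
    (i : Fin m) (y : MonoidAlgebra ℤ (WW p m)) (hy : qq hζ i y = 0) :
    (MonoidAlgebra.single (tt i) 1 - 1) * y = 0 := by
  classical
  -- coefficients of `qq y`
  have hcoef : ∀ (y : MonoidAlgebra ℤ (WW p m)) (u : WW p m), Multiplicative.toAdd u i = 0 →
      (qq hζ i y).coeff u =
        ∑ c : ZMod p, ((y.coeff (u * (tt i) ^ c.val) : ℤ) : O) * zp ζ c := by
    intro y u hu
    induction y using MonoidAlgebra.induction_linear with
    | zero => simp
    | add a b ha hb =>
      rw [map_add, MonoidAlgebra.coeff_add, Finsupp.add_apply, ha, hb, ← Finset.sum_add_distrib]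
      refine Finset.sum_congr rfl fun c _ => ?_
      rw [MonoidAlgebra.coeff_add, Finsupp.add_apply]
      push_cast
      ring
    | single w r =>
      rw [qq_single]
      have hw : ∀ c : ZMod p, (w = u * (tt i) ^ c.val) ↔
          (kill i w = u ∧ Multiplicative.toAdd w i = c) := by
        intro c
        constructor
        · rintro rfl
          constructor
          · rw [map_mul, map_pow, kill_tt, one_pow, mul_one]
            apply Multiplicative.toAdd.injective
            ext j
            rw [kill_apply]
            by_cases h : j = i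
            · rw [if_pos h, h, hu]
            · rw [if_neg h]
          · rw [toAdd_mul, Pi.add_apply, hu, zero_add, toAdd_pow]
            simp [tt]
        · rintro ⟨h1, h2⟩
          apply Multiplicative.toAdd.injective
          ext j
          rw [toAdd_mul, Pi.add_apply, toAdd_pow, ← h1, kill_apply]
          by_cases h : j = i
          · rw [if_pos h, h, h2]
            simp [tt]
          · rw [if_neg h]
            simp [tt, h]
      simp only [MonoidAlgebra.coeff_single, Finsupp.single_apply]
      by_cases h : kill i w = u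
      · rw [if_pos h, Finset.sum_eq_single (Multiplicative.toAdd w i)]
        · rw [if_pos ((hw _).2 ⟨h, rfl⟩)]
          rfl
        · intro c _ hc
          rw [if_neg, Int.cast_zero, zero_mul]
          intro h3
          exact hc ((hw c).1 h3).2.symm
        · intro h3
          exact absurd (Finset.mem_univ _) h3
      · rw [if_neg h]
        symm
        refine Finset.sum_eq_zero fun c _ => ?_
        rw [if_neg, Int.cast_zero, zero_mul]
        intro h3
        exact h ((hw c).1 h3).1
  have hinv : ∀ (u : WW p m), Multiplicative.toAdd u i = 0 → ∀ c c' : ZMod p,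
      y.coeff (u * (tt i) ^ c.val) = y.coeff (u * (tt i) ^ c'.val) := by
    intro u hu
    apply hker
    rw [← hcoef y u hu, hy]
    simp
  have hall : ∀ w : WW p m, y.coeff ((tt i)⁻¹ * w) = y.coeff w := by
    intro w
    have h1 : ∀ w : WW p m, w = kill i w * (tt i) ^ (Multiplicative.toAdd w i).val := by
      intro w
      apply Multiplicative.toAdd.injective
      ext j
      rw [toAdd_mul, Pi.add_apply, toAdd_pow, kill_apply]
      by_cases h : j = i
      · rw [if_pos h, h]
        simp [tt]
      · rw [if_neg h]
        simp [tt, h]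
    have h2 : kill i ((tt i)⁻¹ * w) = kill i w := by
      rw [map_mul, map_inv, kill_tt, inv_one, one_mul]
    have h3 := h1 ((tt i)⁻¹ * w)
    rw [h2] at h3
    have h4 := hinv (kill i w) (by rw [kill_apply, if_pos rfl])
      (Multiplicative.toAdd ((tt i)⁻¹ * w : WW p m) i) (Multiplicative.toAdd w i)
    rw [← h3, ← h1 w] at h4
    exact h4
  rw [sub_mul, one_mul, sub_eq_zero]
  ext w
  rw [MonoidAlgebra.coeff_single_mul_apply, one_mul, hall]

end

section main

variable {O : Type*} [CommRing O] [IsDomain O] {p : ℕ} [hp : Fact p.Prime] {ζ : O}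
  (hζ : IsPrimitiveRoot ζ p) {m : ℕ}

include hζ in
/-- **Detection for elementary abelian groups.** An element of `ℤ[W]` all of whose character values
are divisible by `π ^ n` and whose degree is zero is in `I ^ n`. -/
theorem detect (hO : ∀ o : O, ∃ f : ℤ[X], aeval ζ f = o)
    (hker : ∀ n : ZMod p → ℤ, ∑ c, (n c : O) * zp ζ c = 0 → ∀ c c', n c = n c') (n : ℕ)
    (x : MonoidAlgebra ℤ (WW p m)) (h0 : psz hζ.pow_eq_one 0 x = 0)
    (h : ∀ a : Fin m → ZMod p, (ζ - 1) ^ n ∣ psz hζ.pow_eq_one a x) : x ∈ (IW p m) ^ n := by
  have hne : ζ - 1 ≠ 0 := sub_one_ne_zero' hζ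
  -- the degree as an integer
  have hint : ∀ c : ℤ, (c : O) = 0 → c = 0 := by
    intro c hc
    by_contra hc0
    have h1 := hker (fun d => if d = 0 then c else 0) (by
      refine Finset.sum_eq_zero fun d _ => ?_
      by_cases hd : d = 0
      · rw [if_pos hd, hc, zero_mul]
      · rw [if_neg hd, Int.cast_zero, zero_mul]) 0 1
    simp only [if_pos] at h1
    rw [if_neg one_ne_zero] at h1
    exact hc0 h1
  have key : ∀ (J : Finset (Fin m)) (x : MonoidAlgebra ℤ (WW p m)),
      x ∈ Algebra.adjoin ℤ ((fun i : Fin m => MonoidAlgebra.single (tt i : WW p m) (1 : ℤ)) ''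
        (J : Set (Fin m))) → psz hζ.pow_eq_one 0 x = 0 →
      (∀ a : Fin m → ZMod p, (ζ - 1) ^ n ∣ psz hζ.pow_eq_one a x) → x ∈ (IW p m) ^ n := by
    intro J
    induction J using Finset.induction_on with
    | empty =>
      intro x hx hx0 _
      rw [Finset.coe_empty, Set.image_empty, Algebra.adjoin_empty] at hx
      obtain ⟨c, rfl⟩ := Algebra.mem_bot.1 hx
      rw [eq_intCast, map_intCast] at hx0
      rw [hint c hx0, eq_intCast, Int.cast_zero]
      exact Ideal.zero_mem _
    | insert i J hi ih =>
      intro x hx hx0 hxa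
      set R := Algebra.adjoin ℤ ((fun i : Fin m => MonoidAlgebra.single (tt i : WW p m) (1 : ℤ)) ''
        (J : Set (Fin m))) with hR
      set t : MonoidAlgebra ℤ (WW p m) := MonoidAlgebra.single (tt i : WW p m) (1 : ℤ) with ht
      have hpoly : ∃ F : R[X], aeval t F = x := by
        rw [Finset.coe_insert, Set.image_insert_eq, Set.insert_eq, Set.union_comm,
          Algebra.adjoin_union] at hx
        have h1 : R ⊔ Algebra.adjoin ℤ {t} ≤
            (Algebra.adjoin R ({t} : Set (MonoidAlgebra ℤ (WW p m)))).restrictScalars ℤ := by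
          refine sup_le ?_ ?_
          · intro r hr
            exact (Algebra.adjoin R ({t} : Set _)).algebraMap_mem ⟨r, hr⟩
          · refine Algebra.adjoin_le ?_
            intro z hz
            exact Algebra.subset_adjoin hz
        have h2 := h1 hx
        rw [Subalgebra.mem_restrictScalars, Algebra.adjoin_singleton_eq_range_aeval] at h2
        exact h2
      obtain ⟨F, hF⟩ := hpoly
      obtain ⟨x₀, Q, hQ⟩ : ∃ (x₀ : R) (Q : R[X]), F = C x₀ + (X - C 1) * Q := by
        refine ⟨F.eval 1, F /ₘ (X - C 1), ?_⟩
        have := modByMonic_add_div F (X - C (1 : R))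
        rw [modByMonic_X_sub_C_eq_C_eval] at this
        exact this.symm
      have hx1 : x = (x₀ : MonoidAlgebra ℤ (WW p m)) + (t - 1) * aeval t Q := by
        rw [← hF]
        conv_lhs => rw [hQ]
        have e1 : aeval t (X - C (1 : R)) = t - 1 := by
          refine (map_sub (aeval t) (X : R[X]) (C 1)).trans ?_
          rw [aeval_X, aeval_C, map_one]
        rw [map_add, map_mul, e1, aeval_C]
        rfl
      set y := aeval t Q with hy
      -- values on `R` do not depend on the `i`-th coordinate
      have hRval : ∀ (r : MonoidAlgebra ℤ (WW p m)), r ∈ R → ∀ (a : Fin m → ZMod p) (c : ZMod p),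
          psz hζ.pow_eq_one (Function.update a i c) r = psz hζ.pow_eq_one a r := by
        intro r hr a c
        induction hr using Algebra.adjoin_induction with
        | mem x hx =>
          obtain ⟨j, hj, rfl⟩ := hx
          rw [psz_single, psz_single, chr_tt, chr_tt, Function.update_of_ne]
          rintro rfl
          exact hi hj
        | algebraMap r => rw [eq_intCast, map_intCast, map_intCast]
        | add x y _ _ hx hy => rw [map_add, map_add, hx, hy]
        | mul x y _ _ hx hy => rw [map_mul, map_mul, hx, hy]
      have htval : ∀ a : Fin m → ZMod p, psz hζ.pow_eq_one a t = zp ζ (a i) := by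
        intro a
        rw [ht, psz_single, chr_tt, Int.cast_one, one_mul]
      have hx0val : ∀ a : Fin m → ZMod p, psz hζ.pow_eq_one a (x₀ : MonoidAlgebra ℤ (WW p m)) =
          psz hζ.pow_eq_one (Function.update a i 0) x := by
        intro a
        rw [hx1, map_add, map_mul, map_sub, htval, Function.update_self, zp_zero, map_one, sub_self,
          zero_mul, add_zero, hRval _ x₀.2]
      have hx0mem : (x₀ : MonoidAlgebra ℤ (WW p m)) ∈ (IW p m) ^ n := by
        refine ih _ x₀.2 ?_ ?_
        · rw [hx0val]
          have : Function.update (0 : Fin m → ZMod p) i 0 = 0 := by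
            ext j
            by_cases h : j = i
            · subst h; simp
            · simp
          rw [this, hx0]
        · intro a
          rw [hx0val]
          exact hxa _
      rw [hx1]
      refine Ideal.add_mem _ hx0mem ?_
      rcases n with _ | n
      · rw [pow_zero, Ideal.one_eq_top]; trivial
      have hyval : ∀ a : Fin m → ZMod p, (ζ - 1) ^ n ∣ psi hζ.pow_eq_one a
          (qq hζ.pow_eq_one i y) := by
        intro a
        rw [psi_qq]
        have h1 := hxa (Function.update a i 1)
        rw [hx1, map_add, map_mul, map_sub, htval, Function.update_self, zp_one, map_one] at h1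
        have h2 : (ζ - 1) ^ (n + 1) ∣ psz hζ.pow_eq_one (Function.update a i 1)
            (x₀ : MonoidAlgebra ℤ (WW p m)) := by
          rw [hx0val]
          exact hxa _
        have h3 := (dvd_add_right h2).1 h1
        rw [pow_succ'] at h3
        exact (mul_dvd_mul_iff_left hne).1 h3
      have hmem := good hζ n _ hyval
      obtain ⟨z, hz1, hz2⟩ := rr_pow hζ.pow_eq_one hO i n _ hmem
      rw [rr_qq] at hz2
      have hk := ker_qq hζ.pow_eq_one hker i (y - z) (by rw [map_sub, hz2, sub_self])
      have : (t - 1) * y = (t - 1) * z := by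
        rw [mul_sub, sub_eq_zero] at hk
        exact hk
      rw [this, pow_succ']
      exact Ideal.mul_mem_mul (Ideal.subset_span ⟨tt i, rfl⟩) hz1
  refine key Finset.univ x ?_ h0 h
  rw [Finset.coe_univ, adjoin_univ]
  exact Algebra.mem_top

end main

end Run7.h743
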