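import Pool.Agent.Run7.h743.Norm

/-!
# Equivariant homomorphisms `O_{E,S,T}^× → ℤ[G/N]` and their extension
-/

set_option autoImplicit false
set_option linter.unusedSectionVars false

open NumberField IsDedekindDomain Filter Topology

noncomputable section

namespace Run7.h743

open Pool.Agent.K3h30.RS

variable {k K G : Type} [Field k] [NumberField k] [Field K] [NumberField K] [Algebra k K]
  [CommGroup G] [Finite G] [MulSemiringAction G K] [IsGaloisGroup G k K]

namespace STData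

variable (D : STData k K)

/-- the action of `γ`, additively -/
def actA (N : Subgroup G) (γ : G) : Additive (D.UN N) →+ Additive (D.UN N) :=
  MonoidHom.toAdditive (D.actU N γ)

theorem actA_apply (N : Subgroup G) (γ : G) (x : D.UN N) :
    D.actA N γ (Additive.ofMul x) = Additive.ofMul (D.actU N γ x) := rfl

theorem actU_mk {N : Subgroup G} {γ γ' : G} (h : (γ : G ⧸ N) = (γ' : G ⧸ N)) :
    D.actU N γ = D.actU N γ' := by
  ext x
  change ((act γ (x : Kˣ) : Kˣ) : K) = ((act γ' (x : Kˣ) : Kˣ) : K)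
  rw [D.act_eq_of_mk x.2 h]

theorem actU_mul (N : Subgroup G) (γ γ' : G) (x : D.UN N) :
    D.actU N γ (D.actU N γ' x) = D.actU N (γ * γ') x := by
  apply Subtype.ext
  exact act_act' γ γ' (x : Kˣ)

theorem actU_one (N : Subgroup G) (x : D.UN N) : D.actU N 1 x = x := by
  apply Subtype.ext
  exact Pool.Agent.K3h30.RS.act_one _

/-- the homomorphism `x ↦ ∑ f (c⁻¹ x) c` -/
def mkF (N : Subgroup G) (f : Additive (D.UN N) →+ ℤ) :
    Additive (D.UN N) →+ MonoidAlgebra ℤ (G ⧸ N) :=
  letI := Fintype.ofFinite (G ⧸ N)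
  { toFun := fun a => ∑ c : G ⧸ N, MonoidAlgebra.single c (f (D.actA N (c.out)⁻¹ a))
    map_zero' := by simp
    map_add' := fun a b => by
      rw [← Finset.sum_add_distrib]
      refine Finset.sum_congr rfl fun c _ => ?_
      rw [map_add, map_add, MonoidAlgebra.single_add] }

theorem mkF_coeff (N : Subgroup G) (f : Additive (D.UN N) →+ ℤ) (a : Additive (D.UN N)) (g : G) :
    (D.mkF N f a).coeff (g : G ⧸ N) = f (D.actA N g⁻¹ a) := by
  classical
  let _ := Fintype.ofFinite (G ⧸ N)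
  unfold mkF
  rw [AddMonoidHom.coe_mk, ZeroHom.coe_mk, MonoidAlgebra.coeff_sum, Finset.sum_apply']
  simp only [MonoidAlgebra.coeff_single, Finsupp.single_apply]
  rw [Finset.sum_ite_eq', if_pos (Finset.mem_univ _)]
  have h : ((((g : G ⧸ N)).out)⁻¹ : G ⧸ N) = (g⁻¹ : G) := by
    rw [QuotientGroup.mk_inv, QuotientGroup.out_eq']
  unfold actA
  rw [D.actU_mk (γ := (((g : G ⧸ N)).out)⁻¹) (γ' := g⁻¹) (by rw [← h]; rfl)]

/-- the equivariant homomorphism with the given coefficient at `1` -/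
def mkG (N : Subgroup G) (f : Additive (D.UN N) →+ ℤ) : D.GHm N where
  f := D.mkF N f
  equiv := by
    intro γ x y hxy
    ext c
    obtain ⟨g, rfl⟩ := QuotientGroup.mk_surjective c
    rw [MonoidAlgebra.coeff_single_mul_apply, one_mul, ← QuotientGroup.mk_inv,
      ← QuotientGroup.mk_mul, mkF_coeff, mkF_coeff, actA_apply, actA_apply]
    congr 2
    apply Subtype.ext
    change act g⁻¹ (y : Kˣ) = act (γ⁻¹ * g)⁻¹ (x : Kˣ)
    rw [hxy, act_act', mul_inv_rev, inv_inv]

theorem mkG_coeff (N : Subgroup G) (f : Additive (D.UN N) →+ ℤ) (x : D.UN N) (g : G) :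
    ((D.mkG N f).f (Additive.ofMul x)).coeff (g : G ⧸ N) = f (Additive.ofMul (D.actU N g⁻¹ x)) :=
  D.mkF_coeff N f _ g

/-- the coefficient at `1` of the image -/
def cf1 {N : Subgroup G} (φ : D.GHm N) : Additive (D.UN N) →+ ℤ where
  toFun a := (φ.f a).coeff 1
  map_zero' := by simp
  map_add' a b := by rw [map_add, MonoidAlgebra.coeff_add, Finsupp.add_apply]

theorem coeff_eq {N : Subgroup G} (φ : D.GHm N) (x : D.UN N) (g : G) :
    (φ.f (Additive.ofMul x)).coeff (g : G ⧸ N) = D.cf1 φ (Additive.ofMul (D.actU N g⁻¹ x)) := by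
  change _ = (φ.f (Additive.ofMul (D.actU N g⁻¹ x))).coeff 1
  rw [φ.equiv g⁻¹ x (D.actU N g⁻¹ x) rfl, MonoidAlgebra.coeff_single_mul_apply, one_mul, mul_one,
    ← QuotientGroup.mk_inv, inv_inv]

theorem ghm_ext {N : Subgroup G} {φ φ' : D.GHm N} (h : D.cf1 φ = D.cf1 φ') : φ = φ' := by
  have h1 : φ.f = φ'.f := by
    ext x c
    obtain ⟨g, rfl⟩ := QuotientGroup.mk_surjective c
    change (φ.f (Additive.ofMul x)).coeff (g : G ⧸ N) = (φ'.f (Additive.ofMul x)).coeff (g : G ⧸ N)
    rw [D.coeff_eq, D.coeff_eq, h]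
  cases φ
  cases φ'
  congr

/-- the inclusion -/
def inclA {M N : Subgroup G} (h : M ≤ N) : Additive (D.UN N) →+ Additive (D.UN M) :=
  MonoidHom.toAdditive (Subgroup.inclusion (D.UN_mono h))

theorem incl_act {M N : Subgroup G} (h : M ≤ N) {a : D.UN M} {b : D.UN N} (hab : (a : Kˣ) = (b : Kˣ))
    (g : G) : D.actU M g a = Subgroup.inclusion (D.UN_mono h) (D.actU N g b) := by
  apply Subtype.ext
  change act g (a : Kˣ) = act g (b : Kˣ)
  rw [hab]

/-- `Restr` in terms of the coefficients at `1` -/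
theorem restr_iff {M N : Subgroup G} (h : M ≤ N) (φ : D.GHm M) (φ' : D.GHm N) :
    D.Restr φ φ' ↔ (D.cf1 φ).comp (D.inclA h) = D.cf1 φ' := by
  constructor
  · intro H
    ext x
    have := H ⟨(x : Kˣ), D.UN_mono h x.2⟩ x rfl 1
    exact this
  · intro H a b hab g
    rw [D.coeff_eq, D.coeff_eq, ← H, D.incl_act h hab]
    rfl

theorem restr_trans {M N H : Subgroup G} (h : M ≤ N) (h' : N ≤ H) {φ : D.GHm M} {φ' : D.GHm N}
    {φ'' : D.GHm H} (h1 : D.Restr φ φ') (h2 : D.Restr φ φ'') : D.Restr φ' φ'' := by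
  intro a b hab g
  have h3 := h1 ⟨(a : Kˣ), D.UN_mono h a.2⟩ a rfl g
  have h4 := h2 ⟨(a : Kˣ), D.UN_mono h a.2⟩ b hab g
  rw [← h3, h4]

theorem restr_trans' {M N H : Subgroup G} (h : M ≤ N) (h' : N ≤ H) {φ : D.GHm M} {φ' : D.GHm N}
    {φ'' : D.GHm H} (h1 : D.Restr φ φ') (h2 : D.Restr φ' φ'') : D.Restr φ φ'' := by
  intro a b hab g
  have h3 := h1 a ⟨(b : Kˣ), D.UN_mono h' b.2⟩ hab g
  have h4 := h2 ⟨(b : Kˣ), D.UN_mono h' b.2⟩ b rfl g
  rw [h3, h4]

/-- restriction of homomorphisms -/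
theorem exists_restr {M N : Subgroup G} (h : M ≤ N) (φ : D.GHm M) : ∃ φ' : D.GHm N, D.Restr φ φ' := by
  refine ⟨D.mkG N ((D.cf1 φ).comp (D.inclA h)), ?_⟩
  intro a b hab g
  rw [D.mkG_coeff, D.coeff_eq, D.incl_act h hab]
  rfl

instance finUN (N : Subgroup G) : Module.Finite ℤ (Additive (D.UN N)) := by
  have h1 : AddGroup.FG (Additive (Pool.Agent.K3h40.RS.US D.S K)) :=
    fgA Pool.Agent.K3h25.RS.t_OVER D.S
  have h2 : Module.Finite ℤ (Additive (Pool.Agent.K3h40.RS.US D.S K)) :=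
    Module.Finite.iff_addGroup_fg.2 h1
  let f : Additive (D.UN N) →+ Additive (Pool.Agent.K3h40.RS.US D.S K) :=
    MonoidHom.toAdditive (Subgroup.inclusion (D.UN_le N))
  have hf : Function.Injective f.toIntLinearMap := by
    intro a b hab
    exact Subgroup.inclusion_injective (D.UN_le N) hab
  exact Module.Finite.of_injective f.toIntLinearMap hf

theorem tfUN (N : Subgroup G) (x : D.UN N) (n : ℕ) (hn : 0 < n) (h : x ^ n = 1) : x = 1 := by
  apply Subtype.ext
  refine D.torsionFree (x : Kˣ) x.2.1 n hn ?_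
  have := congrArg Subtype.val h
  simpa using this

instance freeUN (N : Subgroup G) : Module.Free ℤ (Additive (D.UN N)) := by
  have h1 : IsAddTorsionFree (Additive (D.UN N)) := by
    rw [isAddTorsionFree_iff_not_isOfFinAddOrder]
    intro a ha h
    obtain ⟨n, hn, h2⟩ := isOfFinAddOrder_iff_nsmul_eq_zero.1 h
    exact ha (D.tfUN N (Additive.toMul a) n hn h2)
  exact Module.free_of_finite_type_torsion_free'

/-- extension of homomorphisms to `ℤ` -/
theorem exists_extZ {M N : Subgroup G} (h : M ≤ N) (f : Additive (D.UN N) →+ ℤ) :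
    ∃ F : Additive (D.UN M) →+ ℤ, F.comp (D.inclA h) = f := by
  let j : Additive (D.UN N) →ₗ[ℤ] Additive (D.UN M) := (D.inclA h).toIntLinearMap
  have hj : Function.Injective j := Subgroup.inclusion_injective (D.UN_mono h)
  have hq : IsAddTorsionFree (Additive (D.UN M) ⧸ LinearMap.range j) := by
    rw [isAddTorsionFree_iff_not_isOfFinAddOrder]
    intro a ha h0
    obtain ⟨n, hn, h2⟩ := isOfFinAddOrder_iff_nsmul_eq_zero.1 h0
    obtain ⟨y, rfl⟩ := Submodule.mkQ_surjective _ a
    apply ha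
    rw [← map_nsmul, Submodule.mkQ_apply, Submodule.Quotient.mk_eq_zero] at h2
    obtain ⟨b, hb⟩ := h2
    rw [Submodule.mkQ_apply, Submodule.Quotient.mk_eq_zero]
    have h3 : ∀ γ ∈ N, act γ ((Additive.toMul y : D.UN M) : Kˣ) = ((Additive.toMul y : D.UN M) : Kˣ) := by
      intro γ hγ
      have h4 : (((Additive.toMul y : D.UN M) : Kˣ)) ^ n = ((Additive.toMul b : D.UN N) : Kˣ) := by
        have := congrArg (fun z => ((Additive.toMul z : D.UN M) : Kˣ)) hb
        exact this.symm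
      have h5 : act γ ((Additive.toMul b : D.UN N) : Kˣ) = ((Additive.toMul b : D.UN N) : Kˣ) :=
        (Additive.toMul b : D.UN N).2.2 γ hγ
      rw [← h4, act_pow] at h5
      have h6 : D.actU M γ (Additive.toMul y) * (Additive.toMul y)⁻¹ = 1 := by
        refine D.tfUN M _ n hn ?_
        apply Subtype.ext
        change (act γ ((Additive.toMul y : D.UN M) : Kˣ) *
          ((Additive.toMul y : D.UN M) : Kˣ)⁻¹) ^ n = 1
        rw [mul_pow, h5, inv_pow, mul_inv_cancel]
      have h7 := congrArg Subtype.val (mul_inv_eq_one.1 h6)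
      exact h7
    refine ⟨Additive.ofMul ⟨((Additive.toMul y : D.UN M) : Kˣ), (Additive.toMul y : D.UN M).2.1, h3⟩, rfl⟩
  have hfree : Module.Free ℤ (Additive (D.UN M) ⧸ LinearMap.range j) :=
    Module.free_of_finite_type_torsion_free'
  obtain ⟨s, hs⟩ := Module.projective_lifting_property (LinearMap.range j).mkQ LinearMap.id
    (Submodule.mkQ_surjective _)
  have hs' : ∀ c, (LinearMap.range j).mkQ (s c) = c := fun c => LinearMap.congr_fun hs c
  have hr : ∀ y, y - s ((LinearMap.range j).mkQ y) ∈ LinearMap.range j := by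
    intro y
    rw [← Submodule.Quotient.mk_eq_zero, ← Submodule.mkQ_apply, map_sub, hs', sub_self]
  let e : Additive (D.UN N) ≃ₗ[ℤ] LinearMap.range j := LinearEquiv.ofInjective j hj
  let r : Additive (D.UN M) →ₗ[ℤ] LinearMap.range j :=
    (LinearMap.id - s.comp (LinearMap.range j).mkQ).codRestrict (LinearMap.range j) hr
  refine ⟨f.comp ((e.symm.toLinearMap.comp r).toAddMonoidHom), ?_⟩
  ext x
  have h1 : r (j (Additive.ofMul x)) = e (Additive.ofMul x) := by
    apply Subtype.ext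
    change j (Additive.ofMul x) - s ((LinearMap.range j).mkQ (j (Additive.ofMul x))) = j _
    have : (LinearMap.range j).mkQ (j (Additive.ofMul x)) = 0 := by
      rw [Submodule.mkQ_apply, Submodule.Quotient.mk_eq_zero]
      exact ⟨_, rfl⟩
    rw [this, map_zero, sub_zero]
  change f (e.symm (r (j (Additive.ofMul x)))) = f _
  rw [h1, LinearEquiv.symm_apply_apply]

/-- extension of equivariant homomorphisms -/
theorem exists_ext {M N : Subgroup G} (h : M ≤ N) (φ' : D.GHm N) : ∃ φ : D.GHm M, D.Restr φ φ' := by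
  obtain ⟨F, hF⟩ := D.exists_extZ h (D.cf1 φ')
  refine ⟨D.mkG M F, ?_⟩
  intro a b hab g
  rw [D.mkG_coeff, D.coeff_eq, ← hF, D.incl_act h hab]
  rfl

end STData

end Run7.h743
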