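import Pool.Agent.Run7.h743.MainA

/-!
# Change of the lifts, of the index set and of the base field `L`
-/

set_option autoImplicit false
set_option linter.unusedSectionVars false

open NumberField IsDedekindDomain Filter Topology

noncomputable section

namespace Run7.h743

open Pool.Agent.K3h30.RS

variable {k K G : Type} [Field k] [NumberField k] [Field K] [NumberField K] [Algebra k K]
  [CommGroup G] [Finite G] [MulSemiringAction G K] [IsGaloisGroup G k K]

namespace STData

variable (D : STData k K)

section reindex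

variable {κ κ' : Type} [Fintype κ] [DecidableEq κ] [Fintype κ'] [DecidableEq κ'] {N : Subgroup G}

/-- change of the index set -/
def reix (e : κ ≃ κ') (u : D.Elt N κ) : D.Elt N κ' where
  n := u.n
  c := u.c
  x j i := u.x j (e.symm i)

theorem reix_val (e : κ ≃ κ') (u : D.Elt N κ) (φ : κ' → D.GHm N) :
    (D.reix e u).val φ = u.val (fun i => φ (e i)) := by
  unfold Elt.val
  refine Finset.sum_congr rfl fun j _ => ?_
  congr 2
  rw [← Matrix.det_submatrix_equiv_self e.symm]
  congr 1
  refine Matrix.ext fun a b => ?_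
  simp [reix]

theorem reix_reg (e : κ ≃ κ') (u : D.Elt N κ) (w : κ' → Place K) :
    (D.reix e u).reg w = u.reg (fun i => w (e i)) := by
  unfold Elt.reg
  refine Finset.sum_congr rfl fun j _ => ?_
  congr 1
  rw [← Matrix.det_submatrix_equiv_self e.symm]
  congr 1
  refine Matrix.ext fun a b => ?_
  simp [reix]

omit [Fintype κ] [DecidableEq κ] [Fintype κ'] [DecidableEq κ'] in
theorem active_reix (e : κ ≃ κ') (w : κ' → Place K) (χ : G →* ℂˣ) :
    D.Active w χ ↔ D.Active (fun i => w (e i)) χ := by
  have h1 : ∀ u : Place K, (∀ i, ¬ Conj G u (w i)) ↔ ∀ i, ¬ Conj G u (w (e i)) :=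
    fun u => e.surjective.forall
  unfold Active
  simp only [h1]

theorem reix_isRS (e : κ ≃ κ') (u : D.Elt N κ) (w : κ' → Place K)
    (hu : D.IsRS N (fun i => w (e i)) u) : D.IsRS N w (D.reix e u) where
  integral φ := by
    rw [D.reix_val]
    exact hu.integral _
  support χ hχ φ := by
    rw [D.reix_val]
    refine hu.support χ ?_ _
    rwa [← D.active_reix e]
  leading χ := by
    rw [D.reix_reg, ← Fintype.card_congr e]
    exact hu.leading χ

end reindex

section homs

variable {N : Subgroup G}

/-- zero -/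
def zeroG (N : Subgroup G) : D.GHm N := D.mkG N 0

/-- the difference -/
def subG (φ φ' : D.GHm N) : D.GHm N := D.mkG N (D.cf1 φ - D.cf1 φ')

theorem cf1_mkG (f : Additive (D.UN N) →+ ℤ) : D.cf1 (D.mkG N f) = f := by
  refine AddMonoidHom.ext fun x => ?_
  change (((D.mkG N f).f (Additive.ofMul (Additive.toMul x))).coeff ((1 : G) : G ⧸ N)) = f x
  rw [D.mkG_coeff, inv_one, D.actU_one]
  rfl

theorem cf1_zeroG : D.cf1 (D.zeroG N) = 0 := D.cf1_mkG _

theorem cf1_subG (φ φ' : D.GHm N) : D.cf1 (D.subG φ φ') = D.cf1 φ - D.cf1 φ' := D.cf1_mkG _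

variable {κ : Type} [Fintype κ] [DecidableEq κ]

theorem val_zero (u : D.Elt N κ) (Φ : κ → D.GHm N) (j : κ) (h : Φ j = D.zeroG N) :
    u.val Φ = 0 := by
  have h1 := D.val_update u Φ j (Φ j) (∅ : Finset Unit) (fun _ => D.zeroG N) (fun _ => 0) (by
    rw [h, cf1_zeroG, Finset.sum_empty])
  rw [Function.update_eq_self, Finset.sum_empty] at h1
  exact h1

theorem val_sub (u : D.Elt N κ) (Φ : κ → D.GHm N) (j : κ) (a b : D.GHm N) :
    u.val (Function.update Φ j (D.subG a b)) =
      u.val (Function.update Φ j a) - u.val (Function.update Φ j b) := by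
  have h1 := D.val_update u Φ j (D.subG a b) (Finset.univ : Finset Bool)
    (fun t => if t then a else b) (fun t => if t then 1 else -1) (by
      rw [cf1_subG, Fintype.sum_bool]
      simp [sub_eq_add_neg])
  rw [Fintype.sum_bool] at h1
  rw [h1]
  simp [sub_eq_add_neg]

end homs

section lifts

variable {ι δ : Type} [Fintype ι] [DecidableEq ι] [Fintype δ] [DecidableEq δ]

/-- existence of lifts -/
theorem exists_lifts {H : Subgroup G} (ρ : D.UN H →* G) (hρ : ∀ a, ρ a ∈ H) :
    ∃ ψ : H → D.GHm H, ∀ N : Subgroup G, D.Lifts N ρ ψ := by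
  classical
  let _ := Fintype.ofFinite H
  let B := Module.finBasis ℤ (Additive (D.UN H))
  let f : H → (Additive (D.UN H) →ₗ[ℤ] ℤ) := fun h =>
    B.constr ℤ (fun i => if ρ (Additive.toMul (B i)) = (h : G) then (1 : ℤ) else 0)
  let L1 : Additive (D.UN H) →ₗ[ℤ] Additive G := (MonoidHom.toAdditive ρ).toIntLinearMap
  let L2 : Additive (D.UN H) →ₗ[ℤ] Additive G :=
    ∑ h : H, (f h).smulRight (Additive.ofMul (h : G))
  have hL : L1 = L2 := by
    refine B.ext fun i => ?_
    simp only [L1, L2, LinearMap.sum_apply, LinearMap.smulRight_apply]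
    have h1 : ∀ h : H, f h (B i) = if ρ (Additive.toMul (B i)) = (h : G) then (1 : ℤ) else 0 := by
      intro h
      exact B.constr_basis ℤ _ i
    rw [Finset.sum_eq_single (⟨ρ (Additive.toMul (B i)), hρ _⟩ : H)]
    · rw [h1, if_pos rfl, one_smul]
      rfl
    · intro h _ hh
      rw [h1, if_neg, zero_smul]
      intro h2
      exact hh (Subtype.ext h2.symm)
    · intro h2
      exact absurd (Finset.mem_univ _) h2
  refine ⟨fun h => D.mkG H (f h).toAddMonoidHom, fun N a => ?_⟩
  have h2 : (Additive.ofMul (ρ a) : Additive G) = ∑ h : H, (f h (Additive.ofMul a)) •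
      (Additive.ofMul (h : G)) := by
    have := LinearMap.congr_fun hL (Additive.ofMul a)
    simp only [L1, L2, LinearMap.sum_apply, LinearMap.smulRight_apply] at this
    exact this
  have h3 : ρ a = ∏ h : H, (h : G) ^ (f h (Additive.ofMul a)) := by
    have := congrArg Additive.toMul h2
    rw [toMul_sum] at this
    exact this
  rw [h3]
  change (QuotientGroup.mk' N) (∏ h : H, (h : G) ^ (f h (Additive.ofMul a))) = _
  rw [map_prod]
  refine Finset.prod_congr rfl fun h _ => ?_
  rw [map_zpow]
  congr 1
  have h4 := congrArg (fun g => g (Additive.ofMul a)) (D.cf1_mkG (N := H) (f h).toAddMonoidHom)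
  exact h4.symm

/-- independence of the lifts -/
theorem indep {N H : Subgroup G} (hNH : N ≤ H) (u' : D.Elt H (δ ⊕ ι))
    (hint : ∀ φ : δ ⊕ ι → D.GHm H, ∃ z : MonoidAlgebra ℤ (G ⧸ H), u'.val φ = toQ z)
    (φ' : ι → D.GHm H) (ψ ψ' : δ → H → D.GHm H)
    (hψ : letI := Fintype.ofFinite H
      ∀ j (a : D.UN H), ∏ h : H, ((h : G) : G ⧸ N) ^ (D.cf1 (ψ j h) (Additive.ofMul a)) =
        ∏ h : H, ((h : G) : G ⧸ N) ^ (D.cf1 (ψ' j h) (Additive.ofMul a)))
    (y y' : (δ → H) → MonoidAlgebra ℤ (G ⧸ N))
    (hy : ∀ h : δ → H, u'.val (Sum.elim (fun j => ψ j (h j)) φ') = toQ (prj hNH (y h)))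
    (hy' : ∀ h : δ → H, u'.val (Sum.elim (fun j => ψ' j (h j)) φ') = toQ (prj hNH (y' h))) :
    letI := Fintype.ofFinite H
    ∑ h : δ → H, y h * ∏ j, (MonoidAlgebra.single ((h j : G) : G ⧸ N) 1 - 1) -
      ∑ h : δ → H, y' h * ∏ j, (MonoidAlgebra.single ((h j : G) : G ⧸ N) 1 - 1) ∈
      (IH (H.map (QuotientGroup.mk' N))) ^ (Fintype.card δ + 1) := by
  classical
  let _ := Fintype.ofFinite H
  have key : ∀ (s : Finset δ) (y' : (δ → H) → MonoidAlgebra ℤ (G ⧸ N)),
      (∀ h : δ → H, u'.val (Sum.elim (fun j => (if j ∈ s then ψ' j else ψ j) (h j)) φ') =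
        toQ (prj hNH (y' h))) →
      ∑ h : δ → H, y h * ∏ j, (MonoidAlgebra.single ((h j : G) : G ⧸ N) 1 - 1) -
        ∑ h : δ → H, y' h * ∏ j, (MonoidAlgebra.single ((h j : G) : G ⧸ N) 1 - 1) ∈
        (IH (H.map (QuotientGroup.mk' N))) ^ (Fintype.card δ + 1) := by
    intro s
    induction s using Finset.induction_on with
    | empty =>
      intro y' hy'
      rw [← Finset.sum_sub_distrib]
      refine Ideal.sum_mem _ fun h _ => ?_
      rw [← sub_mul, add_comm, pow_add, pow_one]
      refine Ideal.mul_mem_mul (mem_of_prj hNH ?_) (prod_mem_pow h)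
      apply toQ_injective
      rw [map_sub, map_sub, ← hy, ← hy', map_zero, sub_eq_zero]
      congr 1
    | insert j₀ s hj₀ ih =>
      intro y' hy'
      -- the intermediate family
      have h1 : ∀ h : δ → H, ∃ y₁ : MonoidAlgebra ℤ (G ⧸ N),
          u'.val (Sum.elim (fun j => (if j ∈ s then ψ' j else ψ j) (h j)) φ') =
            toQ (prj hNH y₁) := by
        intro h
        obtain ⟨z, hz⟩ := hint (Sum.elim (fun j => (if j ∈ s then ψ' j else ψ j) (h j)) φ')
        obtain ⟨y₁, rfl⟩ := prj_surjective hNH z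
        exact ⟨y₁, hz⟩
      choose y₁ hy₁ using h1
      have h2 := ih y₁ hy₁
      have h3 := D.outer_mem hNH u' hint φ'
        (Function.update (fun j => if j ∈ s then ψ' j else ψ j) j₀
          (fun h => D.subG (ψ j₀ h) (ψ' j₀ h))) j₀ (by
          intro a
          simp only [Function.update_self, D.cf1_subG, AddMonoidHom.sub_apply, zpow_sub]
          rw [Finset.prod_mul_distrib, Finset.prod_inv_distrib, hψ j₀ a, mul_inv_cancel])
        (fun h => y₁ h - y' h) (by
          intro h
          rw [map_sub, map_sub, ← hy₁, ← hy']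
          have h4 := D.val_sub u' (Sum.elim (fun j => (if j ∈ s then ψ' j else ψ j) (h j)) φ')
            (Sum.inl j₀) (ψ j₀ (h j₀)) (ψ' j₀ (h j₀))
          have e1 : (Sum.elim (fun j => (Function.update (fun j => if j ∈ s then ψ' j else ψ j) j₀
              (fun h => D.subG (ψ j₀ h) (ψ' j₀ h))) j (h j)) φ' : δ ⊕ ι → D.GHm H) =
              Function.update (Sum.elim (fun j => (if j ∈ s then ψ' j else ψ j) (h j)) φ')
              (Sum.inl j₀) (D.subG (ψ j₀ (h j₀)) (ψ' j₀ (h j₀))) := by
            ext1 t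
            rcases t with j | i
            · by_cases hj : j = j₀
              · subst hj; simp
              · rw [Function.update_of_ne (by simpa using hj)]
                simp [Function.update_of_ne hj]
            · rw [Function.update_of_ne (by simp)]
              simp
          have e2 : (Sum.elim (fun j => (if j ∈ s then ψ' j else ψ j) (h j)) φ' : δ ⊕ ι → D.GHm H) =
              Function.update (Sum.elim (fun j => (if j ∈ s then ψ' j else ψ j) (h j)) φ')
              (Sum.inl j₀) (ψ j₀ (h j₀)) := by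
            ext1 t
            rcases t with j | i
            · by_cases hj : j = j₀
              · subst hj; simp [hj₀]
              · rw [Function.update_of_ne (by simpa using hj)]
            · rw [Function.update_of_ne (by simp)]
          have e3 : (Sum.elim (fun j => (if j ∈ insert j₀ s then ψ' j else ψ j) (h j)) φ' :
              δ ⊕ ι → D.GHm H) =
              Function.update (Sum.elim (fun j => (if j ∈ s then ψ' j else ψ j) (h j)) φ')
              (Sum.inl j₀) (ψ' j₀ (h j₀)) := by
            ext1 t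
            rcases t with j | i
            · by_cases hj : j = j₀
              · subst hj; simp
              · rw [Function.update_of_ne (by simpa using hj)]
                simp [hj]
            · rw [Function.update_of_ne (by simp)]
              simp
          rw [e1, h4, e3]
          congr 1
          rw [← e2])
      have h5 : ∑ h : δ → H, y h * ∏ j, (MonoidAlgebra.single ((h j : G) : G ⧸ N) (1 : ℤ) - 1) -
          ∑ h : δ → H, y' h * ∏ j, (MonoidAlgebra.single ((h j : G) : G ⧸ N) (1 : ℤ) - 1) =
          (∑ h : δ → H, y h * ∏ j, (MonoidAlgebra.single ((h j : G) : G ⧸ N) (1 : ℤ) - 1) -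
          ∑ h : δ → H, y₁ h * ∏ j, (MonoidAlgebra.single ((h j : G) : G ⧸ N) (1 : ℤ) - 1)) +
          ∑ h : δ → H, (y₁ h - y' h) *
            ∏ j, (MonoidAlgebra.single ((h j : G) : G ⧸ N) (1 : ℤ) - 1) := by
        simp only [sub_mul, Finset.sum_sub_distrib]
        ring
      rw [h5]
      exact Ideal.add_mem _ h2 h3
  refine key Finset.univ y' fun h => ?_
  rw [← hy']
  congr 1
  ext1 t
  rcases t with j | i
  · simp
  · rfl

end lifts

end STData

end Run7.h743
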