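import Pool.Agent.Run7.h743.Triv

/-!
# The conjecture for `Gal(K/L)` of squarefree exponent follows from its case of prime degree
-/

set_option autoImplicit false
set_option linter.unusedSectionVars false

open NumberField IsDedekindDomain Filter Topology

noncomputable section

namespace Run7.h743

open Pool.Agent.K3h30.RS

section groupring

variable {G : Type} [CommGroup G]

theorem prj_prj {M N H : Subgroup G} (h : M ≤ N) (h' : N ≤ H) (y : MonoidAlgebra ℤ (G ⧸ M)) :
    prj h' (prj h y) = prj (h.trans h') y := by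
  have h1 := mp_comp (QuotientGroup.map M N (MonoidHom.id G) h)
    (QuotientGroup.map N H (MonoidHom.id G) h') y
  have h2 : (QuotientGroup.map N H (MonoidHom.id G) h').comp
      (QuotientGroup.map M N (MonoidHom.id G) h) =
      QuotientGroup.map M H (MonoidHom.id G) (h.trans h') := by
    ext g
    rfl
  rw [h2] at h1
  exact h1

theorem exists_lift {M N H : Subgroup G} (hN : M ≤ N) (n : ℕ) (E : MonoidAlgebra ℤ (G ⧸ M))
    (h : prj hN E ∈ (IH (H.map (QuotientGroup.mk' N))) ^ n) :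
    ∃ a ∈ (IH (H.map (QuotientGroup.mk' M))) ^ n, E - a ∈ IH (N.map (QuotientGroup.mk' M)) := by
  have h1 : IH (H.map (QuotientGroup.mk' N)) ≤ (IH (H.map (QuotientGroup.mk' M))).map (prj hN) := by
    conv_lhs => unfold IH
    rw [Ideal.span_le]
    rintro _ ⟨_, ⟨g, hg, rfl⟩, rfl⟩
    have h2 : MonoidAlgebra.single (QuotientGroup.mk' N g) (1 : ℤ) - 1 =
        prj hN (MonoidAlgebra.single (QuotientGroup.mk' M g) 1 - 1) := by
      unfold prj
      rw [map_sub, map_one]
      simp
    rw [h2]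
    exact Ideal.mem_map_of_mem _ (sub_one_mem ⟨g, hg, rfl⟩)
  have h3 := Ideal.pow_right_mono h1 n h
  rw [← Ideal.map_pow] at h3
  obtain ⟨a, ha, h4⟩ := (Ideal.mem_map_iff_of_surjective _ (prj_surjective hN)).1 h3
  refine ⟨a, ha, mem_of_prj hN ?_⟩
  rw [map_sub, h4, sub_self]

theorem cmp_kill {Γ : Type} [CommGroup Γ] [Finite Γ] (H N : Subgroup Γ) (hNH : N ≤ H) {Δ : Type}
    [CommGroup Δ] (χ : H →* Δ) (hχ : ∀ h : H, (h : Γ) ∈ N → χ h = 1) (b : MonoidAlgebra ℤ Γ)
    (hb : b ∈ IH N) (g : Γ) : mp χ (cmp H g b) = 0 := by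
  have h1 : ∀ c : MonoidAlgebra ℤ Γ, mp χ (cmp H g (c * b)) = 0 := by
    refine Submodule.span_induction ?_ ?_ ?_ ?_ hb
    · rintro _ ⟨n, hn, rfl⟩ c
      have h2 : MonoidAlgebra.single n (1 : ℤ) - 1 =
          mp H.subtype (MonoidAlgebra.single (⟨n, hNH hn⟩ : H) 1 - 1) := by
        rw [map_sub, map_one, mp_single]; rfl
      have h3 : mp χ (MonoidAlgebra.single (⟨n, hNH hn⟩ : H) (1 : ℤ) - 1) = 0 := by
        rw [map_sub, map_one, mp_single, hχ _ hn]
        exact sub_self _
      rw [h2, cmp_mul, map_mul, h3, mul_zero]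
    · intro c
      rw [mul_zero, cmp_zero, map_zero]
    · intro a b _ _ ha hb c
      rw [mul_add, cmp_add, map_add, ha, hb, add_zero]
    · intro d b _ hb c
      rw [smul_eq_mul, ← mul_assoc]
      exact hb _
  have := h1 1
  rwa [one_mul] at this

theorem cmp_add' {Γ : Type} [CommGroup Γ] [Finite Γ] (H : Subgroup Γ) (g : Γ)
    (x y : MonoidAlgebra ℤ Γ) : cmp H g (x + y) = cmp H g x + cmp H g y := cmp_add H g x y

end groupring

variable {k K G : Type} [Field k] [NumberField k] [Field K] [NumberField K] [Algebra k K]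
  [CommGroup G] [Finite G] [MulSemiringAction G K] [IsGaloisGroup G k K]

namespace STData

variable (D : STData k K) {ι δ : Type} [Fintype ι] [DecidableEq ι] [Fintype δ] [DecidableEq δ]

/-- the lifts of `ρ` modulo `M` are lifts modulo `N` -/
theorem lifts_mono {M N H : Subgroup G} (h : M ≤ N) {ρ : D.UN H →* G} {ψ : H → D.GHm H}
    (hψ : D.Lifts M ρ ψ) : D.Lifts N ρ ψ := by
  intro a
  have h1 := congrArg (QuotientGroup.map M N (MonoidHom.id G) h) (hψ a)
  rw [map_prod] at h1
  simp only [map_zpow] at h1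
  exact h1

/-- the difference of the two sides belongs to the ideal generated by the augmentation ideal -/
theorem diff_mem {H : Subgroup G} {w : ι → Place K} {x : δ → Place K} (j₀ : δ)
    (hx : D.IsV H (Sum.elim x w)) (u : D.Elt (⊥ : Subgroup G) ι) (hu : D.IsRS ⊥ w u)
    (φ : ι → D.GHm (⊥ : Subgroup G)) (z : MonoidAlgebra ℤ (G ⧸ (⊥ : Subgroup G)))
    (y : (δ → H) → MonoidAlgebra ℤ (G ⧸ (⊥ : Subgroup G))) (hz : u.val φ = toQ z) :
    letI := Fintype.ofFinite H
    z - ∑ h : δ → H, y h * ∏ j, (MonoidAlgebra.single ((h j : G) : G ⧸ (⊥ : Subgroup G)) 1 - 1) ∈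
      (IH (H.map (QuotientGroup.mk' (⊥ : Subgroup G)))) ^ 1 := by
  let _ := Fintype.ofFinite H
  rw [pow_one]
  refine Ideal.sub_mem _ ?_ (Ideal.sum_mem _ fun h _ => Ideal.mul_mem_left _ _ ?_)
  · apply mem_of_prj (bot_le : ⊥ ≤ H)
    apply toQ_injective
    choose φ₁ hφ₁ using fun i => D.exists_restr (bot_le : ⊥ ≤ H) (φ i)
    rw [toQ_prj, ← hz, ← D.down_val H u φ φ₁ hφ₁, map_zero]
    exact D.val_eq_zero hx _ (D.down_isRS H u w hu) j₀ (hx.splits (Sum.inl j₀)) φ₁
  · have hc : Fintype.card δ ≠ 0 := (Fintype.card_pos_iff.2 ⟨j₀⟩).ne'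
    exact Ideal.pow_le_self hc (prod_mem_pow h)

/-- **Reduction to prime degree.** -/
theorem mrs_sqf [Nonempty δ] (H : Subgroup G) (hH : Squarefree (Monoid.exponent H))
    (w : ι → Place K) (x : δ → Place K) (hx : D.IsV H (Sum.elim x w)) (ρ : δ → D.UN H →* G)
    (hρ : ∀ j a, Fixes (x j) (ρ j a))
    (hMRS : ∀ (N : Subgroup G) (hN : N ≤ H), (N.relIndex H).Prime →
      (∀ j, ∃ γ : G, Fixes (x j) γ ∧ γ ∉ N) → D.MRS hN w x ρ) :
    D.MRS (bot_le : ⊥ ≤ H) w x ρ := by
  classical
  intro u u' hu hu' φ φ' hφ ψ hψ z y hz hy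
  let _ := Fintype.ofFinite H
  let Hb : Subgroup (G ⧸ (⊥ : Subgroup G)) := H.map (QuotientGroup.mk' (⊥ : Subgroup G))
  let E : MonoidAlgebra ℤ (G ⧸ (⊥ : Subgroup G)) := z -
    ∑ h : δ → H, y h * ∏ j, (MonoidAlgebra.single ((h j : G) : G ⧸ (⊥ : Subgroup G)) 1 - 1)
  change E ∈ (IH Hb) ^ (Fintype.card δ + 1)
  obtain ⟨j₀⟩ := ‹Nonempty δ›
  have hE1 : E ∈ (IH Hb) ^ 1 := D.diff_mem j₀ hx u hu φ z y hz
  -- all subgroups of prime index
  have main : ∀ (N : Subgroup G) (hN : N ≤ H), (N.relIndex H).Prime →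
      prj (bot_le : ⊥ ≤ N) E ∈ (IH (H.map (QuotientGroup.mk' N))) ^ (Fintype.card δ + 1) := by
    intro N hN hp
    have h1 : D.MRS hN w x ρ := by
      by_cases hj : ∀ j, ∃ γ : G, Fixes (x j) γ ∧ γ ∉ N
      · exact hMRS N hN hp hj
      · push Not at hj
        obtain ⟨j₁, hj₁⟩ := hj
        exact D.mrs_of_splits hN w x ρ hx j₁ hj₁ (hρ j₁)
    choose φ₁ hφ₁ using fun i => D.exists_restr (bot_le : ⊥ ≤ N) (φ i)
    have h2 := h1 (D.down N u) u' (D.down_isRS N u w hu) hu' φ₁ φ'
      (fun i => D.restr_trans bot_le hN (hφ₁ i) (hφ i)) ψ (fun j => D.lifts_mono bot_le (hψ j))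
      (prj (bot_le : ⊥ ≤ N) z) (fun h => prj (bot_le : ⊥ ≤ N) (y h))
      (by rw [D.down_val N u φ φ₁ hφ₁, hz, toQ_prj]) (fun h => by rw [hy, prj_prj])
    have h3 : prj (bot_le : ⊥ ≤ N) E = prj (bot_le : ⊥ ≤ N) z -
        ∑ h : δ → H, prj (bot_le : ⊥ ≤ N) (y h) *
          ∏ j, (MonoidAlgebra.single ((h j : G) : G ⧸ N) 1 - 1) := by
      simp only [E]
      rw [map_sub, map_sum]
      congr 1
      refine Finset.sum_congr rfl fun h _ => ?_
      rw [map_mul, map_prod]
      congr 1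
      refine Finset.prod_congr rfl fun j _ => ?_
      rw [map_sub, map_one, prj_single]
    rw [h3]
    exact h2
  -- detection
  have hexp : ∀ h : Hb, h ^ (∏ p ∈ (Monoid.exponent H).primeFactors, p) = 1 := by
    rintro ⟨_, g, hg, rfl⟩
    rw [Nat.prod_primeFactors_of_squarefree hH]
    apply Subtype.ext
    change (QuotientGroup.mk' (⊥ : Subgroup G) g) ^ Monoid.exponent H = 1
    have h1 : (⟨g, hg⟩ : H) ^ Monoid.exponent H = 1 := Monoid.pow_exponent_eq_one _
    have h2 : g ^ Monoid.exponent H = 1 := congrArg Subtype.val h1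
    rw [← map_pow, h2, map_one]
  refine mem_of_cmp Hb _ E fun g => ?_
  have haug : aug (cmp Hb g E) = 0 := by
    have h1 := cmp_mem Hb 1 E hE1 g
    rw [pow_one] at h1
    exact aug_of_mem h1
  refine detect_sqf (Monoid.exponent H).primeFactors (fun p hp => Nat.prime_of_mem_primeFactors hp)
    hexp (Fintype.card δ + 1) _ haug fun p hp χ => ?_
  have hpp : Fact p.Prime := ⟨Nat.prime_of_mem_primeFactors hp⟩
  by_cases hχ : χ = 1
  · have h1 : ∀ y : MonoidAlgebra ℤ Hb, mp (1 : Hb →* CC p) y = (aug y : MonoidAlgebra ℤ (CC p)) := by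
      intro y
      induction y using MonoidAlgebra.induction_linear with
      | zero => simp
      | add a b ha hb => rw [map_add, map_add, Int.cast_add, ha, hb]
      | single w r => rw [mp_single, aug_single]; rfl
    rw [hχ, h1, haug, Int.cast_zero]
    exact Ideal.zero_mem _
  · -- the kernel
    let Nb : Subgroup (G ⧸ (⊥ : Subgroup G)) := χ.ker.map Hb.subtype
    let N : Subgroup G := Nb.comap (QuotientGroup.mk' (⊥ : Subgroup G))
    have hNb : Nb ≤ Hb := by
      rintro _ ⟨h, _, rfl⟩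
      exact h.2
    have hinj : Function.Injective (QuotientGroup.mk' (⊥ : Subgroup G)) := by
      rw [← MonoidHom.ker_eq_bot_iff, QuotientGroup.ker_mk']
    have hN : N ≤ H := by
      intro g hg
      obtain ⟨g', hg', h1⟩ := hNb hg
      rwa [← hinj h1]
    -- the character of `H`
    let j : H →* Hb := (QuotientGroup.mk' (⊥ : Subgroup G)).subgroupMap H
    have hj : Function.Surjective j := MonoidHom.subgroupMap_surjective _ _
    have hker : N.subgroupOf H = (χ.comp j).ker := by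
      ext h
      rw [Subgroup.mem_subgroupOf, MonoidHom.mem_ker, MonoidHom.comp_apply]
      constructor
      · rintro ⟨h', hh', h1⟩
        have h2 : h' = j h := Subtype.ext h1
        rw [← h2]
        exact hh'
      · intro h1
        exact ⟨j h, h1, rfl⟩
    have hidx : N.relIndex H = p := by
      unfold Subgroup.relIndex
      rw [hker, Subgroup.index_ker]
      have h1 : Nat.card (CC p) = p := by
        rw [Nat.card_congr Multiplicative.toAdd, Nat.card_zmod]
      have h2 : Nat.card (χ.comp j).range ∣ p := by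
        conv_rhs => rw [← h1]
        exact Subgroup.card_subgroup_dvd_card _
      rcases (Nat.dvd_prime hpp.out).1 h2 with h3 | h3
      · exfalso
        apply hχ
        have h4 := Subgroup.card_eq_one.1 h3
        ext h : 1
        obtain ⟨h', rfl⟩ := hj h
        have h5 : (χ.comp j) h' ∈ (χ.comp j).range := ⟨h', rfl⟩
        rw [h4, Subgroup.mem_bot] at h5
        exact h5
      · exact h3
    obtain ⟨a, ha, hb⟩ := exists_lift (M := (⊥ : Subgroup G)) (bot_le : ⊥ ≤ N) (Fintype.card δ + 1) E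
      (main N hN (by rw [hidx]; exact hpp.out))
    have h1 : E = a + (E - a) := by ring
    rw [h1, cmp_add', map_add]
    have h2 : mp χ (cmp Hb g (E - a)) = 0 := by
      refine cmp_kill Hb (N.map (QuotientGroup.mk' (⊥ : Subgroup G))) ?_ χ ?_ _ hb g
      · exact Subgroup.map_mono hN
      · rintro h ⟨g', hg', h3⟩
        obtain ⟨h', hh', h4⟩ := hg'
        have h5 : h' = h := Subtype.ext (by rw [← h3, ← h4]; rfl)
        rw [← h5]
        exact hh'
    rw [h2, add_zero]
    exact mp_mem χ (fun _ _ => Subgroup.mem_top _) _ _ (cmp_mem Hb _ a ha g)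

end STData

end Run7.h743
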