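import Pool.Agent.Run7.h743.Base
import Pool.Agent.Run7.h743.DetectG

/-!
# The conjecture follows from its case of cyclic extensions `K / L` of prime power degree
-/

set_option autoImplicit false
set_option linter.unusedSectionVars false

open NumberField IsDedekindDomain Filter Topology

noncomputable section

namespace Run7.h743

open Pool.Agent.K3h30.RS

variable {k K G : Type} [Field k] [NumberField k] [Field K] [NumberField K] [Algebra k K]
  [CommGroup G] [Finite G] [MulSemiringAction G K] [IsGaloisGroup G k K]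

theorem cyclic_quot {A C : Type} [CommGroup A] [Group C] [IsCyclic C] (f : A →* C)
    (N : Subgroup A) (hN : N = f.ker) : IsCyclic (A ⧸ N) := by
  subst hN
  exact isCyclic_of_injective (QuotientGroup.kerLift f) (QuotientGroup.kerLift_injective f)

namespace STData

variable (D : STData k K) {ι δ : Type} [Fintype ι] [DecidableEq ι] [Fintype δ] [DecidableEq δ]

/-- **Reduction to cyclic extensions of prime power degree.** -/
theorem mrs_cyc [Nonempty δ] (H : Subgroup G)
    (hH : ∀ p : ℕ, p.Prime → p ^ 2 ∣ Monoid.exponent H → Fintype.card δ < p)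
    (w : ι → Place K) (x : δ → Place K) (hx : D.IsV H (Sum.elim x w)) (ρ : δ → D.UN H →* G)
    (hρ : ∀ j a, Fixes (x j) (ρ j a))
    (hMRS : ∀ (N : Subgroup G) (hN : N ≤ H), IsPrimePow (N.relIndex H) →
      IsCyclic (H ⧸ N.subgroupOf H) → (∀ j, ∃ γ : G, Fixes (x j) γ ∧ γ ∉ N) → D.MRS hN w x ρ) :
    D.MRS (bot_le : ⊥ ≤ H) w x ρ := by
  classical
  intro u u' hu hu' φ φ' hφ ψ hψ z y hz hy
  let _ := Fintype.ofFinite H
  let Hb : Subgroup (G ⧸ (⊥ : Subgroup G)) := H.map (QuotientGroup.mk' (⊥ : Subgroup G))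
  let E : MonoidAlgebra ℤ (G ⧸ (⊥ : Subgroup G)) := z -
    ∑ h : δ → H, y h * ∏ j, (MonoidAlgebra.single ((h j : G) : G ⧸ (⊥ : Subgroup G)) 1 - 1)
  change E ∈ (IH Hb) ^ (Fintype.card δ + 1)
  obtain ⟨j₀⟩ := ‹Nonempty δ›
  have hE1 : E ∈ (IH Hb) ^ 1 := D.diff_mem j₀ hx u hu φ z y hz
  -- all subgroups with cyclic quotient of prime power order
  have main : ∀ (N : Subgroup G) (hN : N ≤ H), IsPrimePow (N.relIndex H) →
      IsCyclic (H ⧸ N.subgroupOf H) →
      prj (bot_le : ⊥ ≤ N) E ∈ (IH (H.map (QuotientGroup.mk' N))) ^ (Fintype.card δ + 1) := by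
    intro N hN hp hc
    have h1 : D.MRS hN w x ρ := by
      by_cases hj : ∀ j, ∃ γ : G, Fixes (x j) γ ∧ γ ∉ N
      · exact hMRS N hN hp hc hj
      · push Not at hj
        obtain ⟨j₁, hj₁⟩ := hj
        exact D.mrs_of_splits hN w x ρ hx j₁ hj₁ (hρ j₁)
    choose φ₁ hφ₁ using fun i => D.exists_restr (bot_le : ⊥ ≤ N) (φ i)
    have h2 := h1 (D.down N u) u' (D.down_isRS N u w hu) hu' φ₁ φ'
      (fun i => D.restr_trans bot_le hN (hφ₁ i) (hφ i)) ψ (fun j => D.lifts_mono bot_le (hψ j))
      (prj (bot_le : ⊥ ≤ N) z) (fun h => prj (bot_le : ⊥ ≤ N) (y h))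
      (by rw [D.down_val N u φ φ₁ hφ₁, hz, toQ_prj]) (fun h => by rw [hy, prj_prj])
    have h3 : prj (bot_le : ⊥ ≤ N) E = prj (bot_le : ⊥ ≤ N) z -
        ∑ h : δ → H, prj (bot_le : ⊥ ≤ N) (y h) *
          ∏ j, (MonoidAlgebra.single ((h j : G) : G ⧸ N) 1 - 1) := by
      simp only [E]
      rw [map_sub, map_sum]
      congr 1
      refine Finset.sum_congr rfl fun h _ => ?_
      rw [map_mul, map_prod]
      congr 1
      refine Finset.prod_congr rfl fun j _ => ?_
      rw [map_sub, map_one, prj_single]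
    rw [h3]
    exact h2
  -- detection
  have hinj : Function.Injective (QuotientGroup.mk' (⊥ : Subgroup G)) := by
    rw [← MonoidHom.ker_eq_bot_iff, QuotientGroup.ker_mk']
  have hexp : Monoid.exponent Hb = Monoid.exponent H :=
    (Monoid.exponent_eq_of_mulEquiv (H.equivMapOfInjective _ hinj)).symm
  refine mem_of_cmp Hb _ E fun g => ?_
  have haug : aug (cmp Hb g E) = 0 := by
    have h1 := cmp_mem Hb 1 E hE1 g
    rw [pow_one] at h1
    exact aug_of_mem h1
  refine detect_gen (Fintype.card δ + 1) (fun p hp hp2 => hH p hp (by rwa [hexp] at hp2)) _ haug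
    fun p f hp hf χ => ?_
  by_cases hχ : χ = 1
  · have h1 : ∀ y : MonoidAlgebra ℤ Hb, mp (1 : Hb →* CC (p ^ f)) y =
        (aug y : MonoidAlgebra ℤ (CC (p ^ f))) := by
      intro y
      induction y using MonoidAlgebra.induction_linear with
      | zero => rw [map_zero, map_zero, Int.cast_zero]
      | add a b ha hb => rw [map_add, map_add, Int.cast_add, ha, hb]
      | single w r => rw [mp_single, aug_single]; rfl
    rw [hχ, h1, haug, Int.cast_zero]
    exact Ideal.zero_mem _
  · -- the kernel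
    let Nb : Subgroup (G ⧸ (⊥ : Subgroup G)) := χ.ker.map Hb.subtype
    let N : Subgroup G := Nb.comap (QuotientGroup.mk' (⊥ : Subgroup G))
    have hNb : Nb ≤ Hb := by
      rintro _ ⟨h, _, rfl⟩
      exact h.2
    have hN : N ≤ H := by
      intro g hg
      obtain ⟨g', hg', h1⟩ := hNb hg
      rwa [← hinj h1]
    -- the character of `H`
    let j : H →* Hb := (QuotientGroup.mk' (⊥ : Subgroup G)).subgroupMap H
    have hj : Function.Surjective j := MonoidHom.subgroupMap_surjective _ _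
    have hker : N.subgroupOf H = (χ.comp j).ker := by
      ext h
      rw [Subgroup.mem_subgroupOf, MonoidHom.mem_ker, MonoidHom.comp_apply]
      constructor
      · rintro ⟨h', hh', h1⟩
        have h2 : h' = j h := Subtype.ext h1
        rw [← h2]
        exact hh'
      · intro h1
        exact ⟨j h, h1, rfl⟩
    have hp0 : p ^ f ≠ 0 := pow_ne_zero _ hp.ne_zero
    have hfin : NeZero (p ^ f) := ⟨hp0⟩
    have hcyc : IsCyclic (H ⧸ N.subgroupOf H) := by
      exact cyclic_quot (χ.comp j) _ hker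
    have hidx : IsPrimePow (N.relIndex H) := by
      unfold Subgroup.relIndex
      rw [hker, Subgroup.index_ker]
      have h1 : Nat.card (CC (p ^ f)) = p ^ f := by
        rw [Nat.card_congr Multiplicative.toAdd, Nat.card_zmod]
      have h2 : Nat.card (χ.comp j).range ∣ p ^ f := by
        conv_rhs => rw [← h1]
        exact Subgroup.card_subgroup_dvd_card _
      obtain ⟨a, _, h3⟩ := (Nat.dvd_prime_pow hp).1 h2
      rw [h3]
      rcases Nat.eq_zero_or_pos a with ha | ha
      · exfalso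
        apply hχ
        rw [ha, pow_zero] at h3
        have h4 := Subgroup.card_eq_one.1 h3
        ext h : 1
        obtain ⟨h', rfl⟩ := hj h
        have h5 : (χ.comp j) h' ∈ (χ.comp j).range := ⟨h', rfl⟩
        rw [h4, Subgroup.mem_bot] at h5
        exact h5
      · exact (hp.isPrimePow).pow ha.ne'
    obtain ⟨a, ha, hb⟩ := exists_lift (M := (⊥ : Subgroup G)) (bot_le : ⊥ ≤ N) (Fintype.card δ + 1) E
      (main N hN hidx hcyc)
    have h1 : E = a + (E - a) := by ring
    rw [h1, cmp_add', map_add]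
    have h2 : mp χ (cmp Hb g (E - a)) = 0 := by
      refine cmp_kill Hb (N.map (QuotientGroup.mk' (⊥ : Subgroup G))) ?_ χ ?_ _ hb g
      · exact Subgroup.map_mono hN
      · rintro h ⟨g', hg', h3⟩
        obtain ⟨h', hh', h4⟩ := hg'
        have h5 : h' = h := Subtype.ext (by rw [← h3, ← h4]; rfl)
        rw [← h5]
        exact hh'
    rw [h2, add_zero]
    exact mp_mem χ (fun _ _ => Subgroup.mem_top _) _ _ (cmp_mem Hb _ a ha g)

/-- **Reduction to cyclic extensions of prime power degree**, general form. -/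
theorem mrs_cyclic {H' H : Subgroup G} (hH : H' ≤ H)
    (hexp : ∀ p : ℕ, p.Prime → p ^ 2 ∣ Monoid.exponent H' → Fintype.card δ < p)
    (w : ι → Place K) (x : δ → Place K) (hx : D.IsV H' (Sum.elim x w)) (ρ : δ → D.UN H' →* G)
    (hρ : ∀ j a, Fixes (x j) (ρ j a)) (hRS : ∃ u₁ : D.Elt H' (δ ⊕ ι), D.IsRS H' (Sum.elim x w) u₁)
    (hMRS : ∀ (N : Subgroup G) (hN : N ≤ H'), IsPrimePow (N.relIndex H') →
      IsCyclic (H' ⧸ N.subgroupOf H') → (∀ j, ∃ γ : G, Fixes (x j) γ ∧ γ ∉ N) →
      D.MRS hN w x ρ) :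
    D.MRS (bot_le : ⊥ ≤ H) w x (fun j => (ρ j).comp (Subgroup.inclusion (D.UN_mono hH))) := by
  rcases isEmpty_or_nonempty δ with hδ | hδ
  · exact D.mrs_empty _ w x _
  · exact D.mrs_base (bot_le : ⊥ ≤ H') hH w x hx ρ hρ hRS (D.mrs_cyc H' hexp w x hx ρ hρ hMRS)

end STData

end Run7.h743
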