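import Mathlib

/-!
# Newton interpolation at the powers of a root of unity of prime order

Let `ζ` be a primitive `p`-th root of unity in a domain `O`, `π = ζ - 1`.
-/

set_option autoImplicit false

noncomputable section

namespace Run7.h743

open Polynomial

/-- Newton expansion of a polynomial with nodes `c b`. -/
theorem newton {R : Type*} [CommRing R] (c : ℕ → R) (n : ℕ) (F : R[X]) :
    ∃ (Z : ℕ → R) (Q : R[X]), F = (∑ j ∈ Finset.range n,
      (∏ b ∈ Finset.range j, (X - C (c b))) * C (Z j)) +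
      (∏ b ∈ Finset.range n, (X - C (c b))) * Q := by
  induction n with
  | zero => exact ⟨fun _ => 0, F, by simp⟩
  | succ n ih =>
    obtain ⟨Z, Q, h⟩ := ih
    refine ⟨fun j => if j < n then Z j else Q.eval (c n), Q /ₘ (X - C (c n)), ?_⟩
    have h1 : Q = C (Q.eval (c n)) + (X - C (c n)) * (Q /ₘ (X - C (c n))) := by
      have := modByMonic_add_div Q (X - C (c n))
      rw [modByMonic_X_sub_C_eq_C_eval] at this
      exact this.symm
    rw [Finset.sum_range_succ, Finset.prod_range_succ]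
    have h2 : ∑ j ∈ Finset.range n, (∏ b ∈ Finset.range j, (X - C (c b))) *
        C (if j < n then Z j else Q.eval (c n)) =
        ∑ j ∈ Finset.range n, (∏ b ∈ Finset.range j, (X - C (c b))) * C (Z j) := by
      refine Finset.sum_congr rfl fun j hj => ?_
      rw [if_pos (Finset.mem_range.1 hj)]
    simp only [h2, if_neg (lt_irrefl n)]
    conv_lhs => rw [h, h1]
    ring

section

variable {O : Type*} [CommRing O] [IsDomain O] {p : ℕ} [hp : Fact p.Prime] {ζ : O}
  (hζ : IsPrimitiveRoot ζ p)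
include hζ

/-- Differences of distinct powers of `ζ` are associated to `ζ - 1`. -/
theorem assoc_sub {a b : ℕ} (hab : b < a) (ha : a < p) :
    Associated (ζ - 1) (ζ ^ a - ζ ^ b) := by
  have h1 : Associated (ζ - 1) (ζ ^ (a - b) - 1) := by
    apply hζ.associated_sub_one_pow_sub_one_of_coprime
    exact Nat.Coprime.symm ((Nat.Prime.coprime_iff_not_dvd hp.out).2
      (fun h => by have := Nat.le_of_dvd (by omega) h; omega))
  have h2 : ζ ^ a - ζ ^ b = ζ ^ b * (ζ ^ (a - b) - 1) := by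
    rw [mul_sub, ← pow_add, mul_one]
    congr 2
    omega
  have hu : IsUnit (ζ ^ b) := (hζ.isUnit hp.out.ne_zero).pow b
  rw [h2]
  exact h1.trans (associated_isUnit_mul_right_iff hu |>.2 (Associated.refl _))

theorem sub_one_ne_zero' : ζ - 1 ≠ 0 := sub_ne_zero.2 (hζ.ne_one hp.out.one_lt)

theorem dvd_prod_nodes (a j : ℕ) (ha : a < p) (hj : j ≤ p):
    (ζ - 1) ^ j ∣ ∏ b ∈ Finset.range j, (ζ ^ a - ζ ^ b) := by
  have : (ζ - 1) ^ j = ∏ _b ∈ Finset.range j, (ζ - 1) := by simp
  rw [this]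
  refine Finset.prod_dvd_prod_of_dvd _ _ fun b hb => ?_
  rw [Finset.mem_range] at hb
  rcases lt_trichotomy b a with h | h | h
  · exact (assoc_sub hζ h ha).dvd
  · rw [h, sub_self]; exact dvd_zero _
  · have := (assoc_sub hζ h (by omega)).dvd
    rw [← neg_sub (ζ ^ b) (ζ ^ a)]
    exact (dvd_neg).2 this

theorem assoc_prod_nodes (a : ℕ) (ha : a < p) :
    Associated ((ζ - 1) ^ a) (∏ b ∈ Finset.range a, (ζ ^ a - ζ ^ b)) := by
  have : (ζ - 1) ^ a = ∏ _b ∈ Finset.range a, (ζ - 1) := by simp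
  rw [this]
  exact Associated.prod _ _ _ fun b hb => assoc_sub hζ (Finset.mem_range.1 hb) ha

/-- If the values `∑_{j ≤ a} P_j(ζ^a) z_j` are divisible by `π^s`, `a < p`, then `z_j` is divisible
by `π^(s-j)`. -/
theorem newton_dvd (s : ℕ) (z : ℕ → O)
    (h : ∀ a < p, (ζ - 1) ^ s ∣ ∑ j ∈ Finset.range p,
      (∏ b ∈ Finset.range j, (ζ ^ a - ζ ^ b)) * z j) :
    ∀ j < p, (ζ - 1) ^ (s - j) ∣ z j := by
  intro j
  induction j using Nat.strong_induction_on with
  | _ j ih =>
    intro hj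
    rcases le_total s j with hsj | hsj
    · rw [Nat.sub_eq_zero_of_le hsj, pow_zero]; exact one_dvd _
    have h1 := h j hj
    have hsplit : ∑ i ∈ Finset.range p, (∏ b ∈ Finset.range i, (ζ ^ j - ζ ^ b)) * z i =
        (∑ i ∈ Finset.range j, (∏ b ∈ Finset.range i, (ζ ^ j - ζ ^ b)) * z i) +
        (∏ b ∈ Finset.range j, (ζ ^ j - ζ ^ b)) * z j := by
      rw [← Finset.sum_range_succ]
      symm
      apply Finset.sum_subset
      · intro i hi
        rw [Finset.mem_range] at hi ⊢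
        omega
      · intro i _ hi2
        rw [Finset.mem_range] at hi2
        have : ∏ b ∈ Finset.range i, (ζ ^ j - ζ ^ b) = 0 := by
          apply Finset.prod_eq_zero (i := j)
          · rw [Finset.mem_range]; omega
          · rw [sub_self]
        rw [this, zero_mul]
    rw [hsplit] at h1
    have h2 : (ζ - 1) ^ s ∣ ∑ i ∈ Finset.range j, (∏ b ∈ Finset.range i, (ζ ^ j - ζ ^ b)) * z i := by
      refine Finset.dvd_sum fun i hi => ?_
      rw [Finset.mem_range] at hi
      have h3 := ih i hi (by omega)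
      have h4 := dvd_prod_nodes hζ j i hj (by omega)
      have h5 := mul_dvd_mul h4 h3
      rw [← pow_add] at h5
      exact (pow_dvd_pow _ (by omega)).trans h5
    have h3 : (ζ - 1) ^ s ∣ (∏ b ∈ Finset.range j, (ζ ^ j - ζ ^ b)) * z j :=
      (dvd_add_right h2).1 h1
    have h4 : (ζ - 1) ^ s ∣ (ζ - 1) ^ j * z j :=
      h3.trans ((assoc_prod_nodes hζ j hj).mul_right (z j)).symm.dvd
    have h5 : (ζ - 1) ^ s = (ζ - 1) ^ j * (ζ - 1) ^ (s - j) := by
      rw [← pow_add]
      congr 1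
      omega
    rw [h5] at h4
    exact (mul_dvd_mul_iff_left (pow_ne_zero _ (sub_one_ne_zero' hζ))).1 h4

end

/-- The one-step lemma. `A` is an algebra over `O`, `R` a subalgebra, `t ^ p = 1`; `Ψ` is a set of
homomorphisms `A → O`, which contains with `ψ` for all `a < p` a homomorphism with the same values
on `R` and the value `ζ ^ a` at `t`. -/
theorem step {O A : Type*} [CommRing O] [IsDomain O] {p : ℕ} [hp : Fact p.Prime] {ζ : O}
    (hζ : IsPrimitiveRoot ζ p) [CommRing A] [Algebra O A] (R : Subalgebra O A) (t : A)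
    (ht : t ^ p = 1) (M : Ideal A) (hM1 : algebraMap O A (ζ - 1) ∈ M) (hM2 : t - 1 ∈ M)
    (Ψ : Set (A →ₐ[O] O))
    (hΨ : ∀ ψ ∈ Ψ, ∀ a < p, ∃ ψ' ∈ Ψ, (∀ x ∈ R, ψ' x = ψ x) ∧ ψ' t = ζ ^ a)
    (hR : ∀ (s : ℕ) (y : A), y ∈ R → (∀ ψ ∈ Ψ, (ζ - 1) ^ s ∣ ψ y) → y ∈ M ^ s) :
    ∀ (s : ℕ) (y : A), y ∈ R ⊔ Algebra.adjoin O {t} → (∀ ψ ∈ Ψ, (ζ - 1) ^ s ∣ ψ y) →
      y ∈ M ^ s := by
  intro s y hy hψ
  have hnode : ∀ b : ℕ, t - algebraMap O A (ζ ^ b) ∈ M := by
    intro b
    have h1 : t - algebraMap O A (ζ ^ b) = (t - 1) - algebraMap O A (ζ ^ b - 1) := by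
      rw [map_sub, map_one]; ring
    rw [h1]
    refine M.sub_mem hM2 ?_
    obtain ⟨c, hc⟩ := (sub_one_dvd_pow_sub_one ζ b)
    rw [hc, map_mul]
    exact M.mul_mem_right _ hM1
  have hfac : ∏ b ∈ Finset.range p, (t - algebraMap O A (ζ ^ b)) = 0 := by
    have h1 := X_pow_sub_one_eq_prod hp.out.pos hζ
    have h2 := congrArg (aeval t) h1
    rw [map_sub, map_pow, aeval_X, map_one, ht, sub_self, map_prod] at h2
    rw [h2]
    symm
    symm
    refine Finset.prod_bij (fun (b : ℕ) _ => ζ ^ b) ?_ ?_ ?_ ?_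
    · intro b _
      rw [mem_nthRootsFinset hp.out.pos, ← pow_mul, mul_comm, pow_mul, hζ.pow_eq_one, one_pow]
    · intro a ha b hb hab
      exact hζ.pow_inj (Finset.mem_range.1 ha) (Finset.mem_range.1 hb) hab
    · intro x hx
      rw [mem_nthRootsFinset hp.out.pos] at hx
      obtain ⟨i, hi, rfl⟩ := hζ.eq_pow_of_pow_eq_one hx
      exact ⟨i, Finset.mem_range.2 hi, rfl⟩
    · intro b _
      simp
  -- write `y` as a polynomial
  have hpoly : ∃ F : R[X], aeval t F = y := by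
    have h1 : R ⊔ Algebra.adjoin O {t} ≤ (Algebra.adjoin R ({t} : Set A)).restrictScalars O := by
      refine sup_le ?_ ?_
      · intro r hr
        exact (Algebra.adjoin R ({t} : Set A)).algebraMap_mem ⟨r, hr⟩
      · refine Algebra.adjoin_le ?_
        intro z hz
        exact Algebra.subset_adjoin hz
    have h2 := h1 hy
    rw [Subalgebra.mem_restrictScalars, Algebra.adjoin_singleton_eq_range_aeval] at h2
    exact h2
  obtain ⟨F, hF⟩ := hpoly
  obtain ⟨Z, Q, hZ⟩ := newton (fun b => algebraMap O R (ζ ^ b)) p F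
  have hc : ∀ b, algebraMap R A (algebraMap O R (ζ ^ b)) = algebraMap O A (ζ ^ b) := fun b => rfl
  have hy1 : y = ∑ j ∈ Finset.range p,
      (∏ b ∈ Finset.range j, (t - algebraMap O A (ζ ^ b))) * (Z j : A) := by
    rw [← hF, hZ]
    simp only [map_add, map_sum, map_mul, map_prod, map_sub, aeval_X, aeval_C, hc]
    rw [hfac, zero_mul, add_zero]
    rfl
  have hZdvd : ∀ ψ ∈ Ψ, ∀ j < p, (ζ - 1) ^ (s - j) ∣ ψ (Z j : A) := by
    intro ψ hψ1
    apply newton_dvd hζ s (fun j => ψ (Z j : A))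
    intro a ha
    obtain ⟨ψ', h1, h2, h3⟩ := hΨ ψ hψ1 a ha
    have h4 := hψ ψ' h1
    rw [hy1] at h4
    simp only [map_sum, map_mul, map_prod, map_sub, h3, AlgHom.commutes, Algebra.algebraMap_self,
      RingHom.id_apply] at h4
    convert h4 using 2
    refine congrArg _ ?_
    exact (h2 _ (Z _).2).symm
  rw [hy1]
  refine Ideal.sum_mem _ fun j hj => ?_
  rw [Finset.mem_range] at hj
  have h1 : (Z j : A) ∈ M ^ (s - j) := hR _ _ (Z j).2 fun ψ hψ1 => hZdvd ψ hψ1 j hj
  have h2 : ∏ b ∈ Finset.range j, (t - algebraMap O A (ζ ^ b)) ∈ M ^ j := by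
    have := Ideal.prod_mem_prod (s := Finset.range j) (I := fun _ => M)
      (x := fun b => t - algebraMap O A (ζ ^ b)) (fun b _ => hnode b)
    simpa using this
  have h3 := Ideal.mul_mem_mul h2 h1
  rw [← pow_add] at h3
  exact Ideal.pow_le_pow_right (by omega) h3

end Run7.h743
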