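import Pool.Agent.Run7.h743.Span
import Pool.Agent.Run7.h743.Detect4
import Pool.Agent.K3h3.RS.Uniq
import Pool.Agent.K3h30.RS.Act

/-!
# Norm relations between the Rubin–Stark elements of the fields `K^M` and `K^N`, `M ≤ N`
-/

set_option autoImplicit false
set_option linter.unusedSectionVars false

open NumberField IsDedekindDomain Filter Topology

noncomputable section

namespace Run7.h743

open Pool.Agent.K3h30.RS

section cv

variable {Γ : Type} [CommGroup Γ] [Finite Γ]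

/-- the value of a character, real coefficients -/
def cvR (χ : Γ →* ℂˣ) : MonoidAlgebra ℝ Γ →+* ℂ :=
  ((Pool.Agent.K3h62.RS.cvHom χ : MonoidAlgebra ℝ Γ →ₐ[ℝ] ℂ) : MonoidAlgebra ℝ Γ →+* ℂ)

theorem cvR_apply (χ : Γ →* ℂˣ) (z : MonoidAlgebra ℝ Γ) : cvR χ z = charValue χ z := by
  rw [Pool.Agent.K3h62.RS.charValue_eq]; rfl

theorem cvR_single (χ : Γ →* ℂˣ) (g : Γ) (a : ℝ) : cvR χ (MonoidAlgebra.single g a) = a * χ g :=
  Pool.Agent.K3h62.RS.cvHom_single χ g a

/-- the value of a character, rational coefficients -/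
def cvQ (χ : Γ →* ℂˣ) : MonoidAlgebra ℚ Γ →+* ℂ := (cvR χ).comp toR

/-- the value of a character, integral coefficients -/
def cvZ (χ : Γ →* ℂˣ) : MonoidAlgebra ℤ Γ →+* ℂ := (cvQ χ).comp toQ

theorem toR_single' (g : Γ) (a : ℚ) :
    toR (MonoidAlgebra.single g a) = MonoidAlgebra.single g (a : ℝ) := by
  unfold toR
  simp

theorem toQ_single' (g : Γ) (a : ℤ) :
    toQ (MonoidAlgebra.single g a) = MonoidAlgebra.single g (a : ℚ) := by
  unfold toQ
  simp

theorem toR_coeff (z : MonoidAlgebra ℚ Γ) (g : Γ) : (toR z).coeff g = (z.coeff g : ℝ) := by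
  induction z using MonoidAlgebra.induction_linear with
  | zero => simp
  | add a b ha hb =>
    rw [map_add, MonoidAlgebra.coeff_add, MonoidAlgebra.coeff_add, Finsupp.add_apply,
      Finsupp.add_apply, ha, hb]
    push_cast
    rfl
  | single w r =>
    classical
    rw [toR_single', MonoidAlgebra.coeff_single, MonoidAlgebra.coeff_single, Finsupp.single_apply,
      Finsupp.single_apply]
    split_ifs <;> simp

theorem toQ_coeff (z : MonoidAlgebra ℤ Γ) (g : Γ) : (toQ z).coeff g = (z.coeff g : ℚ) := by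
  induction z using MonoidAlgebra.induction_linear with
  | zero => simp
  | add a b ha hb =>
    rw [map_add, MonoidAlgebra.coeff_add, MonoidAlgebra.coeff_add, Finsupp.add_apply,
      Finsupp.add_apply, ha, hb]
    push_cast
    rfl
  | single w r =>
    classical
    rw [toQ_single', MonoidAlgebra.coeff_single, MonoidAlgebra.coeff_single, Finsupp.single_apply,
      Finsupp.single_apply]
    split_ifs <;> simp

theorem toQ_injective : Function.Injective (toQ : MonoidAlgebra ℤ Γ →+* MonoidAlgebra ℚ Γ) := by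
  intro a b hab
  ext g
  have := congrArg (fun z => z.coeff g) hab
  simp only [toQ_coeff] at this
  exact_mod_cast this

theorem cvQ_apply (χ : Γ →* ℂˣ) (z : MonoidAlgebra ℚ Γ) : cvQ χ z = charValue χ (toR z) := by
  unfold cvQ
  rw [RingHom.comp_apply, cvR_apply]

theorem cvR_sum (χ : Γ →* ℂˣ) (z : MonoidAlgebra ℝ Γ) :
    letI := Fintype.ofFinite Γ
    cvR χ z = ∑ γ : Γ, ((z.coeff γ : ℝ) : ℂ) * (χ γ : ℂ) := by
  rw [cvR_apply]
  rfl

end cv

section quot

variable {G : Type} [CommGroup G] [Finite G] {M N : Subgroup G}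

/-- a character of `G / N` as a character of `G / M` -/
def infl (h : M ≤ N) (χ : G ⧸ N →* ℂˣ) : G ⧸ M →* ℂˣ :=
  χ.comp (QuotientGroup.map M N (MonoidHom.id G) h)

theorem infl_comp (h : M ≤ N) (χ : G ⧸ N →* ℂˣ) :
    (infl h χ).comp (QuotientGroup.mk' M) = χ.comp (QuotientGroup.mk' N) := by
  ext g
  rfl

theorem infl_inv_comp (h : M ≤ N) (χ : G ⧸ N →* ℂˣ) :
    (infl h χ)⁻¹.comp (QuotientGroup.mk' M) = χ⁻¹.comp (QuotientGroup.mk' N) := by
  ext g
  rfl

theorem sum_quot (M : Subgroup G) (F : G ⧸ M → ℂ) :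
    letI := Fintype.ofFinite G
    letI := Fintype.ofFinite (G ⧸ M)
    ∑ γ : G, F (γ : G ⧸ M) = (Nat.card M : ℂ) * ∑ c : G ⧸ M, F c := by
  classical
  let _ := Fintype.ofFinite G
  let _ := Fintype.ofFinite (G ⧸ M)
  let _ := Fintype.ofFinite M
  change ∑ γ : G, F (γ : G ⧸ M) = (Nat.card M : ℂ) * ∑ c : G ⧸ M, F c
  rw [← Finset.sum_fiberwise (s := Finset.univ) (g := fun γ : G => (γ : G ⧸ M)), Finset.mul_sum]
  refine Finset.sum_congr rfl fun c _ => ?_
  have h1 : ∀ γ ∈ Finset.univ.filter (fun γ : G => (γ : G ⧸ M) = c), F (γ : G ⧸ M) = F c := by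
    intro γ hγ
    rw [(Finset.mem_filter.1 hγ).2]
  rw [Finset.sum_congr rfl h1, Finset.sum_const, nsmul_eq_mul]
  congr 1
  rw [Nat.card_eq_fintype_card]
  have h2 : (Finset.univ.filter (fun γ : G => (γ : G ⧸ M) = c)).card = Fintype.card M := by
    rw [← Finset.card_univ (α := M)]
    symm
    refine Finset.card_bij (fun m _ => c.out * (m : G)) ?_ ?_ ?_
    · intro m _
      rw [Finset.mem_filter]
      refine ⟨Finset.mem_univ _, ?_⟩
      rw [QuotientGroup.mk_mul_of_mem _ m.2, QuotientGroup.out_eq']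
    · intro a _ b _ hab
      exact Subtype.ext (mul_left_cancel hab)
    · intro γ hγ
      rw [Finset.mem_filter] at hγ
      refine ⟨⟨(c.out)⁻¹ * γ, ?_⟩, Finset.mem_univ _, ?_⟩
      · rw [← QuotientGroup.eq, QuotientGroup.out_eq', hγ.2]
      · rw [mul_inv_cancel_left]
  rw [h2]

theorem card_mul_cvR (M : Subgroup G) (χ : G ⧸ M →* ℂˣ) (z : MonoidAlgebra ℝ (G ⧸ M)) :
    letI := Fintype.ofFinite G
    (Nat.card M : ℂ) * cvR χ z = ∑ γ : G, ((z.coeff (γ : G ⧸ M) : ℝ) : ℂ) * (χ (γ : G ⧸ M) : ℂ) := by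
  rw [cvR_sum, ← sum_quot M (fun c => ((z.coeff c : ℝ) : ℂ) * (χ c : ℂ))]

/-- elements with the same coefficients -/
theorem cvR_infl (h : M ≤ N) (χ : G ⧸ N →* ℂˣ) (z : MonoidAlgebra ℝ (G ⧸ M))
    (z' : MonoidAlgebra ℝ (G ⧸ N)) (hz : ∀ g : G, z.coeff (g : G ⧸ M) = z'.coeff (g : G ⧸ N)) :
    (Nat.card M : ℂ) * cvR (infl h χ) z = (Nat.card N : ℂ) * cvR χ z' := by
  rw [card_mul_cvR, card_mul_cvR]
  refine Finset.sum_congr rfl fun g _ => ?_
  rw [hz]
  rfl

/-- the projection, rational coefficients -/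
def prjQ (h : M ≤ N) : MonoidAlgebra ℚ (G ⧸ M) →+* MonoidAlgebra ℚ (G ⧸ N) :=
  MonoidAlgebra.mapDomainRingHom ℚ (QuotientGroup.map M N (MonoidHom.id G) h)

/-- the projection, real coefficients -/
def prjR (h : M ≤ N) : MonoidAlgebra ℝ (G ⧸ M) →+* MonoidAlgebra ℝ (G ⧸ N) :=
  MonoidAlgebra.mapDomainRingHom ℝ (QuotientGroup.map M N (MonoidHom.id G) h)

theorem prjR_single (h : M ≤ N) (g : G) (a : ℝ) :
    prjR h (MonoidAlgebra.single (g : G ⧸ M) a) = MonoidAlgebra.single (g : G ⧸ N) a := by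
  unfold prjR
  simp

theorem prjQ_single (h : M ≤ N) (g : G) (a : ℚ) :
    prjQ h (MonoidAlgebra.single (g : G ⧸ M) a) = MonoidAlgebra.single (g : G ⧸ N) a := by
  unfold prjQ
  simp

theorem prj_single (h : M ≤ N) (g : G) (a : ℤ) :
    prj h (MonoidAlgebra.single (g : G ⧸ M) a) = MonoidAlgebra.single (g : G ⧸ N) a := by
  unfold prj
  simp

theorem cvR_prjR (h : M ≤ N) (χ : G ⧸ N →* ℂˣ) (z : MonoidAlgebra ℝ (G ⧸ M)) :
    cvR χ (prjR h z) = cvR (infl h χ) z := by
  induction z using MonoidAlgebra.induction_linear with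
  | zero => simp
  | add a b ha hb => rw [map_add, map_add, map_add, ha, hb]
  | single w r =>
    obtain ⟨g, rfl⟩ := QuotientGroup.mk_surjective w
    rw [prjR_single, cvR_single, cvR_single]
    rfl

theorem toR_prjQ (h : M ≤ N) (z : MonoidAlgebra ℚ (G ⧸ M)) : toR (prjQ h z) = prjR h (toR z) := by
  induction z using MonoidAlgebra.induction_linear with
  | zero => simp
  | add a b ha hb => rw [map_add, map_add, map_add, map_add, ha, hb]
  | single w r =>
    obtain ⟨g, rfl⟩ := QuotientGroup.mk_surjective w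
    rw [prjQ_single, toR_single', toR_single', prjR_single]

theorem toQ_prj (h : M ≤ N) (z : MonoidAlgebra ℤ (G ⧸ M)) : toQ (prj h z) = prjQ h (toQ z) := by
  induction z using MonoidAlgebra.induction_linear with
  | zero => simp
  | add a b ha hb => rw [map_add, map_add, map_add, map_add, ha, hb]
  | single w r =>
    obtain ⟨g, rfl⟩ := QuotientGroup.mk_surjective w
    rw [prj_single, toQ_single', toQ_single', prjQ_single]

theorem cvQ_prjQ (h : M ≤ N) (χ : G ⧸ N →* ℂˣ) (z : MonoidAlgebra ℚ (G ⧸ M)) :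
    cvQ χ (prjQ h z) = cvQ (infl h χ) z := by
  unfold cvQ
  rw [RingHom.comp_apply, RingHom.comp_apply, toR_prjQ, cvR_prjR]

end quot

variable {k K G : Type} [Field k] [NumberField k] [Field K] [NumberField K] [Algebra k K]
  [CommGroup G] [Finite G] [MulSemiringAction G K] [IsGaloisGroup G k K]

namespace STData

variable (D : STData k K)

omit [NumberField K] [Finite G] [IsGaloisGroup G k K] in
theorem act_act' (γ γ' : G) (x : Kˣ) : act γ (act γ' x) = act (γ * γ') x := (act_mul γ γ' x).symm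

theorem UN_le (N : Subgroup G) : D.UN N ≤ Pool.Agent.K3h40.RS.US D.S K := by
  intro x hx
  refine ⟨hx.1.1, ?_⟩
  rintro w ⟨v, hv, _⟩
  exact absurd hv (Set.notMem_empty v)

theorem UN_stable (N : Subgroup G) (γ : G) (x : Kˣ) (hx : x ∈ D.UN N) : act γ x ∈ D.UN N := by
  refine ⟨Pool.Agent.K3h30.RS.act_mem Pool.Agent.K3h25.RS.t_TRANS _ _ γ hx.1, ?_⟩
  intro n hn
  rw [act_act', mul_comm, ← act_act', hx.2 n hn]

/-- the action of `γ` on `O_{E,S,T}^×` -/
def actU (N : Subgroup G) (γ : G) : D.UN N →* D.UN N where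
  toFun x := ⟨act γ (x : Kˣ), D.UN_stable N γ _ x.2⟩
  map_one' := Subtype.ext (map_one _)
  map_mul' x y := Subtype.ext (map_mul _ _ _)

omit [IsGaloisGroup G k K] in
theorem act_eq_of_mk {N : Subgroup G} {x : Kˣ} (hx : x ∈ D.UN N) {γ γ' : G}
    (h : (γ : G ⧸ N) = (γ' : G ⧸ N)) : act γ x = act γ' x := by
  have h1 : γ⁻¹ * γ' ∈ N := QuotientGroup.eq.1 h
  have h2 := hx.2 _ h1
  conv_lhs => rw [← h2]
  rw [act_act', mul_inv_cancel_left]

omit [IsGaloisGroup G k K] in
theorem rg_coeff {N : Subgroup G} (w : Place K) {x : Kˣ} (hx : x ∈ D.UN N) (g : G) :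
    (rg N w x).coeff (g : G ⧸ N) = lg G w (act g⁻¹ x) := by
  classical
  let _ := Fintype.ofFinite (G ⧸ N)
  unfold rg
  rw [MonoidAlgebra.coeff_sum, Finset.sum_apply']
  simp only [MonoidAlgebra.coeff_single, Finsupp.single_apply]
  rw [Finset.sum_ite_eq', if_pos (Finset.mem_univ _)]
  congr 1
  apply D.act_eq_of_mk hx
  rw [QuotientGroup.mk_inv, QuotientGroup.mk_inv, QuotientGroup.out_eq']

omit [IsGaloisGroup G k K] in
theorem charValue_reg' {M : Subgroup G} (χ : G ⧸ M →* ℂˣ) (w : Place K) {x : Kˣ}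
    (hx : x ∈ D.UN M) :
    charValue (χ.comp (QuotientGroup.mk' M)) (Pool.Agent.K3h30.RS.reg G w x) =
      (-(Nat.card {γ : G // Fixes w γ} : ℂ) * (Nat.card M : ℂ)) * cvR χ (rg M w x) := by
  classical
  let _ := Fintype.ofFinite G
  have hne : (Nat.card {γ : G // Fixes w γ} : ℝ) ≠ 0 := by
    have : Nonempty {γ : G // Fixes w γ} := ⟨⟨1, fun x => by rw [one_smul]⟩⟩
    have := Nat.card_pos (α := {γ : G // Fixes w γ})
    exact_mod_cast this.ne'
  rw [mul_assoc, card_mul_cvR, ← cvR_apply]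
  unfold Pool.Agent.K3h30.RS.reg
  rw [map_sum, Finset.mul_sum]
  refine Finset.sum_congr rfl fun γ _ => ?_
  rw [cvR_single, D.rg_coeff w hx]
  unfold lg
  have h1 : ((-Real.log (av w ((act γ⁻¹ x : Kˣ) : K)) / (Nat.card {γ : G // Fixes w γ} : ℝ) : ℝ) : ℂ)
      = -((Real.log (av w ((act γ⁻¹ x : Kˣ) : K)) : ℝ) : ℂ) / (Nat.card {γ : G // Fixes w γ} : ℂ) := by
    push_cast
    rfl
  rw [h1]
  have h2 : (Nat.card {γ : G // Fixes w γ} : ℂ) ≠ 0 := by exact_mod_cast hne
  field_simp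
  rfl

/-- the functionals `χ ∘ φ` are combinations of the regulators, with the same coefficients for
`M ≤ N` -/
theorem exists_coeffs {M N : Subgroup G} (h : M ≤ N) {ι : Type} [Fintype ι] (w : ι → Place K)
    (χ : G ⧸ N →* ℂˣ) (hχ : D.Active w (χ.comp (QuotientGroup.mk' N))) (φ : D.GHm M)
    (φ' : D.GHm N) (hφ : D.Restr φ φ') : ∃ b : ι → ℂ,
      (∀ x : D.UN M, cvZ (infl h χ) (φ.f (Additive.ofMul x)) =
        ∑ i, b i * cvR (infl h χ) (rg M (w i) (x : Kˣ))) ∧
      (∀ x : D.UN N, cvZ χ (φ'.f (Additive.ofMul x)) = ∑ i, b i * cvR χ (rg N (w i) (x : Kˣ))) := by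
  classical
  obtain ⟨a, ha⟩ := spanreg_sub D w ((infl h χ).comp (QuotientGroup.mk' M))
    (by rw [infl_comp]; exact hχ) (D.UN M) (D.UN_le M) (D.UN_stable M)
    ((cvZ (infl h χ) : MonoidAlgebra ℤ (G ⧸ M) →+ ℂ).comp φ.f) (by
      intro γ x y hxy
      change cvZ (infl h χ) (φ.f (Additive.ofMul y)) = _ * cvZ (infl h χ) (φ.f (Additive.ofMul x))
      rw [φ.equiv γ x y hxy, map_mul]
      congr 1
      unfold cvZ cvQ
      rw [RingHom.comp_apply, RingHom.comp_apply, toQ_single', toR_single', cvR_single]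
      simp)
  have ha' : ∀ x : D.UN M, cvZ (infl h χ) (φ.f (Additive.ofMul x)) =
      ∑ i, a i * charValue ((infl h χ).comp (QuotientGroup.mk' M))
        (Pool.Agent.K3h30.RS.reg G (w i) (x : Kˣ)) := by
    intro x
    have h0 := ha x
    change cvZ (infl h χ) (φ.f (Additive.ofMul x)) = _ at h0
    rw [h0]
    have e : ∀ (i₁ i₂ : Fintype ι) (f : ι → ℂ),
        @Finset.sum ι ℂ _ (@Finset.univ ι i₁) f = @Finset.sum ι ℂ _ (@Finset.univ ι i₂) f := by
      intro i₁ i₂ f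
      rw [Subsingleton.elim i₁ i₂]
    exact e _ _ _
  let b : ι → ℂ := fun i => a i * (-(Nat.card {γ : G // Fixes (w i) γ} : ℂ) * (Nat.card M : ℂ))
  have hb : ∀ x : D.UN M, cvZ (infl h χ) (φ.f (Additive.ofMul x)) =
      ∑ i, b i * cvR (infl h χ) (rg M (w i) (x : Kˣ)) := by
    intro x
    rw [ha' x]
    refine Finset.sum_congr rfl fun i _ => ?_
    rw [D.charValue_reg' (infl h χ) (w i) x.2, ← mul_assoc]
  refine ⟨b, hb, fun x => ?_⟩
  have hM : (Nat.card M : ℂ) ≠ 0 := by exact_mod_cast (Nat.card_pos (α := M)).ne'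
  have hN : (Nat.card N : ℂ) ≠ 0 := by exact_mod_cast (Nat.card_pos (α := N)).ne'
  let y : D.UN M := ⟨(x : Kˣ), D.UN_mono h x.2⟩
  have h1 : (Nat.card M : ℂ) * cvZ (infl h χ) (φ.f (Additive.ofMul y)) =
      (Nat.card N : ℂ) * cvZ χ (φ'.f (Additive.ofMul x)) := by
    unfold cvZ cvQ
    rw [RingHom.comp_apply, RingHom.comp_apply, RingHom.comp_apply, RingHom.comp_apply]
    apply cvR_infl
    intro g
    rw [toR_coeff, toR_coeff, toQ_coeff, toQ_coeff, hφ y x rfl g]
  have h2 : ∀ i, (Nat.card M : ℂ) * cvR (infl h χ) (rg M (w i) (x : Kˣ)) =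
      (Nat.card N : ℂ) * cvR χ (rg N (w i) (x : Kˣ)) := by
    intro i
    apply cvR_infl
    intro g
    rw [D.rg_coeff _ (D.UN_mono h x.2), D.rg_coeff _ x.2]
  have h3 := hb y
  apply mul_left_cancel₀ hN
  rw [← h1, h3, Finset.mul_sum, Finset.mul_sum]
  refine Finset.sum_congr rfl fun i _ => ?_
  have := h2 i
  linear_combination (b i) * this

theorem cvQ_val {N : Subgroup G} {ι : Type} [Fintype ι] [DecidableEq ι] (u : D.Elt N ι)
    (χ : G ⧸ N →* ℂˣ) (φ : ι → D.GHm N) (w : ι → Place K) (B : Matrix ι ι ℂ)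
    (hB : ∀ i (x : D.UN N), cvZ χ ((φ i).f (Additive.ofMul x)) =
      ∑ j, B i j * cvR χ (rg N (w j) (x : Kˣ))) :
    cvQ χ (u.val φ) = B.det * cvR χ (u.reg w) := by
  unfold Elt.val Elt.reg
  rw [map_sum, map_sum, Finset.mul_sum]
  refine Finset.sum_congr rfl fun j _ => ?_
  rw [map_mul, map_mul]
  have h1 : cvQ χ (toQ (Matrix.det (Matrix.of fun a b => (φ a).f (Additive.ofMul (u.x j b))))) =
      Matrix.det (B * Matrix.of fun a b => cvR χ (rg N (w a) (u.x j b : Kˣ))) := by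
    change cvZ χ _ = _
    rw [RingHom.map_det]
    congr 1
    ext a b
    rw [Matrix.mul_apply]
    exact hB a _
  have h2 : cvR χ (Matrix.det (Matrix.of fun a b => rg N (w a) (u.x j b : Kˣ))) =
      Matrix.det (Matrix.of fun a b => cvR χ (rg N (w a) (u.x j b : Kˣ))) := by
    rw [RingHom.map_det]
    rfl
  rw [h1, h2, Matrix.det_mul]
  have h3 : cvR χ (toR (u.c j)) = cvQ χ (u.c j) := rfl
  rw [h3]
  ring

theorem eq_of_cvQ {Γ : Type} [CommGroup Γ] [Finite Γ] {a b : MonoidAlgebra ℚ Γ}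
    (h : ∀ χ : Γ →* ℂˣ, cvQ χ a = cvQ χ b) : a = b := by
  rw [← sub_eq_zero]
  apply Pool.Agent.K3h3.RS.eq_zero_of_charValue
  intro χ
  rw [← cvQ_apply, map_sub, h, sub_self]

/-- **The norm relation.** -/
theorem norm_rel {M N : Subgroup G} (h : M ≤ N) {ι : Type} [Fintype ι] [DecidableEq ι]
    (w : ι → Place K) (u : D.Elt M ι) (u' : D.Elt N ι) (hu : D.IsRS M w u) (hu' : D.IsRS N w u')
    (φ : ι → D.GHm M) (φ' : ι → D.GHm N) (hφ : ∀ i, D.Restr (φ i) (φ' i)) :
    prjQ h (u.val φ) = u'.val φ' := by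
  apply eq_of_cvQ
  intro χ
  rw [cvQ_prjQ]
  by_cases hχ : D.Active w (χ.comp (QuotientGroup.mk' N))
  · choose B hB1 hB2 using fun i => D.exists_coeffs h w χ hχ (φ i) (φ' i) (hφ i)
    rw [D.cvQ_val u (infl h χ) φ w (Matrix.of B) (fun i x => hB1 i x),
      D.cvQ_val u' χ φ' w (Matrix.of B) (fun i x => hB2 i x)]
    congr 1
    rw [cvR_apply, cvR_apply]
    have h1 := hu.leading (infl h χ)
    have h2 := hu'.leading χ
    rw [infl_inv_comp] at h1
    exact tendsto_nhds_unique h1 h2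
  · rw [cvQ_apply, cvQ_apply, hu'.support χ hχ φ', hu.support (infl h χ) ?_ φ]
    rw [infl_comp]
    exact hχ

end STData

end Run7.h743
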