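import Pool.Agent.Run7.h743.Defs
import Pool.Agent.K3h40.RS.SpanReg
import Pool.Agent.K3h40.RS.LogInj

/-!
# The `χ`-functionals on subgroups of the `S`-units are spanned by the regulators

Adapted from `Pool.Agent.K3h40.RS.SpanReg`.
-/

set_option autoImplicit false
set_option linter.unusedSectionVars false

open NumberField IsDedekindDomain Filter Topology

noncomputable section

namespace Run7.h743

open Pool.Agent.K3h30.RS Pool.Agent.K3h40.RS

variable {k K G : Type} [Field k] [NumberField k] [Field K] [NumberField K] [Algebra k K]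
  [CommGroup G] [Finite G] [MulSemiringAction G K] [IsGaloisGroup G k K]

variable (D : STData k K)

theorem spanreg {ι : Type} [Finite ι] (w : ι → Place K) (χ : G →* ℂˣ) (hχ : D.Active w χ)
    (g : Additive (US D.S K) →+ ℂ)
    (hg : ∀ (γ : G) (x y : US D.S K), (y : Kˣ) = act γ (x : Kˣ) →
      g (Additive.ofMul y) = (χ γ : ℂ) * g (Additive.ofMul x)) :
    ∃ a : ι → ℂ, letI := Fintype.ofFinite ι; ∀ x : US D.S K,
      g (Additive.ofMul x) = ∑ i, a i * charValue χ (Pool.Agent.K3h30.RS.reg G (w i) (x : Kˣ)) := by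
  have hL := t_LOGINJ
  classical
  let _ := Fintype.ofFinite ι
  let _ := Fintype.ofFinite G
  let L : ι → (US D.S K →₀ ℂ) →ₗ[ℂ] ℂ := fun i =>
    Finsupp.linearCombination ℂ
      (fun x : US D.S K => charValue χ (Pool.Agent.K3h30.RS.reg G (w i) (x : Kˣ)))
  let M : (US D.S K →₀ ℂ) →ₗ[ℂ] ℂ :=
    Finsupp.linearCombination ℂ (fun x : US D.S K => g (Additive.ofMul x))
  have h : ⨅ i, LinearMap.ker (L i) ≤ LinearMap.ker M := by
    intro c hc
    rw [Submodule.mem_iInf] at hc
    let Λ : Place K → ℂ := fun w => ∑ x ∈ c.support, c x * PP χ w (x : Kˣ)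
    have hΛi : ∀ i, Λ (w i) = 0 := by
      intro i
      have h1 := LinearMap.mem_ker.1 (hc i)
      simp only [L, Finsupp.linearCombination_apply, Finsupp.sum, smul_eq_mul,
        charValue_reg] at h1
      exact h1
    have hconj : ∀ (w w' : Place K) (γ : G), (∀ x : K, av w x = av w' (γ • x)) →
        Λ w = (χ γ : ℂ) * Λ w' := by
      intro w w' γ hw
      simp only [Λ]
      rw [Finset.mul_sum]
      refine Finset.sum_congr rfl fun x _ => ?_
      rw [PP_conj χ w w' γ hw]
      ring
    have hΛ : ∀ u : Place K, InS (D.S : Set (HeightOneSpectrum (𝓞 k))) u → Λ u = 0 := by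
      intro u hw
      by_cases hwi : ∃ i, Conj G u (w i)
      · obtain ⟨i, γ, hγ⟩ := hwi
        rw [hconj u (w i) γ hγ, hΛi i, mul_zero]
      push Not at hwi
      rcases hχ with hχ | ⟨hχ, hχ'⟩
      · obtain ⟨γ, hγ, hγ'⟩ := hχ u hw hwi
        have h1 := hconj u u γ fun x => (hγ x).symm
        have h2 : (1 - (χ γ : ℂ)) * Λ u = 0 := by
          rw [sub_mul, one_mul, ← h1, sub_self]
        rcases mul_eq_zero.1 h2 with h3 | h3
        · exfalso
          apply hγ'
          apply Units.ext
          rw [Units.val_one]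
          exact (sub_eq_zero.1 h3).symm
        · exact h3
      · let T : Finset (HeightOneSpectrum (𝓞 K)) := (above_finite (H := K) D.S).toFinset
        have hT : ∀ w : HeightOneSpectrum (𝓞 K), w ∈ T ↔
            Above (D.S : Set (HeightOneSpectrum (𝓞 k))) w := by
          intro w
          simp [T]
        let A : Finset (Place K) := (Finset.univ : Finset (InfinitePlace K)).disjSum T
        have hA : ∀ w : Place K, w ∈ A ↔ InS (D.S : Set (HeightOneSpectrum (𝓞 k))) w := by
          intro w
          rcases w with w | w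
          · simp only [A, Finset.inl_mem_disjSum, Finset.mem_univ, true_iff]
            trivial
          · simp only [A, Finset.inr_mem_disjSum, hT]
            rfl
        have hsum : ∑ w' ∈ A, Λ w' = 0 := by
          simp only [Λ]
          rw [Finset.sum_comm]
          refine Finset.sum_eq_zero fun x _ => ?_
          rw [← Finset.mul_sum]
          have h1 : ∑ w' ∈ A, PP χ w' (x : Kˣ) = 0 := by
            unfold PP
            rw [Finset.sum_comm]
            refine Finset.sum_eq_zero fun γ _ => ?_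
            rw [← Finset.mul_sum]
            have h2 : ∑ w' ∈ A, ((Real.log (av w' ((act γ (x : Kˣ) : Kˣ) : K)) : ℝ) : ℂ) = 0 := by
              rw [← Complex.ofReal_sum, prod_formula T (act γ (x : Kˣ)), Complex.ofReal_zero]
              intro w' hw'
              exact (Pool.Agent.K3h40.RS.act_mem D.S γ (x : Kˣ) x.2).1 w'
                fun hw'' => hw' ((hT w').2 hw'')
            rw [h2, mul_zero]
          rw [h1, mul_zero]
        have h1 : ∀ w' ∈ A, Λ w' = if (∀ i, ¬ Conj G w' (w i)) then Λ u else 0 := by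
          intro w' hw'
          split_ifs with h2
          · obtain ⟨γ, hγ⟩ := hχ' w' u ((hA w').1 hw') hw h2 hwi
            rw [hconj w' u γ hγ, hχ, MonoidHom.one_apply, Units.val_one, one_mul]
          · push Not at h2
            obtain ⟨i, γ, hγ⟩ := h2
            rw [hconj w' (w i) γ hγ, hΛi i, mul_zero]
        rw [Finset.sum_congr rfl h1, ← Finset.sum_filter, Finset.sum_const, nsmul_eq_mul] at hsum
        rcases mul_eq_zero.1 hsum with h2 | h2
        · exfalso
          have h3 : (A.filter fun w' => ∀ i, ¬ Conj G w' (w i)).card = 0 := by exact_mod_cast h2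
          rw [Finset.card_eq_zero] at h3
          have h4 : u ∈ A.filter fun w' => ∀ i, ¬ Conj G w' (w i) :=
            Finset.mem_filter.2 ⟨(hA u).2 hw, hwi⟩
          rw [h3] at h4
          exact absurd h4 (Finset.notMem_empty u)
        · exact h2
    -- the relation between the logarithms
    have h1 := loginj_complex hL D.S (ι := {x // x ∈ c.support} × G)
      (fun p => c p.1 * ((χ p.2 : ℂ))⁻¹)
      (fun p => ⟨act p.2 ((p.1 : US D.S K) : Kˣ),
        Pool.Agent.K3h40.RS.act_mem D.S p.2 _ (p.1 : US D.S K).2⟩) ?_ g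
    · rw [LinearMap.mem_ker]
      simp only [M, Finsupp.linearCombination_apply, Finsupp.sum, smul_eq_mul]
      rw [Fintype.sum_prod_type] at h1
      have h2 : ∀ (x : {x // x ∈ c.support}) (γ : G), c x * ((χ γ : ℂ))⁻¹ *
          g (Additive.ofMul ⟨act γ ((x : US D.S K) : Kˣ),
            Pool.Agent.K3h40.RS.act_mem D.S γ _ (x : US D.S K).2⟩) =
          c x * g (Additive.ofMul (x : US D.S K)) := by
        intro x γ
        rw [hg γ (x : US D.S K) ⟨act γ ((x : US D.S K) : Kˣ),
          Pool.Agent.K3h40.RS.act_mem D.S γ _ (x : US D.S K).2⟩ rfl]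
        have h3 : (χ γ : ℂ) ≠ 0 := (χ γ).ne_zero
        field_simp
      simp only [h2, Finset.sum_const, Finset.card_univ, nsmul_eq_mul] at h1
      rw [← Finset.mul_sum] at h1
      have hG : (Fintype.card G : ℂ) ≠ 0 := by
        exact_mod_cast Fintype.card_ne_zero
      have h4 := (mul_eq_zero.1 h1).resolve_left hG
      rw [← h4, Finset.sum_coe_sort c.support (fun x => c x * g (Additive.ofMul x))]
    · intro u hw
      have h2 := hΛ u hw
      simp only [Λ] at h2
      rw [Fintype.sum_prod_type]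
      rw [← h2, ← Finset.sum_coe_sort c.support (fun x => c x * PP χ u (x : Kˣ))]
      refine Finset.sum_congr rfl fun x _ => ?_
      unfold PP
      rw [Finset.mul_sum]
      refine Finset.sum_congr rfl fun γ _ => ?_
      ring
  have h2 := mem_span_of_iInf_ker_le_ker h
  obtain ⟨a, ha⟩ := (Submodule.mem_span_range_iff_exists_fun ℂ).1 h2
  refine ⟨a, fun x => ?_⟩
  have h3 := LinearMap.congr_fun ha (Finsupp.single x 1)
  simp only [L, M, LinearMap.sum_apply, LinearMap.smul_apply, Finsupp.linearCombination_single,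
    smul_eq_mul, one_mul] at h3
  exact h3.symm

/-- The same for functionals on a `G`-stable subgroup. -/
theorem spanreg_sub {ι : Type} [Finite ι] (w : ι → Place K) (χ : G →* ℂˣ) (hχ : D.Active w χ)
    (A : Subgroup Kˣ) (hA : A ≤ US D.S K) (hstab : ∀ (γ : G), ∀ x ∈ A, act γ x ∈ A)
    (g : Additive A →+ ℂ)
    (hg : ∀ (γ : G) (x y : A), (y : Kˣ) = act γ (x : Kˣ) →
      g (Additive.ofMul y) = (χ γ : ℂ) * g (Additive.ofMul x)) :
    ∃ a : ι → ℂ, letI := Fintype.ofFinite ι; ∀ x : A,
      g (Additive.ofMul x) = ∑ i, a i * charValue χ (Pool.Agent.K3h30.RS.reg G (w i) (x : Kˣ)) := by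
  classical
  let _ := Fintype.ofFinite ι
  let _ := Fintype.ofFinite G
  -- extend to the `S`-units
  let inc : A →* US D.S K := Subgroup.inclusion hA
  have hinj : Function.Injective (MonoidHom.toAdditive inc) :=
    Subgroup.inclusion_injective hA
  obtain ⟨e, he⟩ := (Module.Baer.of_divisible ℂ).extension_property_addMonoidHom
    (MonoidHom.toAdditive inc) hinj g
  -- average
  let actU : G → (US D.S K →* US D.S K) := fun γ =>
    { toFun := fun x => ⟨act γ (x : Kˣ), Pool.Agent.K3h40.RS.act_mem D.S γ _ x.2⟩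
      map_one' := Subtype.ext (map_one _)
      map_mul' := fun x y => Subtype.ext (map_mul _ _ _) }
  let g' : Additive (US D.S K) →+ ℂ := ∑ γ : G,
    (AddMonoidHom.mulLeft ((Fintype.card G : ℂ)⁻¹ * ((χ γ : ℂ))⁻¹)).comp
      (e.comp (MonoidHom.toAdditive (actU γ)))
  have hg' : ∀ x : US D.S K, g' (Additive.ofMul x) = ∑ γ : G,
      ((Fintype.card G : ℂ)⁻¹ * ((χ γ : ℂ))⁻¹) * e (Additive.ofMul (actU γ x)) := by
    intro x
    simp only [g']
    rw [AddMonoidHom.finsetSum_apply]
    rfl
  obtain ⟨a, ha⟩ := spanreg D w χ hχ g' (by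
    intro γ x y hxy
    rw [hg', hg', Finset.mul_sum, ← Equiv.sum_comp (Equiv.mulRight γ) (fun β => (χ γ : ℂ) *
      (((Fintype.card G : ℂ)⁻¹ * ((χ β : ℂ))⁻¹) * e (Additive.ofMul (actU β x))))]
    refine Finset.sum_congr rfl fun β _ => ?_
    have h1 : actU β y = actU (β * γ) x := by
      apply Subtype.ext
      change act β (y : Kˣ) = act (β * γ) (x : Kˣ)
      rw [hxy]
      exact act_act β γ (x : Kˣ)
    rw [Equiv.coe_mulRight, h1, map_mul, Units.val_mul]
    have h3 : (χ γ : ℂ) ≠ 0 := (χ γ).ne_zero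
    have h4 : (χ β : ℂ) ≠ 0 := (χ β).ne_zero
    field_simp)
  refine ⟨a, fun x => ?_⟩
  have hx := ha (inc x)
  rw [hg'] at hx
  have h1 : ∀ γ : G, e (Additive.ofMul (actU γ (inc x))) = (χ γ : ℂ) * g (Additive.ofMul x) := by
    intro γ
    rw [← hg γ x ⟨act γ (x : Kˣ), hstab γ _ x.2⟩ rfl]
    have h2 : actU γ (inc x) = inc ⟨act γ (x : Kˣ), hstab γ _ x.2⟩ := rfl
    rw [h2]
    exact DFunLike.congr_fun he (Additive.ofMul (⟨act γ (x : Kˣ), hstab γ _ x.2⟩ : A))
  have h2 : ∀ γ : G, ((Fintype.card G : ℂ)⁻¹ * ((χ γ : ℂ))⁻¹) *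
      e (Additive.ofMul (actU γ (inc x))) = (Fintype.card G : ℂ)⁻¹ * g (Additive.ofMul x) := by
    intro γ
    rw [h1]
    have h3 : (χ γ : ℂ) ≠ 0 := (χ γ).ne_zero
    field_simp
  rw [Finset.sum_congr rfl (fun γ _ => h2 γ), Finset.sum_const, Finset.card_univ, nsmul_eq_mul,
    ← mul_assoc, mul_inv_cancel₀ (by exact_mod_cast Fintype.card_ne_zero), one_mul] at hx
  exact hx

end Run7.h743
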