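import Pool.Agent.Run7.h743.Desc

/-!
# Places of `V' \ V` which split completely in `K^N`
-/

set_option autoImplicit false
set_option linter.unusedSectionVars false

open NumberField IsDedekindDomain Filter Topology

noncomputable section

namespace Run7.h743

open Pool.Agent.K3h30.RS

section groupring

/-- `g ↦ g - 1` is additive modulo the square of the augmentation ideal -/
def bt {Γ : Type} [CommGroup Γ] (K : Subgroup Γ) :
    Additive K →+ MonoidAlgebra ℤ Γ ⧸ ((IH K) ^ 2 : Ideal (MonoidAlgebra ℤ Γ)) where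
  toFun g := Ideal.Quotient.mk _ (MonoidAlgebra.single ((Additive.toMul g : K) : Γ) 1 - 1)
  map_zero' := by
    rw [Ideal.Quotient.eq_zero_iff_mem]
    have : MonoidAlgebra.single (((Additive.toMul (0 : Additive K) : K)) : Γ) (1 : ℤ) - 1 = 0 :=
      sub_self _
    rw [this]
    exact Ideal.zero_mem _
  map_add' a b := by
    rw [← map_add, Ideal.Quotient.mk_eq_mk_iff_sub_mem]
    have h1 : MonoidAlgebra.single ((Additive.toMul (a + b) : K) : Γ) (1 : ℤ) - 1 -
        ((MonoidAlgebra.single ((Additive.toMul a : K) : Γ) (1 : ℤ) - 1) +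
          (MonoidAlgebra.single ((Additive.toMul b : K) : Γ) (1 : ℤ) - 1)) =
        (MonoidAlgebra.single ((Additive.toMul a : K) : Γ) (1 : ℤ) - 1) *
          (MonoidAlgebra.single ((Additive.toMul b : K) : Γ) (1 : ℤ) - 1) := by
      have h2 : MonoidAlgebra.single ((Additive.toMul (a + b) : K) : Γ) (1 : ℤ) =
          MonoidAlgebra.single ((Additive.toMul a : K) : Γ) (1 : ℤ) *
          MonoidAlgebra.single ((Additive.toMul b : K) : Γ) (1 : ℤ) := by
        rw [MonoidAlgebra.single_mul_single, mul_one]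
        rfl
      rw [h2]
      ring
    rw [h1, pow_two]
    exact Ideal.mul_mem_mul (sub_one_mem (Additive.toMul a : K).2) (sub_one_mem (Additive.toMul b : K).2)

theorem bt_prod {Γ : Type} [CommGroup Γ] (K : Subgroup Γ) {α : Type} (s : Finset α) (g : α → K)
    (n : α → ℤ) (h : ∏ a ∈ s, (g a : Γ) ^ n a = 1) :
    ∑ a ∈ s, (n a : MonoidAlgebra ℤ Γ) * (MonoidAlgebra.single (g a : Γ) 1 - 1) ∈ (IH K) ^ 2 := by
  have h1 : ∏ a ∈ s, (g a) ^ n a = 1 := by
    apply Subtype.ext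
    rw [Subgroup.val_finsetProd]
    exact h
  have h2 : bt K (Additive.ofMul (∏ a ∈ s, (g a) ^ n a)) = 0 := by
    rw [h1]; exact map_zero _
  rw [ofMul_prod, map_sum] at h2
  rw [← Ideal.Quotient.eq_zero_iff_mem, map_sum, ← h2]
  refine Finset.sum_congr rfl fun a _ => ?_
  rw [ofMul_zpow, map_zsmul, map_mul, zsmul_eq_mul]
  rfl

variable {G : Type} [CommGroup G]

theorem prj_surjective {N H : Subgroup G} (h : N ≤ H) : Function.Surjective (prj h) := by
  intro y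
  induction y using MonoidAlgebra.induction_linear with
  | zero => exact ⟨0, map_zero _⟩
  | add a b ha hb =>
    obtain ⟨a', rfl⟩ := ha
    obtain ⟨b', rfl⟩ := hb
    exact ⟨a' + b', map_add _ _ _⟩
  | single w r =>
    obtain ⟨g, rfl⟩ := QuotientGroup.mk_surjective w
    refine ⟨MonoidAlgebra.single (g : G ⧸ N) r, ?_⟩
    unfold prj
    simp

theorem mem_of_prj {N H : Subgroup G} (h : N ≤ H) {y : MonoidAlgebra ℤ (G ⧸ N)}
    (hy : prj h y = 0) : y ∈ IH (H.map (QuotientGroup.mk' N)) := by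
  have h1 := mem_of_mp_eq_zero (QuotientGroup.map N H (MonoidHom.id G) h) y hy
  rw [QuotientGroup.ker_map, Subgroup.comap_id] at h1
  exact h1

theorem prj_mem {M N H : Subgroup G} (h : M ≤ N) {n : ℕ} {y : MonoidAlgebra ℤ (G ⧸ M)}
    (hy : y ∈ (IH (H.map (QuotientGroup.mk' M))) ^ n) :
    prj h y ∈ (IH (H.map (QuotientGroup.mk' N))) ^ n := by
  refine mp_mem (QuotientGroup.map M N (MonoidHom.id G) h) ?_ n y hy
  rintro _ ⟨g, hg, rfl⟩
  exact ⟨g, hg, rfl⟩

theorem prj_eq_zero {N H : Subgroup G} (h : N ≤ H) {n : ℕ} (hn : n ≠ 0)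
    {y : MonoidAlgebra ℤ (G ⧸ N)} (hy : y ∈ (IH (H.map (QuotientGroup.mk' N))) ^ n) :
    prj h y = 0 := by
  have h1 : y ∈ IH (H.map (QuotientGroup.mk' N)) := Ideal.pow_le_self hn hy
  have h2 : IH (H.map (QuotientGroup.mk' N)) ≤ RingHom.ker (prj h) := by
    unfold IH
    rw [Ideal.span_le]
    rintro _ ⟨_, ⟨g, hg, rfl⟩, rfl⟩
    rw [SetLike.mem_coe, RingHom.mem_ker, map_sub, map_one]
    have : ((g : G ⧸ H)) = 1 := (QuotientGroup.eq_one_iff g).2 hg
    unfold prj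
    simp only [MonoidAlgebra.mapDomainRingHom_apply, MonoidAlgebra.mapDomain_single]
    change MonoidAlgebra.single ((g : G ⧸ H)) (1 : ℤ) - 1 = 0
    rw [this]
    exact sub_self _
  exact RingHom.mem_ker.1 (h2 h1)

theorem prod_mem_pow {N H : Subgroup G} {α : Type} [Fintype α] (g : α → H) :
    ∏ a, (MonoidAlgebra.single ((g a : G) : G ⧸ N) (1 : ℤ) - 1) ∈
      (IH (H.map (QuotientGroup.mk' N))) ^ (Fintype.card α) := by
  have h1 := Ideal.prod_mem_prod (s := Finset.univ) (I := fun _ : α => IH (H.map (QuotientGroup.mk' N)))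
    (x := fun a => MonoidAlgebra.single ((g a : G) : G ⧸ N) (1 : ℤ) - 1)
    (fun a _ => sub_one_mem ⟨(g a : G), (g a).2, rfl⟩)
  rwa [Finset.prod_const, Finset.card_univ] at h1

end groupring

variable {k K G : Type} [Field k] [NumberField k] [Field K] [NumberField K] [Algebra k K]
  [CommGroup G] [Finite G] [MulSemiringAction G K] [IsGaloisGroup G k K]

namespace STData

variable (D : STData k K)

section multilinear

variable {κ : Type} [Fintype κ] [DecidableEq κ] {N : Subgroup G}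

/-- linearity of the values in one argument -/
theorem val_update (u : D.Elt N κ) (Φ : κ → D.GHm N) (j : κ) (ψ : D.GHm N) {α : Type} (s : Finset α)
    (Θ : α → D.GHm N) (n : α → ℤ) (h : D.cf1 ψ = ∑ a ∈ s, n a • D.cf1 (Θ a)) :
    u.val (Function.update Φ j ψ) = ∑ a ∈ s, (n a : MonoidAlgebra ℚ (G ⧸ N)) *
      u.val (Function.update Φ j (Θ a)) := by
  classical
  have h1 : ∀ x : D.UN N, ψ.f (Additive.ofMul x) =
      ∑ a ∈ s, n a • (Θ a).f (Additive.ofMul x) := by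
    intro x
    ext c
    obtain ⟨g, rfl⟩ := QuotientGroup.mk_surjective c
    change (ψ.f (Additive.ofMul x)).coeff (g : G ⧸ N) = _
    rw [D.coeff_eq, h, AddMonoidHom.finsetSum_apply, MonoidAlgebra.coeff_sum, Finset.sum_apply']
    refine Finset.sum_congr rfl fun a _ => ?_
    rw [AddMonoidHom.coe_smul, Pi.smul_apply, MonoidAlgebra.coeff_smul, Finsupp.smul_apply,
      ← D.coeff_eq]
  unfold Elt.val
  simp only [Finset.mul_sum]
  rw [Finset.sum_comm]
  refine Finset.sum_congr rfl fun i _ => ?_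
  have h2 : ∀ θ : D.GHm N, (Matrix.of fun a b => ((Function.update Φ j θ) a).f
      (Additive.ofMul (u.x i b))) = Function.update (fun a b => (Φ a).f (Additive.ofMul (u.x i b))) j
        (fun b => θ.f (Additive.ofMul (u.x i b))) := by
    intro θ
    refine Matrix.ext fun a b => ?_
    by_cases haj : a = j
    · subst haj
      simp
    · simp [Function.update_of_ne haj]
  have h3 : ∀ M : Matrix κ κ (MonoidAlgebra ℤ (G ⧸ N)), M.det = Matrix.detRowAlternating M :=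
    fun M => rfl
  rw [h2, h3]
  have h4 : (fun b => ψ.f (Additive.ofMul (u.x i b))) =
      ∑ a ∈ s, (n a : MonoidAlgebra ℤ (G ⧸ N)) • (fun b => (Θ a).f (Additive.ofMul (u.x i b))) := by
    ext1 b
    rw [h1, Finset.sum_apply]
    refine Finset.sum_congr rfl fun a _ => ?_
    rw [Pi.smul_apply, smul_eq_mul, zsmul_eq_mul]
  rw [h4]
  rw [AlternatingMap.map_update_sum, map_sum, Finset.mul_sum]
  refine Finset.sum_congr rfl fun a _ => ?_
  rw [AlternatingMap.map_update_smul, h2, h3, smul_eq_mul, map_mul, map_intCast]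
  ring

/-- the dual basis of `O_{E,S,T}^×` -/
theorem exists_dual (N : Subgroup G) : ∃ (m : ℕ) (b : Fin m → D.UN N) (Θ : Fin m → D.GHm N),
    ∀ ψ : D.GHm N, D.cf1 ψ = ∑ i ∈ Finset.univ, D.cf1 ψ (Additive.ofMul (b i)) • D.cf1 (Θ i) := by
  let B := Module.finBasis ℤ (Additive (D.UN N))
  refine ⟨_, fun i => Additive.toMul (B i), fun i => D.mkG N (B.coord i).toAddMonoidHom, ?_⟩
  intro ψ
  have h1 : ∀ f : Additive (D.UN N) →+ ℤ, D.cf1 (D.mkG N f) = f := by
    intro f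
    ext x
    change (((D.mkG N f).f (Additive.ofMul x)).coeff ((1 : G) : G ⧸ N)) = f (Additive.ofMul x)
    rw [D.mkG_coeff, inv_one, D.actU_one]
  refine AddMonoidHom.ext fun x => ?_
  rw [AddMonoidHom.finsetSum_apply]
  conv_lhs => rw [← B.sum_repr x]
  rw [map_sum]
  refine Finset.sum_congr rfl fun i _ => ?_
  rw [h1, map_zsmul, AddMonoidHom.coe_smul, Pi.smul_apply, smul_eq_mul, smul_eq_mul, mul_comm]
  rfl

end multilinear

section

variable {ι δ : Type} [Fintype ι] [DecidableEq ι] [Fintype δ] [DecidableEq δ]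

/-- the inner sum -/
theorem inner_mem {κ : Type} [Fintype κ] [DecidableEq κ] {N H : Subgroup G} (hNH : N ≤ H)
    (u' : D.Elt H κ)
    (hint : ∀ φ : κ → D.GHm H, ∃ z : MonoidAlgebra ℤ (G ⧸ H), u'.val φ = toQ z)
    (Φ : κ → D.GHm H) (j : κ) (ψ : H → D.GHm H)
    (hψ : letI := Fintype.ofFinite H
      ∀ a : D.UN H, ∏ h : H, ((h : G) : G ⧸ N) ^ (D.cf1 (ψ h) (Additive.ofMul a)) = 1)
    (y : H → MonoidAlgebra ℤ (G ⧸ N))
    (hy : ∀ h, u'.val (Function.update Φ j (ψ h)) = toQ (prj hNH (y h))) :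
    letI := Fintype.ofFinite H
    ∑ h : H, y h * (MonoidAlgebra.single ((h : G) : G ⧸ N) 1 - 1) ∈
      (IH (H.map (QuotientGroup.mk' N))) ^ 2 := by
  let _ := Fintype.ofFinite H
  change ∑ h : H, y h * (MonoidAlgebra.single ((h : G) : G ⧸ N) 1 - 1) ∈
      (IH (H.map (QuotientGroup.mk' N))) ^ 2
  obtain ⟨m, b, Θ, hΘ⟩ := D.exists_dual H
  have h1 : ∀ i, ∃ y' : MonoidAlgebra ℤ (G ⧸ N),
      u'.val (Function.update Φ j (Θ i)) = toQ (prj hNH y') := by
    intro i
    obtain ⟨z, hz⟩ := hint (Function.update Φ j (Θ i))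
    obtain ⟨y', rfl⟩ := prj_surjective hNH z
    exact ⟨y', hz⟩
  choose y' hy' using h1
  have h2 : ∀ h : H, y h - ∑ i, ((D.cf1 (ψ h) (Additive.ofMul (b i)) : ℤ) :
      MonoidAlgebra ℤ (G ⧸ N)) * y' i ∈ IH (H.map (QuotientGroup.mk' N)) := by
    intro h
    apply mem_of_prj hNH
    apply toQ_injective
    rw [map_sub, map_sub, map_zero, ← hy, D.val_update u' Φ j (ψ h) Finset.univ Θ _ (hΘ (ψ h)),
      map_sum, map_sum, sub_eq_zero]
    refine Finset.sum_congr rfl fun i _ => ?_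
    rw [map_mul, map_mul, map_intCast, map_intCast, hy']
  have h3 : ∑ h : H, y h * (MonoidAlgebra.single ((h : G) : G ⧸ N) 1 - 1) =
      ∑ h : H, (y h - ∑ i, ((D.cf1 (ψ h) (Additive.ofMul (b i)) : ℤ) :
        MonoidAlgebra ℤ (G ⧸ N)) * y' i) * (MonoidAlgebra.single ((h : G) : G ⧸ N) 1 - 1) +
      ∑ i, y' i * ∑ h : H, ((D.cf1 (ψ h) (Additive.ofMul (b i)) : ℤ) :
        MonoidAlgebra ℤ (G ⧸ N)) * (MonoidAlgebra.single ((h : G) : G ⧸ N) 1 - 1) := by
    have h4 : ∑ i, y' i * ∑ h : H, ((D.cf1 (ψ h) (Additive.ofMul (b i)) : ℤ) :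
        MonoidAlgebra ℤ (G ⧸ N)) * (MonoidAlgebra.single ((h : G) : G ⧸ N) 1 - 1) =
        ∑ h : H, (∑ i, ((D.cf1 (ψ h) (Additive.ofMul (b i)) : ℤ) :
        MonoidAlgebra ℤ (G ⧸ N)) * y' i) * (MonoidAlgebra.single ((h : G) : G ⧸ N) 1 - 1) := by
      simp only [Finset.mul_sum, Finset.sum_mul]
      rw [Finset.sum_comm]
      refine Finset.sum_congr rfl fun h _ => Finset.sum_congr rfl fun i _ => ?_
      ring
    rw [h4, ← Finset.sum_add_distrib]
    refine Finset.sum_congr rfl fun h _ => ?_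
    ring
  rw [h3]
  refine Ideal.add_mem _ ?_ ?_
  · refine Ideal.sum_mem _ fun h _ => ?_
    rw [pow_two]
    exact Ideal.mul_mem_mul (h2 h) (sub_one_mem ⟨(h : G), h.2, rfl⟩)
  · refine Ideal.sum_mem _ fun i _ => Ideal.mul_mem_left _ _ ?_
    exact bt_prod (H.map (QuotientGroup.mk' N)) Finset.univ
      (fun h : H => ⟨((h : G) : G ⧸ N), ⟨(h : G), h.2, rfl⟩⟩)
      (fun h => D.cf1 (ψ h) (Additive.ofMul (b i))) (hψ (b i))

/-- the whole sum -/
theorem outer_mem {N H : Subgroup G} (hNH : N ≤ H) (u' : D.Elt H (δ ⊕ ι))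
    (hint : ∀ φ : δ ⊕ ι → D.GHm H, ∃ z : MonoidAlgebra ℤ (G ⧸ H), u'.val φ = toQ z)
    (φ' : ι → D.GHm H) (ψ : δ → H → D.GHm H) (j₀ : δ)
    (hψ : letI := Fintype.ofFinite H
      ∀ a : D.UN H, ∏ h : H, ((h : G) : G ⧸ N) ^ (D.cf1 (ψ j₀ h) (Additive.ofMul a)) = 1)
    (y : (δ → H) → MonoidAlgebra ℤ (G ⧸ N))
    (hy : ∀ h : δ → H, u'.val (Sum.elim (fun j => ψ j (h j)) φ') = toQ (prj hNH (y h))) :
    letI := Fintype.ofFinite H
    ∑ h : δ → H, y h * ∏ j, (MonoidAlgebra.single ((h j : G) : G ⧸ N) 1 - 1) ∈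
      (IH (H.map (QuotientGroup.mk' N))) ^ (Fintype.card δ + 1) := by
  classical
  let _ := Fintype.ofFinite H
  change ∑ h : δ → H, y h * ∏ j, (MonoidAlgebra.single ((h j : G) : G ⧸ N) 1 - 1) ∈
      (IH (H.map (QuotientGroup.mk' N))) ^ (Fintype.card δ + 1)
  rw [← (Equiv.funSplitAt j₀ H).symm.sum_comp, Fintype.sum_prod_type_right]
  refine Ideal.sum_mem _ fun h' _ => ?_
  have h1 : ∀ t : H, y ((Equiv.funSplitAt j₀ H).symm (t, h')) *
      ∏ j, (MonoidAlgebra.single ((((Equiv.funSplitAt j₀ H).symm (t, h')) j : G) : G ⧸ N) (1 : ℤ) - 1)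
      = (y ((Equiv.funSplitAt j₀ H).symm (t, h')) *
        (MonoidAlgebra.single ((t : G) : G ⧸ N) 1 - 1)) *
        ∏ j : {j // j ≠ j₀}, (MonoidAlgebra.single ((h' j : G) : G ⧸ N) (1 : ℤ) - 1) := by
    intro t
    rw [Fintype.prod_eq_mul_prod_subtype_ne _ j₀, mul_assoc]
    congr 2
    · simp [Equiv.funSplitAt]
    · refine Finset.prod_congr rfl fun j _ => ?_
      have : (Equiv.funSplitAt j₀ H).symm (t, h') (j : δ) = h' j := by
        simp [Equiv.funSplitAt, Equiv.piSplitAt, j.2]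
      rw [this]
  rw [Finset.sum_congr rfl (fun t _ => h1 t), ← Finset.sum_mul]
  have hcard : Fintype.card δ + 1 = 2 + Fintype.card {j // j ≠ j₀} := by
    have h2 : Fintype.card {j // j ≠ j₀} = Fintype.card δ - 1 := by
      have := Fintype.card_subtype_compl (fun j => j = j₀)
      rw [Fintype.card_subtype_eq] at this
      exact this
    have h3 : 0 < Fintype.card δ := Fintype.card_pos_iff.2 ⟨j₀⟩
    omega
  rw [hcard, pow_add]
  refine Ideal.mul_mem_mul ?_ (prod_mem_pow _)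
  -- the inner sum
  let Φ : δ ⊕ ι → D.GHm H := Sum.elim (fun j => ψ j ((Equiv.funSplitAt j₀ H).symm (1, h') j)) φ'
  refine D.inner_mem hNH u' hint Φ (Sum.inl j₀) (ψ j₀) hψ _ ?_
  intro t
  rw [← hy]
  congr 1
  ext1 s
  rcases s with j | i
  · by_cases hj : j = j₀
    · subst hj
      rw [Function.update_self]
      simp [Equiv.funSplitAt, Equiv.piSplitAt]
    · rw [Function.update_of_ne (by simpa using hj)]
      simp [Φ, Equiv.funSplitAt, Equiv.piSplitAt, hj]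
  · rw [Function.update_of_ne (by simp)]
    simp [Φ]

/-- inactivity -/
theorem not_active {w : ι → Place K} {χ : G →* ℂˣ} {u₀ u₁ : Place K}
    (h₀ : InS (D.S : Set (HeightOneSpectrum (𝓞 k))) u₀)
    (h₁ : InS (D.S : Set (HeightOneSpectrum (𝓞 k))) u₁) (hw₀ : ∀ i, ¬ Conj G u₀ (w i))
    (hw₁ : ∀ i, ¬ Conj G u₁ (w i)) (h : ¬ Conj G u₀ u₁)
    (hχ : ∀ γ : G, Fixes u₀ γ → χ γ = 1) : ¬ D.Active w χ := by
  rintro (h2 | ⟨_, h2⟩)
  · obtain ⟨γ, hγ, hγ'⟩ := h2 u₀ h₀ hw₀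
    exact hγ' (hχ γ hγ)
  · exact h (h2 u₀ u₁ h₀ h₁ hw₀ hw₁)

/-- the vanishing of the Rubin–Stark element if a further place splits completely -/
theorem val_eq_zero {N H : Subgroup G} {w : ι → Place K} {x : δ → Place K}
    (hx : D.IsV H (Sum.elim x w)) (u : D.Elt N ι) (hu : D.IsRS N w u) (j₀ : δ)
    (hj : ∀ γ : G, Fixes (x j₀) γ → γ ∈ N) (φ : ι → D.GHm N) : u.val φ = 0 := by
  apply eq_of_cvQ
  intro χ
  rw [map_zero, cvQ_apply]
  refine hu.support χ ?_ φ
  obtain ⟨u₁, h₁, h₂⟩ := hx.more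
  refine D.not_active (u₀ := x j₀) (u₁ := u₁) (hx.inS (Sum.inl j₀)) h₁ ?_ (fun i => h₂ (Sum.inr i)) ?_ ?_
  · intro i hi
    have := hx.distinct (Sum.inl j₀) (Sum.inr i) hi
    simp at this
  · intro hc
    exact h₂ (Sum.inl j₀) (by
      obtain ⟨γ, hγ⟩ := hc
      refine ⟨γ⁻¹, fun y => ?_⟩
      change av u₁ y = av (x j₀) (γ⁻¹ • y)
      rw [hγ, smul_inv_smul])
  · intro γ hγ
    rw [MonoidHom.comp_apply, QuotientGroup.mk'_apply, (QuotientGroup.eq_one_iff γ).2 (hj γ hγ),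
      map_one]

/-- **The conjecture if a place of `V' \ V` splits completely in `K^N`.** -/
theorem mrs_of_splits {N H : Subgroup G} (hNH : N ≤ H) (w : ι → Place K) (x : δ → Place K)
    (ρ : δ → D.UN H →* G) (hx : D.IsV H (Sum.elim x w)) (j₀ : δ)
    (hj : ∀ γ : G, Fixes (x j₀) γ → γ ∈ N) (hρ : ∀ a, Fixes (x j₀) (ρ j₀ a)) :
    D.MRS hNH w x ρ := by
  intro u u' hu hu' φ φ' hφ ψ hψ z y hz hy
  have h1 : z = 0 := by
    apply toQ_injective
    rw [← hz, D.val_eq_zero hx u hu j₀ hj φ, map_zero]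
  rw [h1, zero_sub]
  refine Ideal.neg_mem_iff _ |>.2 (D.outer_mem hNH u' hu'.integral φ' ψ j₀ ?_ y hy)
  intro a
  have h2 := hψ j₀ a
  rw [(QuotientGroup.eq_one_iff _).2 (hj _ (hρ a))] at h2
  exact h2.symm

end

end STData

end Run7.h743
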